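import Pool.Agent.FF.RRD
import Mathlib.Analysis.Fourier.FiniteAbelian.PontryaginDuality

/-! # The dual of `A / (A(0) + K)` contains `L(D)` if `A / (A(D) + K)` is not zero -/

set_option autoImplicit false
set_option linter.unusedSectionVars false

namespace Pool.Agent.FF

open RRD

variable {k K : Type} [Field k] [Finite k] [Field K] [Algebra k K] {g : ℕ}

/-- the classes of repartitions -/
abbrev HQ (D : DV K → ℤ) : Type := ↥(Adl K) ⧸ (AInt D ⊔ Prin K).addSubgroupOf (Adl K)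

theorem card_HQ (D : DV K → ℤ) : Nat.card (HQ D) = hCard D := rfl

theorem mul_mem_Adl (C : Cv k K g) (z : K) {r : DV K → K} (hr : r ∈ Adl K) :
    (fun P => z * r P) ∈ Adl K := by
  change Set.Finite _
  refine ((C.poles z).union hr).subset fun P hP => ?_
  by_contra hc
  rw [Set.mem_union, not_or] at hc
  refine hP ?_
  have := (not_not.1 hc.1).mul (not_not.1 hc.2)
  rwa [add_zero] at this

/-- multiplication by a function -/
def mulAdl (C : Cv k K g) (z : K) : ↥(Adl K) →+ ↥(Adl K) where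
  toFun r := ⟨fun P => z * r.1 P, mul_mem_Adl C z r.2⟩
  map_zero' := Subtype.ext (funext fun P => by simp)
  map_add' r s := Subtype.ext (funext fun P => by simp [mul_add])

theorem mulAdl_le (C : Cv k K g) {D : DV K → ℤ} {z : K} (hz : z ∈ LInt D) :
    (AInt (0 : DV K → ℤ) ⊔ Prin K).addSubgroupOf (Adl K) ≤
      ((AInt D ⊔ Prin K).addSubgroupOf (Adl K)).comap (mulAdl C z) := by
  intro r hr
  rw [AddSubgroup.mem_comap, AddSubgroup.mem_addSubgroupOf]
  rw [AddSubgroup.mem_addSubgroupOf] at hr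
  obtain ⟨s, hs, t, ht, hst⟩ := AddSubgroup.mem_sup.1 hr
  refine AddSubgroup.mem_sup.2 ⟨fun P => z * s P, fun P => ?_, fun P => z * t P, ?_, ?_⟩
  · have := (hz P).mul (hs P)
    simpa using this
  · obtain ⟨a, ha⟩ := ht
    exact ⟨z * a, fun P => by
      change z * t P = z * a
      rw [ha P]⟩
  · funext P
    change z * s P + z * t P = z * r.1 P
    rw [← mul_add]
    exact congrArg (z * ·) (congrFun hst P)

/-- multiplication on classes -/
def mulHQ (C : Cv k K g) {D : DV K → ℤ} (z : LInt D) : HQ (0 : DV K → ℤ) →+ HQ D :=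
  QuotientAddGroup.map _ _ (mulAdl C z.1) (mulAdl_le C z.2)

theorem mulHQ_mk (C : Cv k K g) {D : DV K → ℤ} (z : LInt D) (r : ↥(Adl K)) :
    mulHQ C z (QuotientAddGroup.mk r) = QuotientAddGroup.mk (mulAdl C z.1 r) := rfl

theorem card_LInt_le (C : Cv k K g) (D : DV K →₀ ℤ) (h1 : hCard (D : DV K → ℤ) ≠ 1) :
    Nat.card (LInt (D : DV K → ℤ)) ≤ Nat.card k ^ g := by
  classical
  have hfin := (cnt C D).hfin
  have hq : 0 < Nat.card k := Nat.card_pos
  have f0 : Nat.card (HQ (0 : DV K → ℤ)) = Nat.card k ^ g := hgen C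
  have fin0 : Finite (HQ (0 : DV K → ℤ)) :=
    Nat.finite_of_card_ne_zero (by rw [f0]; positivity)
  have finD : Finite (HQ (D : DV K → ℤ)) := Nat.finite_of_card_ne_zero hfin
  have nt : Nontrivial (HQ (D : DV K → ℤ)) := by
    by_contra hn
    rw [not_nontrivial_iff_subsingleton] at hn
    exact h1 (Nat.card_of_subsingleton (0 : HQ (D : DV K → ℤ)))
  have := Fintype.ofFinite (HQ (0 : DV K → ℤ))
  have := Fintype.ofFinite (HQ (D : DV K → ℤ))
  obtain ⟨x, hx⟩ := exists_ne (0 : HQ (D : DV K → ℤ))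
  obtain ⟨ψ, hψ⟩ := AddChar.exists_apply_ne_zero.2 hx
  let Φ : LInt (D : DV K → ℤ) → AddChar (HQ (0 : DV K → ℤ)) ℂ := fun a =>
    ψ.compAddMonoidHom (mulHQ C a)
  have inj : Function.Injective Φ := by
    intro a b hab
    by_contra hne
    have hz : a.1 - b.1 ≠ 0 := fun h => hne (Subtype.ext (sub_eq_zero.1 h))
    obtain ⟨s, rfl⟩ := QuotientAddGroup.mk_surjective x
    obtain ⟨r, hr⟩ : ∃ r : ↥(Adl K), mulAdl C (a.1 - b.1) r = s :=
      ⟨⟨fun P => (a.1 - b.1)⁻¹ * s.1 P, mul_mem_Adl C _ s.2⟩, Subtype.ext (funext fun P =>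
        mul_inv_cancel_left₀ hz _)⟩
    have h2 : ψ (mulHQ C a (QuotientAddGroup.mk r)) = ψ (mulHQ C b (QuotientAddGroup.mk r)) :=
      DFunLike.congr_fun hab (QuotientAddGroup.mk r)
    have h3 : mulHQ C a (QuotientAddGroup.mk r) = QuotientAddGroup.mk s +
        mulHQ C b (QuotientAddGroup.mk r) := by
      rw [mulHQ_mk, mulHQ_mk, ← hr, ← QuotientAddGroup.mk_add]
      congr 1
      refine Subtype.ext (funext fun P => ?_)
      change a.1 * r.1 P = (a.1 - b.1) * r.1 P + b.1 * r.1 P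
      ring
    rw [h3, AddChar.map_add_eq_mul] at h2
    refine hψ ?_
    have h4 : ψ (mulHQ C b (QuotientAddGroup.mk r)) ≠ 0 := fun h => by
      have h5 := AddChar.map_add_eq_mul ψ (mulHQ C b (QuotientAddGroup.mk r))
        (-mulHQ C b (QuotientAddGroup.mk r))
      rw [add_neg_cancel, AddChar.map_zero_eq_one, h, zero_mul] at h5
      exact one_ne_zero h5
    exact mul_right_cancel₀ h4 (by rw [h2, one_mul])
  calc Nat.card (LInt (D : DV K → ℤ)) ≤ Nat.card (AddChar (HQ (0 : DV K → ℤ)) ℂ) :=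
        Nat.card_le_card_of_injective Φ inj
    _ = Nat.card (HQ (0 : DV K → ℤ)) := by
        rw [Nat.card_eq_fintype_card, Nat.card_eq_fintype_card, AddChar.card_eq]
    _ = Nat.card k ^ g := f0

theorem hCard_eq_one' (C : Cv k K g) (D : DV K →₀ ℤ)
    (hD : 2 * (g : ℤ) - 1 ≤ - degZ k D) : hCard (D : DV K → ℤ) = 1 := by
  by_contra h1
  have h := card_LInt_le C D h1
  obtain ⟨-, hf, he⟩ := cnt C D
  have h2 : 2 ≤ hCard (D : DV K → ℤ) := by omega
  have hq : 1 < Nat.card k := Finite.one_lt_card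
  have hq' : (1 : ℚ) < Nat.card k := by exact_mod_cast hq
  have h3 : (Nat.card (LInt (D : DV K → ℤ)) : ℚ) ≤ (Nat.card k : ℚ) ^ g := by exact_mod_cast h
  have h4 : (Nat.card k : ℚ) ^ g ≤ (Nat.card k : ℚ) ^ (1 - (g : ℤ) - degZ k D) := by
    rw [← zpow_natCast]
    exact zpow_le_zpow_right₀ hq'.le (by omega)
  have h5 : (2 : ℚ) ≤ hCard (D : DV K → ℤ) := by exact_mod_cast h2
  have h6 : (0 : ℚ) < (Nat.card k : ℚ) ^ g := by positivity
  rw [he] at h3
  nlinarith

end Pool.Agent.FF
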