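import Pool.Agent.FY.Defs
import Pool.Agent.FY.RRxA

/-! # B1: Riemann - Roch for large degree, exact form -/

set_option autoImplicit false

namespace Pool.Agent.FF

theorem hCard_eq_one {k K : Type} [Field k] [Finite k] [Field K] [Algebra k K] {g : ℕ}
    (C : Cv k K g) {R : DV K} (_hR : R.Rat k) (D : DV K →₀ ℤ)
    (hD : 2 * (g : ℤ) - 1 ≤ - RRD.degZ k D) : RRD.hCard (D : DV K → ℤ) = 1 :=
  hCard_eq_one' C D hD

end Pool.Agent.FF
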