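import Pool.Agent.FY.AdicW

/-! # B7: the 2-adic bound -/

set_option autoImplicit false

namespace Pool.Agent.FF

open Polynomial

theorem adic {g s : ℕ} (L : ℕ → Polynomial ℤ) (hd : (L 0).natDegree ≤ 2 * g)
    (h0 : (L 0).coeff 0 = 1)
    (hL : ∀ j, (L (j + 1)).comp (X ^ 2) = L j * (L j).comp (-X))
    (hs : ∀ j, (2 : ℤ) ^ s ∣ (L j).eval (-1)) : s ≤ 2 * g :=
  Pool.Agent.FY.AdicW.main g s L hd h0 (fun j => by rw [← hL, expand_eq_comp_X_pow]) hs

end Pool.Agent.FF
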