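import Mathlib

set_option autoImplicit false

namespace Pool.Agent.FY



/-- the `L`-polynomials of `K` and of the quadratic constant extension, from the counting identity -/
theorem poly_rel (q : ℤ) (A A' : ℕ → ℤ) (L L' : Polynomial ℤ)
    (hL : (L : PowerSeries ℤ) = (1 - PowerSeries.X) * (1 - PowerSeries.C q * PowerSeries.X) *
      PowerSeries.mk A)
    (hL' : (L' : PowerSeries ℤ) = (1 - PowerSeries.X) * (1 - PowerSeries.C (q ^ 2) * PowerSeries.X) *
      PowerSeries.mk A')
    (hA : ∀ n, A' n = ∑ x ∈ Finset.HasAntidiagonal.antidiagonal (2 * n), (-1) ^ x.2 * A x.1 * A x.2) :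
    Polynomial.expand ℤ 2 L' = L * L.comp (-Polynomial.X) := by
  have h1 : ((Polynomial.expand ℤ 2 L' : Polynomial ℤ) : PowerSeries ℤ) =
      PowerSeries.expand 2 two_ne_zero (L' : PowerSeries ℤ) := by
    ext n
    rw [Polynomial.coeff_coe, Polynomial.coeff_expand two_pos, PowerSeries.coeff_expand,
      Polynomial.coeff_coe]
  have h2 : ((L.comp (-Polynomial.X) : Polynomial ℤ) : PowerSeries ℤ) =
      PowerSeries.evalNegHom (L : PowerSeries ℤ) := by
    ext n
    rw [Polynomial.coeff_coe, PowerSeries.evalNegHom, PowerSeries.coeff_rescale,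
      Polynomial.coeff_coe]
    have h3 := Polynomial.comp_C_mul_X_coeff (p := L) (r := (-1 : ℤ)) (n := n)
    rw [map_neg, map_one, neg_one_mul] at h3
    rw [h3, mul_comm]
  have h3 : PowerSeries.mk A * PowerSeries.evalNegHom (PowerSeries.mk A) =
      PowerSeries.expand 2 two_ne_zero (PowerSeries.mk A') := by
    ext n
    rw [PowerSeries.coeff_mul, PowerSeries.coeff_expand]
    have h4 : ∀ x ∈ Finset.HasAntidiagonal.antidiagonal n, PowerSeries.coeff x.1 (PowerSeries.mk A) *
        PowerSeries.coeff x.2 (PowerSeries.evalNegHom (PowerSeries.mk A)) =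
        (-1) ^ x.2 * A x.1 * A x.2 := by
      intro x _
      rw [PowerSeries.evalNegHom, PowerSeries.coeff_rescale, PowerSeries.coeff_mk,
        PowerSeries.coeff_mk]
      ring
    rw [Finset.sum_congr rfl h4]
    split_ifs with h
    · obtain ⟨m, rfl⟩ := h
      rw [Nat.mul_div_cancel_left _ two_pos, PowerSeries.coeff_mk, hA]
    · have h5 : Odd n := by
        rw [← Nat.not_even_iff_odd]
        exact fun h6 => h h6.two_dvd
      have h6 : ∑ x ∈ Finset.HasAntidiagonal.antidiagonal n, (-1 : ℤ) ^ x.2 * A x.1 * A x.2 =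
          ∑ x ∈ Finset.HasAntidiagonal.antidiagonal n, -((-1 : ℤ) ^ x.2 * A x.1 * A x.2) := by
        rw [← Finset.Nat.sum_antidiagonal_swap]
        refine Finset.sum_congr rfl fun x hx => ?_
        rw [Finset.HasAntidiagonal.mem_antidiagonal] at hx
        have h7 : (-1 : ℤ) ^ x.1 * (-1) ^ x.2 = -1 := by
          rw [← pow_add, hx, h5.neg_one_pow]
        have h8 : (-1 : ℤ) ^ x.2 * (-1) ^ x.2 = 1 := by
          rw [← mul_pow]; norm_num
        simp only [Prod.fst_swap, Prod.snd_swap]
        linear_combination (-(-1 : ℤ) ^ x.1 * A x.1 * A x.2) * h8 + ((-1 : ℤ) ^ x.2 * A x.1 * A x.2) * h7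
      rw [Finset.sum_neg_distrib] at h6
      omega
  apply Polynomial.coe_injective
  rw [h1, Polynomial.coe_mul, h2, hL, hL']
  simp only [map_mul, map_sub, map_one, PowerSeries.evalNegHom_X, PowerSeries.expand_X,
    PowerSeries.expand_C]
  rw [← h3]
  have h9 : PowerSeries.evalNegHom (PowerSeries.C q) = PowerSeries.C q := by
    rw [PowerSeries.evalNegHom]
    ext n
    rw [PowerSeries.coeff_rescale, PowerSeries.coeff_C]
    split_ifs with h
    · rw [h]; ring
    · ring
  rw [h9, map_pow]
  ring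

end Pool.Agent.FY
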