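import Pool.Agent.FF.RRD

/-! # Divisor classes of degree zero -/

set_option autoImplicit false

namespace Pool.Agent.FF

/-- the principal divisors -/
def PrD (K : Type*) [Field K] : AddSubgroup (DV K →₀ ℤ) where
  carrier := {D | ∃ y : K, y ≠ 0 ∧ ∀ v : DV K, D v = v.ord y}
  zero_mem' := ⟨1, one_ne_zero, fun v => v.ord_one.symm⟩
  add_mem' := by
    rintro D E ⟨y, hy, h1⟩ ⟨z, hz, h2⟩
    exact ⟨y * z, mul_ne_zero hy hz, fun v => by
      rw [Finsupp.add_apply, h1, h2, v.ord_mul y z hy hz]⟩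
  neg_mem' := by
    rintro D ⟨y, hy, h1⟩
    exact ⟨y⁻¹, inv_ne_zero hy, fun v => by rw [Finsupp.neg_apply, h1, v.ord_inv hy]⟩

/-- the degree as a homomorphism -/
noncomputable def degH (k : Type*) [Field k] [Finite k] (K : Type*) [Field K] :
    (DV K →₀ ℤ) →+ ℤ where
  toFun D := D.sum fun P n => n * (P.deg (Nat.card k) : ℤ)
  map_zero' := Finsupp.sum_zero_index
  map_add' _ _ := Finsupp.sum_add_index' (fun P => by simp) fun P m n => by ring

theorem degH_eq (k : Type*) [Field k] [Finite k] {K : Type*} [Field K] (D : DV K →₀ ℤ) :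
    degH k K D = RRD.degZ k D := rfl

/-- the divisors of degree `0` -/
noncomputable def Dz (k : Type*) [Field k] [Finite k] (K : Type*) [Field K] :
    AddSubgroup (DV K →₀ ℤ) := (degH k K).ker

/-- the classes of degree `0` -/
abbrev Pic0 (k : Type*) [Field k] [Finite k] (K : Type*) [Field K] : Type _ :=
  Dz k K ⧸ (PrD K).addSubgroupOf (Dz k K)

theorem degH_single (k : Type*) [Field k] [Finite k] {K : Type*} [Field K] (v : DV K) (n : ℤ) :
    degH k K (Finsupp.single v n) = n * (v.deg (Nat.card k) : ℤ) := by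
  show (Finsupp.single v n).sum (fun P n => n * (P.deg (Nat.card k) : ℤ)) = _
  rw [Finsupp.sum_single_index (zero_mul _)]

theorem mem_Dz {k : Type*} [Field k] [Finite k] {K : Type*} [Field K] {D : DV K →₀ ℤ} :
    D ∈ Dz k K ↔ degH k K D = 0 := Iff.rfl

end Pool.Agent.FF
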