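import Pool.Agent.FO.Defs
import Pool.Agent.FY.PicD

/-! # The functions with even orders and the classes killed by two -/

set_option autoImplicit false

namespace Pool.Agent.FF

/-- the product of two non-squares of a finite field of odd characteristic -/
private theorem sq_of_nonsq {k : Type*} [Field k] [Finite k] (h2 : (2 : k) ≠ 0) {a b : k} (ha : ¬ IsSquare a)
    (hb : ¬ IsSquare b) : ∃ e : k, a = e ^ 2 * b := by
  classical
  have := Fintype.ofFinite k
  have hchar : ringChar k ≠ 2 := by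
    intro h
    apply h2
    have := ringChar.Nat.cast_ringChar (R := k)
    rw [h] at this
    exact_mod_cast this
  have ha0 : a ≠ 0 := fun h => ha ⟨0, by rw [h]; ring⟩
  have hb0 : b ≠ 0 := fun h => hb ⟨0, by rw [h]; ring⟩
  have h1 : quadraticChar k a = -1 := quadraticChar_neg_one_iff_not_isSquare.2 ha
  have h3 : quadraticChar k b = -1 := quadraticChar_neg_one_iff_not_isSquare.2 hb
  have h4 : quadraticChar k (a * b) = 1 := by rw [map_mul, h1, h3]; norm_num
  obtain ⟨e, he⟩ := (quadraticChar_one_iff_isSquare (mul_ne_zero ha0 hb0)).1 h4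
  refine ⟨e / b, ?_⟩
  field_simp
  rw [sq, ← he]

/-- `f ↦` the class of `div f / 2` has the kernel `k^* K^{*2}` -/
theorem se_of_tor {k K : Type} [Field k] [Finite k] [Field K] [Algebra k K] (h2 : (2 : k) ≠ 0)
    {g m : ℕ} (C : Cv k K g) (hfin : Finite (Pic0 k K))
    (hT : Nat.card {c : Pic0 k K // 2 • c = 0} ≤ 2 ^ m) : Se K (m + 1) := by
  classical
  intro a ha
  -- half of the divisor
  have hhalf : ∀ i, ∃ H : DV K →₀ ℤ, ∀ v : DV K, v.ord (a i) = 2 * H v := by
    intro i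
    refine ⟨(RRD.divF k C (a i) (ha i).1).mapRange (fun n => n / 2) (by norm_num), fun v => ?_⟩
    rw [Finsupp.mapRange_apply, RRD.divF_apply]
    obtain ⟨r, hr⟩ := (ha i).2 v
    omega
  choose H hH using hhalf
  have hdeg : ∀ i, H i ∈ Dz k K := by
    intro i
    rw [mem_Dz]
    have h1 := RRD.degZ_divF C (ha i).1
    have h3 : RRD.divF k C (a i) (ha i).1 = H i + H i := by
      ext v
      rw [RRD.divF_apply, Finsupp.add_apply, hH]
      ring
    rw [h3, RRD.degZ_add] at h1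
    rw [degH_eq]
    omega
  have htor : ∀ i, 2 • (QuotientAddGroup.mk ⟨H i, hdeg i⟩ : Pic0 k K) = 0 := by
    intro i
    rw [← QuotientAddGroup.mk_nsmul, QuotientAddGroup.eq_zero_iff, AddSubgroup.mem_addSubgroupOf]
    refine ⟨a i, (ha i).1, fun v => ?_⟩
    rw [hH]
    simp [two_nsmul]
    ring
  have : Fintype {c : Pic0 k K // 2 • c = 0} := Fintype.ofFinite _
  obtain ⟨c, -, hc⟩ := Finset.exists_lt_card_fiber_of_mul_lt_card_of_maps_to (n := 2)
    (s := (Finset.univ : Finset (Fin (2 ^ (m + 1) + 1))))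
    (t := (Finset.univ : Finset {c : Pic0 k K // 2 • c = 0}))
    (f := fun i => ⟨(QuotientAddGroup.mk ⟨H i, hdeg i⟩ : Pic0 k K), htor i⟩)
    (fun i _ => Finset.mem_univ _) (by
      rw [Finset.card_univ, Finset.card_univ, Fintype.card_fin, ← Nat.card_eq_fintype_card, pow_succ]
      omega)
  rw [Finset.two_lt_card] at hc
  obtain ⟨i, hi, j, hj, l, hl, hij, hil, hjl⟩ := hc
  simp only [Finset.mem_filter, Finset.mem_univ, true_and] at hi hj hl
  have hcmp : ∀ i j, (QuotientAddGroup.mk ⟨H i, hdeg i⟩ : Pic0 k K) = QuotientAddGroup.mk ⟨H j, hdeg j⟩ →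
      ∃ (c : k) (y : K), c ≠ 0 ∧ y ≠ 0 ∧ a j = algebraMap k K c * a i * y ^ 2 := by
    intro i j h
    rw [QuotientAddGroup.eq, AddSubgroup.mem_addSubgroupOf] at h
    obtain ⟨y, hy, hv⟩ := h
    have hz : a i * y ^ 2 ≠ 0 := mul_ne_zero (ha i).1 (pow_ne_zero 2 hy)
    have hw : a j / (a i * y ^ 2) ≠ 0 := div_ne_zero (ha j).1 hz
    have hord : ∀ v : DV K, v.ord (a j / (a i * y ^ 2)) = 0 := by
      intro v
      have h1 := v.ord_mul _ _ hw hz
      rw [div_mul_cancel₀ _ hz, v.ord_mul _ _ (ha i).1 (pow_ne_zero 2 hy), v.ord_pow hy, hH, hH, ← hv v] at h1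
      simp only [AddSubgroup.coe_add, AddSubgroup.coe_neg, Finsupp.add_apply, Finsupp.neg_apply] at h1
      push_cast at h1
      omega
    obtain ⟨c, hc⟩ := C.const _ fun v => DV.G_of_le (hord v).ge
    refine ⟨c, y, ?_, hy, ?_⟩
    · rintro rfl
      rw [map_zero] at hc
      exact hw hc
    · rw [← hc, mul_assoc, div_mul_cancel₀ _ hz]
  have h3 : (QuotientAddGroup.mk ⟨H i, hdeg i⟩ : Pic0 k K) = QuotientAddGroup.mk ⟨H j, hdeg j⟩ :=
    congrArg Subtype.val (hi.trans hj.symm)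
  have h4 : (QuotientAddGroup.mk ⟨H i, hdeg i⟩ : Pic0 k K) = QuotientAddGroup.mk ⟨H l, hdeg l⟩ :=
    congrArg Subtype.val (hi.trans hl.symm)
  obtain ⟨c, y, hc0, hy, hcy⟩ := hcmp i j h3
  obtain ⟨d, z, hd0, hz, hdz⟩ := hcmp i l h4
  by_cases hcs : IsSquare c
  · obtain ⟨e, he⟩ := hcs
    refine ⟨j, i, hij.symm, algebraMap k K e * y, mul_ne_zero ?_ hy, ?_⟩
    · rw [Ne, map_eq_zero]
      rintro rfl
      exact hc0 (by rw [he, mul_zero])
    · rw [hcy, he, map_mul]
      ring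
  by_cases hds : IsSquare d
  · obtain ⟨e, he⟩ := hds
    refine ⟨l, i, hil.symm, algebraMap k K e * z, mul_ne_zero ?_ hz, ?_⟩
    · rw [Ne, map_eq_zero]
      rintro rfl
      exact hd0 (by rw [he, mul_zero])
    · rw [hdz, he, map_mul]
      ring
  obtain ⟨e, he⟩ := sq_of_nonsq h2 hcs hds
  have he0 : e ≠ 0 := by
    rintro rfl
    exact hc0 (by rw [he]; ring)
  refine ⟨j, l, hjl, algebraMap k K e * y / z, div_ne_zero (mul_ne_zero ?_ hy) hz, ?_⟩
  · rwa [Ne, map_eq_zero]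
  · rw [hcy, hdz, he, map_mul, map_pow]
    field_simp

end Pool.Agent.FF
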