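import Pool.Agent.FY.Nrm
import Pool.Agent.FY.Adic
import Pool.Agent.FY.SeT
import Pool.Agent.FY.PolyRel

/-! # B6, B8: **Theorem R**, the rank of the unramified classes -/

set_option autoImplicit false

namespace Pool.Agent.FF

/-- one step -/
theorem lstep {k K : Type} [Field k] [Finite k] [Field K] [Algebra k K] (h2 : (2 : k) ≠ 0) {g : ℕ}
    (C : Cv k K g) {R : DV K} (hR : R.Rat k) {s : ℕ} (hs : T2 k K s) {L : Polynomial ℤ}
    (hL : IsL k K g L) : ∃ (k' K' : Type) (_ : Field k') (_ : Finite k') (_ : Field K')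
      (_ : Algebra k' K') (R' : DV K') (L' : Polynomial ℤ), (2 : k') ≠ 0 ∧ Cv k' K' g ∧
        R'.Rat k' ∧ T2 k' K' s ∧ IsL k' K' g L' ∧
        L'.comp (Polynomial.X ^ 2) = L * L.comp (-Polynomial.X) ∧
        (2 : ℤ) ^ s ∣ L.eval (-1) ∧ L.eval (-1) ≠ 0 := by
  have h2K : (2 : K) ≠ 0 := by
    have h3 := (map_ne_zero (algebraMap k K)).2 h2
    rwa [map_ofNat] at h3
  obtain ⟨k', K', _, _, _, _, _, ⟨S⟩, C'⟩ := exists_cst C h2K
  obtain ⟨R', -, hR'⟩ := S.rat C' hR
  have h2k' : (2 : k') ≠ 0 := by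
    intro h
    have h3 : (2 : K') ≠ 0 := by
      have h4 := (map_ne_zero (algebraMap K K')).2 h2K
      rwa [map_ofNat] at h4
    apply h3
    have h5 := congrArg (algebraMap k' K') h
    rwa [map_ofNat, map_zero] at h5
  obtain ⟨m, hm, hd⟩ := S.nrm C C' hR
  obtain ⟨L', hL'⟩ := exists_L C' hR'
  have hT : T2 k' K' s := hs.trans (S.card_tors_dvd C')
  have hcomb : ∀ n, Aw (dgP k' K') (fun _ => 1) n =
      ∑ x ∈ Finset.HasAntidiagonal.antidiagonal (2 * n), (-1) ^ x.2 *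
        Aw (dgP k K) (fun _ => 1) x.1 * Aw (dgP k K) (fun _ => 1) x.2 := by
    intro n
    rw [comb (dgP k K) (dgP k' K') S.π (fun v => (C.res v).1) (finite_dgP C hR)
      (fun v hv => S.odd v hv) (fun v hv => by
        obtain ⟨w₁, w₂, h1, h3, h4, h5, -⟩ := S.even v hv
        exact ⟨w₁, w₂, h1, h3, h4, h5⟩) (fun _ => 1) (fun _ => 1)
      (fun _ _ => by norm_num) (fun _ _ => rfl) n]
    exact Finset.sum_congr rfl fun x _ => by ring
  have hrel : Polynomial.expand ℤ 2 L' = L * L.comp (-Polynomial.X) := by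
    refine Pool.Agent.FY.poly_rel (Nat.card k : ℤ) _ _ L L' hL.ser ?_ hcomb
    rw [hL'.ser, S.card]
    push_cast
    rfl
  rw [Polynomial.expand_eq_comp_X_pow] at hrel
  have hfin := finite_Pic0 C hR
  have hfin' := finite_Pic0 C' hR'
  have hP : Nat.card (Pic0 k K) ≠ 0 := Nat.card_pos.ne'
  have hP' : Nat.card (Pic0 k' K') ≠ 0 := Nat.card_pos.ne'
  have hev : L.eval (-1) = m := by
    have h3 := congrArg (Polynomial.eval 1) hrel
    rw [Polynomial.eval_comp, Polynomial.eval_mul, Polynomial.eval_comp, Polynomial.eval_pow,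
      Polynomial.eval_neg, Polynomial.eval_X, one_pow, hL'.one, hL.one, hm] at h3
    push_cast at h3
    have h4 : (Nat.card (Pic0 k K) : ℤ) ≠ 0 := by exact_mod_cast hP
    exact (mul_left_cancel₀ h4 h3).symm
  refine ⟨k', K', _, ‹_›, _, _, R', L', h2k', C', hR', hT, hL', hrel, ?_, ?_⟩
  · rw [hev]
    exact_mod_cast hs.trans hd
  · rw [hev]
    intro h3
    have h4 : m = 0 := by exact_mod_cast h3
    exact hP' (by rw [hm, h4, mul_zero])

/-- the state of the iteration -/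
private structure LSt (g s : ℕ) where
  k : Type
  K : Type
  fk : Field k
  fin : Finite k
  fK : Field K
  alg : Algebra k K
  R : DV K
  L : Polynomial ℤ
  two : (2 : k) ≠ 0
  C : Cv k K g
  rat : R.Rat k
  tor : T2 k K s
  isL : IsL k K g L

private theorem LSt.next {g s : ℕ} (x : LSt g s) : ∃ y : LSt g s,
    y.L.comp (Polynomial.X ^ 2) = x.L * x.L.comp (-Polynomial.X) ∧ (2 : ℤ) ^ s ∣ x.L.eval (-1) := by
  obtain ⟨k, K, fk, fin, fK, alg, R, L, two, C, rat, tor, isL⟩ := x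
  obtain ⟨k', K', fk', fin', fK', alg', R', L', h1, h2, h3, h4, h5, h6, h7, -⟩ :=
    lstep two C rat tor isL
  exact ⟨⟨k', K', fk', fin', fK', alg', R', L', h1, h2, h3, h4, h5⟩, h6, h7⟩

/-- the number of classes killed by `2` is at most `2 ^ (2 g)` -/
theorem t2_le {k K : Type} [Field k] [Finite k] [Field K] [Algebra k K] (h2 : (2 : k) ≠ 0) {g : ℕ}
    (C : Cv k K g) {R : DV K} (hR : R.Rat k) {s : ℕ} (hs : T2 k K s) : s ≤ 2 * g := by
  obtain ⟨L, hL⟩ := exists_L C hR
  choose nx h1 h3 using fun x : LSt g s => x.next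
  let x0 : LSt g s := ⟨k, K, inferInstance, inferInstance, inferInstance, inferInstance, R, L, h2, C, hR, hs, hL⟩
  let f : ℕ → LSt g s := fun j => Nat.rec x0 (fun _ x => nx x) j
  exact adic (fun j => (f j).L) hL.deg hL.zero (fun j => h1 (f j)) fun j => h3 (f j)

/-- **Theorem R** -/
theorem se {k K : Type} [Field k] [Finite k] [Field K] [Algebra k K] (h2 : (2 : k) ≠ 0) {g : ℕ}
    (C : Cv k K g) {R : DV K} (hR : R.Rat k) : Se K (2 * g + 1) := by
  have hfin := finite_Pic0 C hR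
  have h3 : ∃ n, Nat.card (Multiplicative ((nsmulAddMonoidHom (α := Pic0 k K) 2).ker)) = 2 ^ n := by
    refine IsPGroup.exists_card_eq fun x => ⟨1, ?_⟩
    obtain ⟨x, hx⟩ := x
    apply Multiplicative.toAdd.injective
    apply Subtype.ext
    have hx' : 2 • x = 0 := hx
    exact hx'
  obtain ⟨n, hn⟩ := h3
  have h4 : Nat.card {x : Pic0 k K // 2 • x = 0} = 2 ^ n := hn
  have h5 : n ≤ 2 * g := t2_le h2 C hR (s := n) (by rw [T2, h4])
  refine se_of_tor h2 C hfin ?_
  rw [h4]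
  exact Nat.pow_le_pow_right (by norm_num) h5

theorem seAll {k : Type} [Field k] [Finite k] (h2 : (2 : k) ≠ 0) : SeAll k :=
  fun _ _ _ _ C h => se h2 C h.choose_spec

end Pool.Agent.FF
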