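import Mathlib
import Pool.Agent.FS.AddSub

/-! # The `x`-coordinate of `n • P`: coprime polynomials of degree `n ^ 2`

`MP_e9b03e_nt`, theorem T2, step A5. -/

set_option autoImplicit false

namespace Pool.Agent.FY

open Polynomial WeierstrassCurve

section alg

variable {R : Type*} [CommRing R]

/-- The product of two linear forms, as a vector of coefficients. -/
def sy (p q : Fin 2 → R) : Fin 3 → R :=
  ![p 0 * q 0, p 0 * q 1 + p 1 * q 0, p 1 * q 1]

theorem sy_zero [IsDomain R] {p q : Fin 2 → R} (hp : p ≠ 0) (h : sy p q = 0) : q = 0 := by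
  have h0 : p 0 * q 0 = 0 := congrFun h 0
  have h1 : p 0 * q 1 + p 1 * q 0 = 0 := congrFun h 1
  have h2 : p 1 * q 1 = 0 := congrFun h 2
  by_cases hp0 : p 0 = 0
  · have hp1 : p 1 ≠ 0 := fun hp1 => hp (by ext i; fin_cases i <;> simpa)
    rw [hp0, zero_mul, zero_add] at h1
    ext i
    fin_cases i
    · exact (mul_eq_zero.1 h1).resolve_left hp1
    · exact (mul_eq_zero.1 h2).resolve_left hp1
  · have hq0 := (mul_eq_zero.1 h0).resolve_left hp0
    rw [hq0, mul_zero, add_zero] at h1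
    ext i
    fin_cases i
    · exact hq0
    · exact (mul_eq_zero.1 h1).resolve_left hp0

/-- If a quadratic form has a primitive zero, it is a product of two linear forms. -/
theorem exists_sy {p : Fin 2 → R} {V : Fin 3 → R} (hp : IsCoprime (p 0) (p 1))
    (hV : V 2 * p 0 ^ 2 - V 1 * (p 0 * p 1) + V 0 * p 1 ^ 2 = 0) :
    ∃ q : Fin 2 → R, V = sy p q := by
  obtain ⟨u, v, huv⟩ := hp
  refine ⟨![u ^ 2 * p 0 * V 0 + 2 * u * v * p 1 * V 0 + v ^ 2 * (p 1 * V 1 - p 0 * V 2),
    u ^ 2 * (p 0 * V 1 - p 1 * V 0) + 2 * u * v * p 0 * V 2 + v ^ 2 * p 1 * V 2], ?_⟩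
  have h1 : (u * p 0 + v * p 1) ^ 2 = 1 := by rw [huv, one_pow]
  ext i
  fin_cases i
  · simp only [sy, Fin.zero_eta, Fin.isValue, Matrix.cons_val_zero]
    linear_combination (-V 0) * h1 + v ^ 2 * hV
  · simp only [sy, Fin.mk_one, Fin.isValue, Matrix.cons_val_one, Matrix.cons_val_zero]
    linear_combination (-V 1) * h1 - 2 * u * v * hV
  · simp only [sy, Fin.reduceFinMk, Fin.isValue, Matrix.cons_val, Matrix.cons_val_one,
      Matrix.cons_val_zero]
    linear_combination (-V 2) * h1 + u ^ 2 * hV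

end alg

variable {K : Type*} [Field K]

/-- The vector of polynomials has exact degree `D`. -/
def HasDeg {k : ℕ} (v : Fin k → K[X]) (D : ℕ) : Prop :=
  (∀ i, (v i).natDegree ≤ D) ∧ (fun i => (v i).coeff D) ≠ 0

theorem HasDeg.eq {k : ℕ} {v : Fin k → K[X]} {D E : ℕ} (h : HasDeg v D) (h' : HasDeg v E) :
    D = E := by
  rcases lt_trichotomy D E with hl | hl | hl
  · exact absurd (funext fun i => coeff_eq_zero_of_natDegree_lt ((h.1 i).trans_lt hl)) h'.2
  · exact hl
  · exact absurd (funext fun i => coeff_eq_zero_of_natDegree_lt ((h'.1 i).trans_lt hl)) h.2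

theorem hasDeg_exists {k : ℕ} {v : Fin k → K[X]} (h : v ≠ 0) : ∃ D, HasDeg v D := by
  classical
  obtain ⟨i0, hi0⟩ := Function.ne_iff.1 h
  obtain ⟨i, -, hi⟩ := Finset.exists_max_image (Finset.univ.filter fun i => v i ≠ 0)
    (fun i => (v i).natDegree) ⟨i0, by simpa using hi0⟩
  by_cases hvi : v i = 0
  · refine ⟨(v i0).natDegree, fun j => ?_, ?_⟩
    · by_cases hj : v j = 0
      · simp [hj]
      · have := hi j (by simpa using hj)
        rw [hvi] at this
        simp only [natDegree_zero, nonpos_iff_eq_zero] at this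
        omega
    · intro hh
      have := congrFun hh i0
      simp only [Pi.zero_apply] at this
      exact hi0 (leadingCoeff_eq_zero.1 this)
  · refine ⟨(v i).natDegree, fun j => ?_, ?_⟩
    · by_cases hj : v j = 0
      · simp [hj]
      · exact hi j (by simpa using hj)
    · intro hh
      have := congrFun hh i
      simp only [Pi.zero_apply] at this
      exact hvi (leadingCoeff_eq_zero.1 this)

theorem HasDeg.sy {p q : Fin 2 → K[X]} {D E : ℕ} (hp : HasDeg p D) (hq : HasDeg q E) :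
    HasDeg (sy p q) (D + E) := by
  have hm : ∀ i j, (p i * q j).natDegree ≤ D + E := fun i j =>
    natDegree_mul_le.trans (add_le_add (hp.1 i) (hq.1 j))
  have hc : ∀ i j, (p i * q j).coeff (D + E) = (p i).coeff D * (q j).coeff E := fun i j =>
    coeff_mul_add_eq_of_natDegree_le (hp.1 i) (hq.1 j)
  refine ⟨fun i => ?_, fun h => hq.2 (sy_zero hp.2 ?_)⟩
  · fin_cases i
    · exact hm 0 0
    · exact (natDegree_add_le _ _).trans (max_le (hm 0 1) (hm 1 0))
    · exact hm 1 1
  · rw [← h]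
    ext i
    fin_cases i
    · exact (hc 0 0).symm
    · exact ((coeff_add _ _ _).trans (congrArg₂ (· + ·) (hc 0 1) (hc 1 0))).symm
    · exact (hc 1 1).symm

/-- The values of `addSubMap`. -/
noncomputable def av {S : Type*} [CommRing S] [Algebra K S] (W : WeierstrassCurve K)
    (x : Fin 3 → S) : Fin 3 → S :=
  fun i => MvPolynomial.aeval x (addSubMap W i)

theorem av_zero {S : Type*} [CommRing S] [Algebra K S] (W : WeierstrassCurve K)
    (x : Fin 3 → S) : av W x 0 = x 0 ^ 2 - algebraMap K S W.b₄ * x 0 * x 2 -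
      algebraMap K S W.b₆ * x 1 * x 2 - algebraMap K S W.b₈ * x 2 ^ 2 := by
  simp [av, addSubMap]

theorem av_one {S : Type*} [CommRing S] [Algebra K S] (W : WeierstrassCurve K)
    (x : Fin 3 → S) : av W x 1 = algebraMap K S 2 * x 1 * x 0 + algebraMap K S W.b₂ * x 0 * x 2 +
      algebraMap K S W.b₄ * x 1 * x 2 + algebraMap K S W.b₆ * x 2 ^ 2 := by
  simp [av, addSubMap]

theorem av_two {S : Type*} [CommRing S] [Algebra K S] (W : WeierstrassCurve K)
    (x : Fin 3 → S) : av W x 2 = x 1 ^ 2 - algebraMap K S 4 * x 0 * x 2 := by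
  simp [av, addSubMap]

theorem av_eval (W : WeierstrassCurve K) (x : Fin 3 → K[X]) (t : K) (i : Fin 3) :
    (av W x i).eval t = av W (fun j => (x j).eval t) i := by
  fin_cases i
  · simp [av, addSubMap]
  · simp [av, addSubMap]
  · simp [av, addSubMap]

theorem av_ne_zero (W : WeierstrassCurve K) [W.IsElliptic] {x : Fin 3 → K} (hx : x ≠ 0) :
    av W x ≠ 0 := by
  have := addSubMap_ne_zero W hx
  intro h
  refine this (funext fun i => ?_)
  have := congrFun h i
  simpa [av, MvPolynomial.aeval_eq_eval] using this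

theorem HasDeg.av {W : WeierstrassCurve K} [W.IsElliptic] {x : Fin 3 → K[X]} {D : ℕ}
    (hx : HasDeg x D) : HasDeg (av W x) (D + D) := by
  have hm : ∀ (b : K) (i j : Fin 3), (C b * (x i * x j)).natDegree ≤ D + D := fun b i j =>
    (natDegree_C_mul_le _ _).trans (natDegree_mul_le.trans (add_le_add (hx.1 i) (hx.1 j)))
  have hc : ∀ (b : K) (i j : Fin 3), (C b * (x i * x j)).coeff (D + D) =
      b * ((x i).coeff D * (x j).coeff D) := fun b i j => by
    rw [coeff_C_mul, coeff_mul_add_eq_of_natDegree_le (hx.1 i) (hx.1 j)]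
  have h0 : Pool.Agent.FY.av W x 0 = C 1 * (x 0 * x 0) + C (-W.b₄) * (x 0 * x 2) +
      C (-W.b₆) * (x 1 * x 2) + C (-W.b₈) * (x 2 * x 2) := by
    rw [av_zero]
    simp only [algebraMap_eq, C_neg, C_1]
    ring
  have h1 : Pool.Agent.FY.av W x 1 = C 2 * (x 1 * x 0) + C W.b₂ * (x 0 * x 2) +
      C W.b₄ * (x 1 * x 2) + C W.b₆ * (x 2 * x 2) := by
    rw [av_one]
    simp only [algebraMap_eq]
    ring
  have h2 : Pool.Agent.FY.av W x 2 = C 1 * (x 1 * x 1) + C (-4) * (x 0 * x 2) := by
    rw [av_two]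
    simp only [algebraMap_eq, C_neg, C_1]
    ring
  have hadd : ∀ {f g : K[X]}, f.natDegree ≤ D + D → g.natDegree ≤ D + D →
      (f + g).natDegree ≤ D + D := fun hf hg => (natDegree_add_le _ _).trans (max_le hf hg)
  refine ⟨fun i => ?_, fun h => av_ne_zero W hx.2 ?_⟩
  · fin_cases i
    · change (Pool.Agent.FY.av W x 0).natDegree ≤ _
      rw [h0]
      exact hadd (hadd (hadd (hm _ _ _) (hm _ _ _)) (hm _ _ _)) (hm _ _ _)
    · change (Pool.Agent.FY.av W x 1).natDegree ≤ _
      rw [h1]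
      exact hadd (hadd (hadd (hm _ _ _) (hm _ _ _)) (hm _ _ _)) (hm _ _ _)
    · change (Pool.Agent.FY.av W x 2).natDegree ≤ _
      rw [h2]
      exact hadd (hm _ _ _) (hm _ _ _)
  · rw [← h]
    ext i
    fin_cases i
    · change Pool.Agent.FY.av W _ 0 = (Pool.Agent.FY.av W x 0).coeff (D + D)
      rw [h0, coeff_add, coeff_add, coeff_add, hc, hc, hc, hc, av_zero]
      simp only [Algebra.algebraMap_self, RingHom.id_apply]
      ring
    · change Pool.Agent.FY.av W _ 1 = (Pool.Agent.FY.av W x 1).coeff (D + D)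
      rw [h1, coeff_add, coeff_add, coeff_add, hc, hc, hc, hc, av_one]
      simp only [Algebra.algebraMap_self, RingHom.id_apply]
      ring
    · change Pool.Agent.FY.av W _ 2 = (Pool.Agent.FY.av W x 2).coeff (D + D)
      rw [h2, coeff_add, hc, hc, av_two]
      simp only [Algebra.algebraMap_self, RingHom.id_apply]
      ring

theorem exists_point [IsAlgClosed K] (W : Affine K) [W.IsElliptic] (x : K) :
    ∃ (y : K) (h : W.Nonsingular x y), Affine.Point.some x y h ≠ 0 := by
  set f : K[X] := X ^ 2 + C (W.a₁ * x + W.a₃) * X -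
    C (x ^ 3 + W.a₂ * x ^ 2 + W.a₄ * x + W.a₆) with hf
  have hd : f.degree = 2 := by
    rw [hf]
    compute_degree!
  obtain ⟨y, hy⟩ := IsAlgClosed.exists_root f (by rw [hd]; decide)
  have he : W.Equation x y := by
    rw [Affine.equation_iff]
    have : f.eval y = 0 := hy
    rw [hf] at this
    simp only [eval_sub, eval_add, eval_mul, eval_pow, eval_X, eval_C] at this
    linear_combination this
  exact ⟨y, Affine.equation_iff_nonsingular.1 he, Affine.Point.some_ne_zero _⟩

theorem sy_smul_left {R : Type*} [CommRing R] (c : R) (p q : Fin 2 → R) :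
    sy (c • p) q = c • sy p q := by
  ext i
  fin_cases i <;> simp [sy] <;> ring

theorem sy_smul_right {R : Type*} [CommRing R] (c : R) (p q : Fin 2 → R) :
    sy p (c • q) = c • sy p q := by
  ext i
  fin_cases i <;> simp [sy] <;> ring

theorem sy_sub_right {R : Type*} [CommRing R] (p q r : Fin 2 → R) :
    sy p (q - r) = sy p q - sy p r := by
  ext i
  fin_cases i <;> simp [sy] <;> ring

theorem sy_comm {R : Type*} [CommRing R] (p q : Fin 2 → R) : sy p q = sy q p := by
  ext i
  fin_cases i <;> simp [sy] <;> ring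

theorem sy_rel {R : Type*} [CommRing R] (p q : Fin 2 → R) :
    sy p q 2 * p 0 ^ 2 - sy p q 1 * (p 0 * p 1) + sy p q 0 * p 1 ^ 2 = 0 := by
  simp only [sy, Matrix.cons_val, Matrix.cons_val_one, Matrix.cons_val_zero]
  ring

theorem av_smul (W : WeierstrassCurve K) (c : K) (x : Fin 3 → K) :
    av W (c • x) = c ^ 2 • av W x := by
  ext i
  fin_cases i
  · change av W (c • x) 0 = c ^ 2 • av W x 0
    rw [av_zero, av_zero]
    simp only [Pi.smul_apply, smul_eq_mul]
    ring
  · change av W (c • x) 1 = c ^ 2 • av W x 1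
    rw [av_one, av_one]
    simp only [Pi.smul_apply, smul_eq_mul]
    ring
  · change av W (c • x) 2 = c ^ 2 • av W x 2
    rw [av_two, av_two]
    simp only [Pi.smul_apply, smul_eq_mul]
    ring

/-- The vector of the values at `t`. -/
def at' {k : ℕ} (v : Fin k → K[X]) (t : K) : Fin k → K := fun i => (v i).eval t

theorem at_sy (p q : Fin 2 → K[X]) (t : K) : at' (sy p q) t = sy (at' p t) (at' q t) := by
  ext i
  fin_cases i <;> simp [at', sy]

theorem isCoprime_at [IsAlgClosed K] {p : Fin 2 → K[X]} (h : ∀ t, at' p t ≠ 0) :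
    IsCoprime (p 0) (p 1) := by
  rw [isCoprime_iff_aeval_ne_zero_of_isAlgClosed (k := K) K]
  intro t
  by_contra! hh
  refine h t (funext fun i => ?_)
  fin_cases i
  · simpa [at'] using hh.1
  · simpa [at'] using hh.2

variable [DecidableEq K]

/-- Step of the induction. -/
theorem step [IsAlgClosed K] (W : Affine K) [W.IsElliptic]
    (hadd : ∀ P Q : W.Point, ∃ c : K, c ≠ 0 ∧
      ∀ i, MvPolynomial.eval (P.sym2x Q) (addSubMap W i) = c * (P + Q).sym2x (P - Q) i)
    {n : ℕ} {p q : Fin 2 → K[X]} (hp : HasDeg p (n ^ 2)) (hq : HasDeg q ((n + 1) ^ 2))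
    (hp' : ∀ (x y : K) (h : W.Nonsingular x y), ∃ c : K, c ≠ 0 ∧
      at' p x = c • (n • Affine.Point.some x y h).xRep)
    (hq' : ∀ (x y : K) (h : W.Nonsingular x y), ∃ c : K, c ≠ 0 ∧
      at' q x = c • ((n + 1) • Affine.Point.some x y h).xRep) :
    ∃ r : Fin 2 → K[X], HasDeg r ((n + 2) ^ 2) ∧
      ∀ (x y : K) (h : W.Nonsingular x y), ∃ c : K, c ≠ 0 ∧
        at' r x = c • ((n + 2) • Affine.Point.some x y h).xRep := by
  set e : Fin 2 → K[X] := ![X, 1] with he
  have hed : HasDeg e 1 := by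
    refine ⟨fun i => ?_, fun h => ?_⟩
    · fin_cases i <;> simp [he]
    · have := congrFun h 0
      simp [he] at this
  have hee : ∀ (x y : K) (h : W.Nonsingular x y),
      at' e x = (Affine.Point.some x y h).xRep := by
    intro x y h
    ext i
    fin_cases i <;> simp [at', he]
  set V : Fin 3 → K[X] := av W (sy q e) with hV
  have hVd : HasDeg V ((n + 1) ^ 2 + 1 + ((n + 1) ^ 2 + 1)) := (hq.sy hed).av
  have hVt : ∀ (x y : K) (h : W.Nonsingular x y), ∃ c : K, c ≠ 0 ∧
      at' V x = c • sy (n • Affine.Point.some x y h).xRep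
        ((n + 2) • Affine.Point.some x y h).xRep := by
    intro x y h
    obtain ⟨c, hc, hc'⟩ := hq' x y h
    obtain ⟨d, hd, hd'⟩ := hadd ((n + 1) • Affine.Point.some x y h) (Affine.Point.some x y h)
    refine ⟨c ^ 2 * d, mul_ne_zero (pow_ne_zero _ hc) hd, ?_⟩
    have h1 : at' V x = av W (at' (sy q e) x) := funext fun i => av_eval W _ x i
    rw [h1, at_sy, hc', hee x y h, sy_smul_left, av_smul, mul_smul]
    congr 1
    have hs : ∀ P Q : W.Point, P.sym2x Q = sy P.xRep Q.xRep := fun _ _ => rfl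
    have h2 : (n + 1) • Affine.Point.some x y h + Affine.Point.some x y h =
        (n + 2) • Affine.Point.some x y h := (succ_nsmul _ _).symm
    have h3 : (n + 1) • Affine.Point.some x y h - Affine.Point.some x y h =
        n • Affine.Point.some x y h := by
      rw [succ_nsmul, add_sub_cancel_right]
    ext i
    have := hd' i
    rw [h2, h3, hs, hs, sy_comm ((n + 2) • Affine.Point.some x y h).xRep] at this
    rw [Pi.smul_apply, smul_eq_mul, ← this, av, MvPolynomial.aeval_eq_eval]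
  have hcop : IsCoprime (p 0) (p 1) := isCoprime_at fun t => by
    obtain ⟨y, h, -⟩ := exists_point W t
    obtain ⟨c, hc, hc'⟩ := hp' t y h
    rw [hc']
    exact smul_ne_zero hc (Affine.Point.xRep_ne_zero _)
  obtain ⟨r, hr⟩ : ∃ r : Fin 2 → K[X], V = sy p r := by
    refine exists_sy hcop (Polynomial.funext fun t => ?_)
    obtain ⟨y, h, -⟩ := exists_point W t
    obtain ⟨c, hc, hc'⟩ := hp' t y h
    obtain ⟨d, hd, hd'⟩ := hVt t y h
    have hpt : ∀ i, (p i).eval t = c * (n • Affine.Point.some t y h).xRep i := fun i =>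
      congrFun hc' i
    have hVtt : ∀ i, (V i).eval t = d * sy (n • Affine.Point.some t y h).xRep
        ((n + 2) • Affine.Point.some t y h).xRep i := fun i => congrFun hd' i
    have h4 := sy_rel (n • Affine.Point.some t y h).xRep
      ((n + 2) • Affine.Point.some t y h).xRep
    simp only [eval_add, eval_sub, eval_mul, eval_pow, eval_zero, hpt, hVtt]
    linear_combination d * c ^ 2 * h4
  have hr0 : r ≠ 0 := by
    rintro rfl
    refine hVd.2 (funext fun i => ?_)
    rw [hr]
    fin_cases i <;> simp [sy]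
  obtain ⟨E, hE⟩ := hasDeg_exists hr0
  have hE2 : n ^ 2 + E = (n + 1) ^ 2 + 1 + ((n + 1) ^ 2 + 1) := by
    have := hp.sy hE
    rw [← hr] at this
    exact this.eq hVd
  have hE3 : E = (n + 2) ^ 2 := by
    have : n ^ 2 + E = n ^ 2 + (n + 2) ^ 2 := by rw [hE2]; ring
    omega
  refine ⟨r, hE3 ▸ hE, fun x y h => ?_⟩
  obtain ⟨c, hc, hc'⟩ := hp' x y h
  obtain ⟨d, hd, hd'⟩ := hVt x y h
  refine ⟨c⁻¹ * d, mul_ne_zero (inv_ne_zero hc) hd, ?_⟩
  rw [hr, at_sy, hc', sy_smul_left, ← sy_smul_right, ← sy_smul_right, ← sub_eq_zero,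
    ← sy_sub_right] at hd'
  have h5 := sub_eq_zero.1 (sy_zero (Affine.Point.xRep_ne_zero _) hd')
  rw [mul_smul, ← h5, smul_smul, inv_mul_cancel₀ hc, one_smul]

/-- The `x`-coordinate of `n • P` is the quotient of two coprime polynomials in the `x`-coordinate
of `P`, of maximal degree exactly `n ^ 2`. -/
theorem exists_smul [IsAlgClosed K] (W : Affine K) [W.IsElliptic]
    (hadd : ∀ P Q : W.Point, ∃ c : K, c ≠ 0 ∧
      ∀ i, MvPolynomial.eval (P.sym2x Q) (addSubMap W i) = c * (P + Q).sym2x (P - Q) i) (n : ℕ) :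
    ∃ A B : K[X], IsCoprime A B ∧ A.natDegree ≤ n ^ 2 ∧ B.natDegree ≤ n ^ 2 ∧
      (A.natDegree = n ^ 2 ∨ B.natDegree = n ^ 2) ∧
      ∀ (x y : K) (h : W.Nonsingular x y), ∃ c : K, c ≠ 0 ∧
        A.eval x = c * (n • Affine.Point.some x y h).xRep 0 ∧
        B.eval x = c * (n • Affine.Point.some x y h).xRep 1 := by
  have key : ∀ n : ℕ, (∃ p : Fin 2 → K[X], HasDeg p (n ^ 2) ∧
      ∀ (x y : K) (h : W.Nonsingular x y), ∃ c : K, c ≠ 0 ∧
        at' p x = c • (n • Affine.Point.some x y h).xRep) ∧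
      ∃ p : Fin 2 → K[X], HasDeg p ((n + 1) ^ 2) ∧
      ∀ (x y : K) (h : W.Nonsingular x y), ∃ c : K, c ≠ 0 ∧
        at' p x = c • ((n + 1) • Affine.Point.some x y h).xRep := by
    intro n
    induction n with
    | zero =>
      refine ⟨⟨![1, 0], ⟨fun i => ?_, fun h => ?_⟩, fun x y h => ⟨1, one_ne_zero, ?_⟩⟩,
        ⟨![X, 1], ⟨fun i => ?_, fun h => ?_⟩, fun x y h => ⟨1, one_ne_zero, ?_⟩⟩⟩
      · fin_cases i <;> simp
      · have := congrFun h 0
        simp at this
      · rw [zero_nsmul, Affine.Point.xRep_zero]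
        ext i
        fin_cases i <;> simp [at']
      · fin_cases i <;> simp
      · have := congrFun h 0
        simp at this
      · rw [zero_add, one_nsmul, Affine.Point.xRep_some]
        ext i
        fin_cases i <;> simp [at']
    | succ n ih =>
      obtain ⟨⟨p, hp, hp'⟩, ⟨q, hq, hq'⟩⟩ := ih
      exact ⟨⟨q, hq, hq'⟩, step W hadd hp hq hp' hq'⟩
  obtain ⟨⟨p, hp, hp'⟩, -⟩ := key n
  refine ⟨p 0, p 1, isCoprime_at fun t => ?_, hp.1 0, hp.1 1, ?_, fun x y h => ?_⟩
  · obtain ⟨y, h, -⟩ := exists_point W t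
    obtain ⟨c, hc, hc'⟩ := hp' t y h
    rw [hc']
    exact smul_ne_zero hc (Affine.Point.xRep_ne_zero _)
  · by_contra! hh
    refine hp.2 (funext fun i => ?_)
    fin_cases i
    · exact coeff_eq_zero_of_natDegree_lt (lt_of_le_of_ne (hp.1 0) hh.1)
    · exact coeff_eq_zero_of_natDegree_lt (lt_of_le_of_ne (hp.1 1) hh.2)
  · obtain ⟨c, hc, hc'⟩ := hp' x y h
    exact ⟨c, hc, congrFun hc' 0, congrFun hc' 1⟩

theorem exists_smul' [IsAlgClosed K] (W : Affine K) [W.IsElliptic] (n : ℕ) :
    ∃ A B : K[X], IsCoprime A B ∧ A.natDegree ≤ n ^ 2 ∧ B.natDegree ≤ n ^ 2 ∧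
      (A.natDegree = n ^ 2 ∨ B.natDegree = n ^ 2) ∧
      ∀ (x y : K) (h : W.Nonsingular x y), ∃ c : K, c ≠ 0 ∧
        A.eval x = c * (n • Affine.Point.some x y h).xRep 0 ∧
        B.eval x = c * (n • Affine.Point.some x y h).xRep 1 :=
  exists_smul W (fun P Q => by
    obtain ⟨c, hc, h⟩ := Pool.Agent.FS.addSub W P Q
    exact ⟨c, hc, fun i => congrFun h i⟩) n

end Pool.Agent.FY
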