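import Mathlib

set_option autoImplicit false

/-!
# A bound for the two-adic size of the values at `-1` of the iterated squarings of a polynomial
-/

namespace Pool.Agent.FY.AdicW

open Polynomial

noncomputable section

theorem norm_two : ‖(2 : PadicAlgCl 2)‖ = 1 / 2 := by
  have h := PadicAlgCl.valuation_p 2
  have h2 := PadicAlgCl.valuation_coe 2 ((2 : ℕ) : PadicAlgCl 2)
  rw [h] at h2
  simpa using h2.symm

theorem norm_int_le (n : ℤ) : ‖((n : ℤ) : PadicAlgCl 2)‖ ≤ 1 :=
  IsUltrametricDist.norm_intCast_le_one _ n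

theorem one_le_root (P : ℤ[X]) (h0 : P.coeff 0 = 1) (r : PadicAlgCl 2)
    (hr : (P.map (Int.castRingHom (PadicAlgCl 2))).IsRoot r) : 1 ≤ ‖r‖ := by
  by_contra hlt
  rw [not_le] at hlt
  rw [IsRoot.def, eval_map, ← Polynomial.divX_mul_X_add P, eval₂_add, eval₂_mul, eval₂_X,
    eval₂_C, h0, map_one] at hr
  have h1 : ‖P.divX.eval₂ (Int.castRingHom (PadicAlgCl 2)) r‖ ≤ 1 := by
    rw [eval₂_eq_sum_range]
    refine IsUltrametricDist.norm_sum_le_of_forall_le_of_nonneg zero_le_one ?_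
    intro i _
    rw [norm_mul, norm_pow]
    refine mul_le_one₀ ?_ (by positivity) (pow_le_one₀ (norm_nonneg _) hlt.le)
    exact norm_int_le _
  have h2 : P.divX.eval₂ (Int.castRingHom (PadicAlgCl 2)) r * r = -1 :=
    eq_neg_of_add_eq_zero_left hr
  have h3 : ‖P.divX.eval₂ (Int.castRingHom (PadicAlgCl 2)) r‖ * ‖r‖ = 1 := by
    rw [← norm_mul, h2, norm_neg, norm_one]
  have h4 : ‖P.divX.eval₂ (Int.castRingHom (PadicAlgCl 2)) r‖ * ‖r‖ ≤ ‖r‖ := by
    have := mul_le_mul_of_nonneg_right h1 (norm_nonneg r)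
    simpa using this
  linarith

/-- For an integral element `b`, `1 + b ^ (2 ^ j)` is not small for large `j`. -/
theorem exists_large (b : PadicAlgCl 2) (hb : ‖b‖ ≤ 1) :
    ∃ J : ℕ, ∀ j, J ≤ j → (1 / 2 : ℝ) ≤ ‖1 + b ^ (2 ^ j)‖ := by
  by_cases h : ∃ j0, ‖1 + b ^ (2 ^ j0)‖ < 1 / 2
  · obtain ⟨j0, hj0⟩ := h
    refine ⟨j0 + 1, ?_⟩
    have hle : ∀ j, ‖1 + b ^ (2 ^ j)‖ ≤ 1 := by
      intro j
      refine (IsUltrametricDist.norm_add_le_max _ _).trans (max_le (by simp) ?_)
      rw [norm_pow]; exact pow_le_one₀ (norm_nonneg _) hb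
    have hm : ∀ j, ‖b ^ (2 ^ (j + 1)) - 1‖ = ‖b ^ (2 ^ j) - 1‖ * ‖1 + b ^ (2 ^ j)‖ := by
      intro j
      rw [← norm_mul]; congr 1; ring
    have h0 : ‖b ^ (2 ^ j0) - 1‖ ≤ 1 / 2 := by
      have e : b ^ (2 ^ j0) - 1 = (1 + b ^ (2 ^ j0)) - 2 := by ring
      rw [e, sub_eq_add_neg]
      refine (IsUltrametricDist.norm_add_le_max _ _).trans (max_le hj0.le ?_)
      rw [norm_neg]; exact norm_two.le
    have h1 : ∀ j, j0 + 1 ≤ j → ‖b ^ (2 ^ j) - 1‖ < 1 / 2 := by
      intro j hj
      induction j, hj using Nat.le_induction with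
      | base =>
        rw [hm j0]
        calc ‖b ^ (2 ^ j0) - 1‖ * ‖1 + b ^ (2 ^ j0)‖ ≤ 1 / 2 * ‖1 + b ^ (2 ^ j0)‖ :=
              mul_le_mul_of_nonneg_right h0 (norm_nonneg _)
          _ < 1 / 2 * 1 := by
              refine mul_lt_mul_of_pos_left ?_ (by norm_num)
              linarith
          _ = 1 / 2 := by ring
      | succ j hj ih =>
        rw [hm j]
        exact (mul_le_of_le_one_right (norm_nonneg _) (hle j)).trans_lt ih
    intro j hj
    have h2 := h1 j hj
    have e : (2 : PadicAlgCl 2) = (1 + b ^ (2 ^ j)) - (b ^ (2 ^ j) - 1) := by ring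
    by_contra hlt
    rw [not_le] at hlt
    have h3 : ‖(2 : PadicAlgCl 2)‖ < 1 / 2 := by
      rw [e, sub_eq_add_neg]
      refine (IsUltrametricDist.norm_add_le_max _ _).trans_lt (max_lt hlt ?_)
      rw [norm_neg]; exact h2
    rw [norm_two] at h3
    exact lt_irrefl _ h3
  · exact ⟨0, fun j _ => not_lt.1 fun h' => h ⟨j, h'⟩⟩

/-- A polynomial with constant term `1` is the product of the `1 - r⁻¹ X` over its roots. -/
theorem eq_prod {E : Type*} [Field E] [IsAlgClosed E] (P : E[X]) (h0 : P.coeff 0 = 1) :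
    P = (P.roots.map fun r => 1 - C r⁻¹ * X).prod := by
  have hP : P ≠ 0 := by rintro rfl; simp at h0
  have h1 := (IsAlgClosed.splits P).eq_prod_roots
  have hr0 : ∀ r ∈ P.roots, r ≠ 0 := by
    intro r hr hr0
    rw [mem_roots hP, hr0, IsRoot.def, ← coeff_zero_eq_eval_zero, h0] at hr
    exact one_ne_zero hr
  have h2 : (P.roots.map fun a => X - C a) =
      P.roots.map fun a => C (-a) * (1 - C a⁻¹ * X) := by
    refine Multiset.map_congr rfl ?_
    intro r hr
    rw [mul_sub, ← mul_assoc, ← C_mul, neg_mul, mul_inv_cancel₀ (hr0 r hr)]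
    simp
    ring
  rw [h2, Multiset.prod_map_mul, ← mul_assoc] at h1
  have h3 : (P.roots.map fun a : E => (C (-a) : E[X])).prod = C (P.roots.map fun a => -a).prod := by
    rw [map_multiset_prod, Multiset.map_map]; rfl
  rw [h3, ← C_mul] at h1
  have h4 : P.leadingCoeff * (P.roots.map fun a => -a).prod = 1 := by
    have h5 := congrArg (eval 0) h1
    rw [← coeff_zero_eq_eval_zero, h0, eval_mul, eval_C, eval_multiset_prod, Multiset.map_map] at h5
    have h6 : (P.roots.map (eval (0 : E) ∘ fun r => 1 - C r⁻¹ * X)).prod = 1 := by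
      apply Multiset.prod_eq_one
      intro x hx
      rw [Multiset.mem_map] at hx
      obtain ⟨r, _, rfl⟩ := hx
      simp
    rw [h6, mul_one] at h5
    exact h5.symm
  rw [h4, C_1, one_mul] at h1
  exact h1

theorem main (g s : ℕ) (L : ℕ → ℤ[X]) (hd : (L 0).natDegree ≤ 2 * g)
    (h0 : (L 0).coeff 0 = 1)
    (hrec : ∀ j, expand ℤ 2 (L (j + 1)) = L j * (L j).comp (-X))
    (hs : ∀ j, (2 : ℤ) ^ s ∣ (L j).eval (-1)) : s ≤ 2 * g := by
  classical
  set f := Int.castRingHom (PadicAlgCl 2) with hf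
  set P := (L 0).map f with hP
  have hP0 : P.coeff 0 = 1 := by rw [hP, coeff_map, h0, map_one]
  have hPne : P ≠ 0 := by rintro h; rw [h] at hP0; simp at hP0
  set S : Multiset (PadicAlgCl 2) := P.roots.map fun r => r⁻¹ with hS
  have hSn : ∀ a ∈ S, ‖a‖ ≤ 1 := by
    intro a ha
    rw [hS, Multiset.mem_map] at ha
    obtain ⟨r, hr, rfl⟩ := ha
    rw [mem_roots hPne] at hr
    rw [norm_inv]
    exact inv_le_one_of_one_le₀ (one_le_root (L 0) h0 r hr)
  have hScard : S.card ≤ 2 * g := by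
    rw [hS, Multiset.card_map]
    exact (card_roots' P).trans ((natDegree_map_le).trans hd)
  clear_value S
  have hL : ∀ j, (L j).map f = (S.map fun a => 1 - C (a ^ (2 ^ j)) * X).prod := by
    intro j
    induction j with
    | zero =>
      rw [hS, Multiset.map_map]
      simp only [pow_zero, pow_one]
      exact eq_prod P hP0
    | succ j ih =>
      apply expand_injective (R := PadicAlgCl 2) (n := 2) (by norm_num)
      have h1 := congrArg (Polynomial.map f) (hrec j)
      rw [map_expand, Polynomial.map_mul, map_comp, Polynomial.map_neg, map_X, ih] at h1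
      rw [h1, map_multiset_prod, Multiset.map_map]
      have h2 : ((S.map fun a => (1 - C (a ^ (2 ^ j)) * X : (PadicAlgCl 2)[X])).prod).comp (-X) =
          (S.map fun a => (1 + C (a ^ (2 ^ j)) * X : (PadicAlgCl 2)[X])).prod := by
        rw [← coe_compRingHom_apply, map_multiset_prod, Multiset.map_map]
        congr 1
        refine Multiset.map_congr rfl ?_
        intro a _
        simp
      rw [h2, ← Multiset.prod_map_mul]
      congr 1
      refine Multiset.map_congr rfl ?_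
      intro a _
      have e : a ^ (2 ^ (j + 1)) = (a ^ (2 ^ j)) ^ 2 := by rw [pow_succ, pow_mul]
      simp only [Function.comp_apply]
      rw [e]
      generalize a ^ (2 ^ j) = c
      rw [map_sub, map_one, map_mul, expand_C, expand_X, C_pow]
      ring
  have hJ : ∀ T : Multiset (PadicAlgCl 2), (∀ a ∈ T, ‖a‖ ≤ 1) →
      ∃ J : ℕ, ∀ j, J ≤ j → (1 / 2 : ℝ) ^ T.card ≤ ‖(T.map fun a => 1 + a ^ (2 ^ j)).prod‖ := by
    intro T
    induction T using Multiset.induction_on with
    | empty => intro _; exact ⟨0, fun j _ => by simp⟩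
    | cons a T ih =>
      intro h
      obtain ⟨J1, hJ1⟩ := ih fun b hb => h b (Multiset.mem_cons_of_mem hb)
      obtain ⟨J2, hJ2⟩ := exists_large a (h a (Multiset.mem_cons_self _ _))
      refine ⟨max J1 J2, fun j hj => ?_⟩
      rw [Multiset.map_cons, Multiset.prod_cons, Multiset.card_cons, norm_mul, pow_succ, mul_comm]
      exact mul_le_mul (hJ2 j ((le_max_right _ _).trans hj)) (hJ1 j ((le_max_left _ _).trans hj))
        (by positivity) (norm_nonneg _)
  obtain ⟨J, hJ⟩ := hJ S hSn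
  have h1 := hJ J le_rfl
  have h2 : (((L J).eval (-1) : ℤ) : PadicAlgCl 2) = (S.map fun a => 1 + a ^ (2 ^ J)).prod := by
    have h3 := congrArg (eval (-1 : PadicAlgCl 2)) (hL J)
    rw [eval_multiset_prod, Multiset.map_map] at h3
    have h4 : eval (-1 : PadicAlgCl 2) ((L J).map f) = (((L J).eval (-1) : ℤ) : PadicAlgCl 2) := by
      have := eval_intCast_map f (L J) (-1)
      simpa using this
    rw [← h4, h3]
    congr 1
    refine Multiset.map_congr rfl ?_
    intro a _
    simp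
  rw [← h2] at h1
  obtain ⟨m, hm⟩ := hs J
  have h5 : ‖(((L J).eval (-1) : ℤ) : PadicAlgCl 2)‖ ≤ (1 / 2 : ℝ) ^ s := by
    rw [hm, Int.cast_mul, Int.cast_pow, norm_mul, norm_pow]
    have : ‖((2 : ℤ) : PadicAlgCl 2)‖ = 1 / 2 := by
      rw [← norm_two]; norm_num
    rw [this]
    exact mul_le_of_le_one_right (by positivity) (norm_int_le m)
  have h6 : (1 / 2 : ℝ) ^ (2 * g) ≤ (1 / 2 : ℝ) ^ s :=
    ((pow_le_pow_of_le_one (by norm_num) (by norm_num) hScard).trans h1).trans h5
  exact (pow_le_pow_iff_right_of_lt_one₀ (by norm_num) (by norm_num)).1 h6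

end

end Pool.Agent.FY.AdicW
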