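import Mathlib

/-! # Multisets of degree `n` and their weighted number: definitions -/

set_option autoImplicit false

namespace Pool.Agent.FF

/-- multisets of degree `n` -/
def Eff {I : Type*} (dg : I → ℕ) (n : ℕ) : Set (I →₀ ℕ) := {D | D.sum (fun i m => dg i * m) = n}

/-- their weighted number -/
noncomputable def Aw {I : Type*} (dg : I → ℕ) (w : I → ℤ) (n : ℕ) : ℤ :=
  ∑ᶠ D ∈ Eff dg n, D.prod (fun i m => w i ^ m)

/-- an effective divisor as a divisor -/
noncomputable def toZ {I : Type*} : (I →₀ ℕ) →+ (I →₀ ℤ) :=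
  Finsupp.mapRange.addMonoidHom (Nat.castAddMonoidHom ℤ)

theorem toZ_apply {I : Type*} (D : I →₀ ℕ) (i : I) : toZ D i = D i := rfl

theorem toZ_single {I : Type*} (i : I) (n : ℕ) :
    toZ (Finsupp.single i n) = Finsupp.single i (n : ℤ) := by
  classical
  ext j
  rw [toZ_apply, Finsupp.single_apply, Finsupp.single_apply]
  split_ifs
  · rfl
  · rfl

end Pool.Agent.FF
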