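import Pool.Agent.FY.CombA
import Pool.Agent.FY.EffD

set_option autoImplicit false

/-!
# B3: Euler products of a double covering of the index set
-/

namespace Pool.Agent.FF

open Finset Pool.Agent.FY.Comb

theorem mem_Eff_iff {I : Type*} {dg : I → ℕ} {m n : ℕ} (hmn : m ≤ n) (s : Finset I)
    (hs : ∀ i, i ∈ s ↔ dg i ≤ n) (D : I →₀ ℕ) :
    D ∈ Eff dg m ↔ D.support ⊆ s ∧ ∑ i ∈ s, D i * dg i = m := by
  classical
  have e0 : ∀ i, (fun (i : I) (m : ℕ) => dg i * m) i 0 = 0 := fun i => mul_zero _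
  have e1 : D.support ⊆ s → (D.sum fun i m => dg i * m) = ∑ i ∈ s, D i * dg i := by
    intro h
    rw [Finsupp.sum_of_support_subset D h (fun i m => dg i * m) fun i _ => e0 i]
    exact Finset.sum_congr rfl fun i _ => mul_comm _ _
  have key : D ∈ Eff dg m → D.support ⊆ s := by
    intro hD i hi
    rw [hs]
    have h1 : dg i * D i ≤ m := by
      have h2 : (D.sum fun i m => dg i * m) = m := hD
      rw [← h2, Finsupp.sum]
      exact Finset.single_le_sum (f := fun i => dg i * D i) (fun _ _ => Nat.zero_le _) hi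
    have h3 : 1 ≤ D i := Nat.one_le_iff_ne_zero.2 (Finsupp.mem_support_iff.1 hi)
    nlinarith
  constructor
  · intro hD
    refine ⟨key hD, ?_⟩
    have h2 : (D.sum fun i m => dg i * m) = m := hD
    rw [← h2, e1 (key hD)]
  · rintro ⟨h1, h2⟩
    show (D.sum fun i m => dg i * m) = m
    rw [← h2, e1 h1]

theorem le_fin {I : Type*} {dg : I → ℕ} (hfin : ∀ n, {i | dg i = n}.Finite) (n : ℕ) :
    {i | dg i ≤ n}.Finite := by
  have h1 : {i | dg i ≤ n} = ⋃ m ∈ Set.Iic n, {i | dg i = m} := by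
    ext i
    constructor
    · intro h
      exact Set.mem_biUnion (show dg i ∈ Set.Iic n from h) rfl
    · intro h
      obtain ⟨m, hm, h2⟩ := Set.mem_iUnion₂.1 h
      exact le_of_eq_of_le h2 hm
  rw [h1]
  exact (Set.finite_Iic n).biUnion fun m _ => hfin m

theorem finite_Eff_of {I : Type*} (dg : I → ℕ) (h1 : ∀ i, 1 ≤ dg i)
    (hfin : ∀ n, {i | dg i = n}.Finite) (n : ℕ) : (Eff dg n).Finite := by
  classical
  let s := (le_fin hfin n).toFinset
  have hs : ∀ i, i ∈ s ↔ dg i ≤ n := fun i => by simp [s]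
  have h2 : Eff dg n ⊆ ↑(Finset.finsupp s fun _ => Finset.range (n + 1)) := by
    intro D hD
    rw [Finset.mem_coe, Finset.mem_finsupp_iff]
    rw [mem_Eff_iff le_rfl s hs] at hD
    refine ⟨hD.1, fun i hi => ?_⟩
    rw [Finset.mem_range]
    have h2 : D i * dg i ≤ n := by
      rw [← hD.2]
      exact Finset.single_le_sum (f := fun i => D i * dg i) (fun _ _ => Nat.zero_le _) hi
    have h3 := h1 i
    nlinarith
  exact (Finset.finite_toSet _).subset h2

theorem Eff_finite {I : Type*} (dg : I → ℕ) (h1 : ∀ i, 1 ≤ dg i)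
    (hfin : ∀ n, {i | dg i = n}.Finite) (n : ℕ) : (Eff dg n).Finite :=
  finite_Eff_of dg h1 hfin n

theorem Aw_eq {I : Type*} {dg : I → ℕ} (h1 : ∀ i, 1 ≤ dg i)
    (hfin : ∀ n, {i | dg i = n}.Finite) (w : I → ℤ) {m n : ℕ} (hmn : m ≤ n) (s : Finset I)
    (hs : ∀ i, i ∈ s ↔ dg i ≤ n) :
    Aw dg w m = PowerSeries.coeff m (∏ i ∈ s, geo (w i) (dg i)) := by
  classical
  rw [coeff_prod_geo s dg (fun i _ => h1 i) w m (finite_Eff_of dg h1 hfin m).toFinset fun D => by
    rw [Set.Finite.mem_toFinset, mem_Eff_iff hmn s hs]]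
  rw [Aw, finsum_mem_eq_finite_toFinset_sum _ (finite_Eff_of dg h1 hfin m)]
  refine Finset.sum_congr rfl fun D hD => ?_
  rw [Set.Finite.mem_toFinset, mem_Eff_iff hmn s hs] at hD
  exact Finsupp.prod_of_support_subset D hD.1 _ fun i _ => pow_zero _

section

variable {I I' : Type*} (dg : I → ℕ) (dg' : I' → ℕ) (π : I' → I)
  (hodd : ∀ i, Odd (dg i) → ∃ j, (∀ j', π j' = i ↔ j' = j) ∧ dg' j = dg i)
  (heven : ∀ i, Even (dg i) → ∃ j₁ j₂, j₁ ≠ j₂ ∧ (∀ j', π j' = i ↔ j' = j₁ ∨ j' = j₂) ∧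
    2 * dg' j₁ = dg i ∧ 2 * dg' j₂ = dg i)

include hodd heven

theorem prod_cov [DecidableEq I] (w : I → ℤ) (w' : I' → ℤ)
    (ho : ∀ j, Odd (dg (π j)) → w' j = w (π j) ^ 2)
    (he : ∀ j, Even (dg (π j)) → w' j = w (π j)) (s : Finset I) (t : Finset I')
    (ht : ∀ j : I', j ∈ t ↔ π j ∈ s) :
    ∏ j ∈ t, geo (w' j) (2 * dg' j) =
      (∏ i ∈ s, geo (w i) (dg i)) * PowerSeries.evalNegHom (∏ i ∈ s, geo (w i) (dg i)) := by
  classical
  rw [map_prod, ← Finset.prod_mul_distrib]
  rw [← Finset.prod_fiberwise_of_maps_to (s := t) (t := s) (g := π) (fun j hj => (ht j).1 hj)]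
  refine Finset.prod_congr rfl fun i hi => ?_
  rcases Nat.even_or_odd (dg i) with hev | hod
  · obtain ⟨j₁, j₂, hne, hj, hd1, hd2⟩ := heven i hev
    have h1 : ({j ∈ t | π j = i} : Finset I') = {j₁, j₂} := by
      ext j
      rw [Finset.mem_filter, ht, Finset.mem_insert, Finset.mem_singleton, ← hj j]
      constructor
      · exact fun h => h.2
      · intro h
        exact ⟨by rw [h]; exact hi, h⟩
    have hp1 : π j₁ = i := (hj j₁).2 (Or.inl rfl)
    have hp2 : π j₂ = i := (hj j₂).2 (Or.inr rfl)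
    rw [h1, Finset.prod_pair hne, hd1, hd2, he j₁ (by rw [hp1]; exact hev),
      he j₂ (by rw [hp2]; exact hev), hp1, hp2, evalNeg_geo_even (w i) hev]
  · obtain ⟨j₁, hj, hd1⟩ := hodd i hod
    have h1 : ({j ∈ t | π j = i} : Finset I') = {j₁} := by
      ext j
      rw [Finset.mem_filter, ht, Finset.mem_singleton, ← hj j]
      constructor
      · exact fun h => h.2
      · intro h
        exact ⟨by rw [h]; exact hi, h⟩
    have hp1 : π j₁ = i := (hj j₁).2 rfl
    rw [h1, Finset.prod_singleton, hd1, ho j₁ (by rw [hp1]; exact hod), hp1]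
    exact (geo_mul_evalNeg_odd (w i) hod).symm

theorem fib_finite (s : Finset I) : {j : I' | π j ∈ s}.Finite := by
  classical
  have h1 : {j : I' | π j ∈ s} = π ⁻¹' (s : Set I) := by
    ext j
    simp
  rw [h1]
  refine Set.Finite.preimage' s.finite_toSet fun i _ => ?_
  rcases Nat.even_or_odd (dg i) with hev | hod
  · obtain ⟨j₁, j₂, -, hj, -, -⟩ := heven i hev
    refine (Set.toFinite ({j₁, j₂} : Set I')).subset fun j hji => ?_
    exact (hj j).1 hji
  · obtain ⟨j₁, hj, -⟩ := hodd i hod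
    refine (Set.toFinite ({j₁} : Set I')).subset fun j hji => ?_
    exact (hj j).1 hji

theorem dg'_bounds (j : I') : dg' j ≤ dg (π j) ∧ dg (π j) ≤ 2 * dg' j := by
  rcases Nat.even_or_odd (dg (π j)) with hev | hod
  · obtain ⟨j₁, j₂, -, hj, hd1, hd2⟩ := heven (π j) hev
    rcases (hj j).1 rfl with rfl | rfl <;> omega
  · obtain ⟨j₁, hj, hd⟩ := hodd (π j) hod
    obtain rfl := (hj j).1 rfl
    omega

/-- **The Euler product of the double covering**: `Z'(T ^ 2) = Z(T) Z(-T)`. -/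
theorem comb_aux (h1 : ∀ i, 1 ≤ dg i) (hfin : ∀ n, {i | dg i = n}.Finite)
    (w : I → ℤ) (w' : I' → ℤ) (ho : ∀ j, Odd (dg (π j)) → w' j = w (π j) ^ 2)
    (he : ∀ j, Even (dg (π j)) → w' j = w (π j)) (n : ℕ) :
    Aw dg' w' n = ∑ x ∈ Finset.HasAntidiagonal.antidiagonal (2 * n),
      (-1) ^ x.2 * (Aw dg w x.1 * Aw dg w x.2) := by
  classical
  have hb := dg'_bounds dg dg' π hodd heven
  have h1' : ∀ j, 1 ≤ dg' j := fun j => by
    have h2 := hb j
    have h3 := h1 (π j)
    omega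
  have hfin' : ∀ m, {j | dg' j = m}.Finite := by
    intro m
    refine (fib_finite dg dg' π hodd heven (le_fin hfin (2 * m)).toFinset).subset fun j hj => ?_
    show π j ∈ (le_fin hfin (2 * m)).toFinset
    rw [Set.Finite.mem_toFinset]
    have h2 := hb j
    have h3 : dg' j = m := hj
    show dg (π j) ≤ 2 * m
    omega
  let s : Finset I := (le_fin hfin (2 * n)).toFinset
  have hs : ∀ i, i ∈ s ↔ dg i ≤ 2 * n := fun i => by simp [s]
  let t : Finset I' := (fib_finite dg dg' π hodd heven s).toFinset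
  have ht : ∀ j, j ∈ t ↔ π j ∈ s := fun j => by simp [t]
  have hD : ∀ D : I' →₀ ℕ, D ∈ Eff dg' n ↔
      D.support ⊆ t ∧ ∑ j ∈ t, D j * (2 * dg' j) = 2 * n := by
    intro D
    have h2 : ∑ j ∈ t, D j * (2 * dg' j) = 2 * ∑ j ∈ t, D j * dg' j := by
      rw [Finset.mul_sum]
      exact Finset.sum_congr rfl fun j _ => by ring
    rw [h2]
    have e1 : D.support ⊆ t → (D.sum fun i m => dg' i * m) = ∑ i ∈ t, D i * dg' i := by
      intro h
      rw [Finsupp.sum_of_support_subset D h (fun i m => dg' i * m) fun i _ => mul_zero _]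
      exact Finset.sum_congr rfl fun i _ => mul_comm _ _
    have key : D ∈ Eff dg' n → D.support ⊆ t := by
      intro hD j hj
      have h3 : dg' j ≤ n := by
        have h4 : (D.sum fun j m => dg' j * m) = n := hD
        have h5 : dg' j * D j ≤ n := by
          rw [← h4, Finsupp.sum]
          exact Finset.single_le_sum (f := fun j => dg' j * D j) (fun _ _ => Nat.zero_le _) hj
        have h6 : 1 ≤ D j := Nat.one_le_iff_ne_zero.2 (Finsupp.mem_support_iff.1 hj)
        nlinarith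
      rw [ht, hs]
      have h7 := hb j
      omega
    constructor
    · intro hD
      refine ⟨key hD, ?_⟩
      have h4 : (D.sum fun j m => dg' j * m) = n := hD
      rw [← e1 (key hD), h4]
    · rintro ⟨h3, h4⟩
      show (D.sum fun j m => dg' j * m) = n
      rw [e1 h3]
      omega
  have h2 : Aw dg' w' n = PowerSeries.coeff (2 * n) (∏ j ∈ t, geo (w' j) (2 * dg' j)) := by
    rw [coeff_prod_geo t (fun j => 2 * dg' j) (fun j _ => by have := h1' j; omega)
      w' (2 * n) (finite_Eff_of dg' h1' hfin' n).toFinset fun D => by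
      rw [Set.Finite.mem_toFinset, hD]]
    rw [Aw, finsum_mem_eq_finite_toFinset_sum _ (finite_Eff_of dg' h1' hfin' n)]
    refine Finset.sum_congr rfl fun D hD' => ?_
    rw [Set.Finite.mem_toFinset, hD] at hD'
    exact Finsupp.prod_of_support_subset D hD'.1 _ fun i _ => pow_zero _
  rw [h2, prod_cov dg dg' π hodd heven w w' ho he s t ht, PowerSeries.coeff_mul]
  refine Finset.sum_congr rfl fun p hp => ?_
  have hp' : p.1 + p.2 = 2 * n := Finset.HasAntidiagonal.mem_antidiagonal.1 hp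
  rw [PowerSeries.evalNegHom, PowerSeries.coeff_rescale,
    Aw_eq h1 hfin w (show p.1 ≤ 2 * n by omega) s hs,
    Aw_eq h1 hfin w (show p.2 ≤ 2 * n by omega) s hs]
  ring

end

theorem comb {I I' : Type*} (dg : I → ℕ) (dg' : I' → ℕ) (π : I' → I) (h1 : ∀ i, 1 ≤ dg i)
    (hfin : ∀ n, {i | dg i = n}.Finite)
    (hodd : ∀ i, Odd (dg i) → ∃ j, (∀ j', π j' = i ↔ j' = j) ∧ dg' j = dg i)
    (heven : ∀ i, Even (dg i) → ∃ j₁ j₂, j₁ ≠ j₂ ∧ (∀ j', π j' = i ↔ j' = j₁ ∨ j' = j₂) ∧
      2 * dg' j₁ = dg i ∧ 2 * dg' j₂ = dg i)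
    (w : I → ℤ) (w' : I' → ℤ) (ho : ∀ j, Odd (dg (π j)) → w' j = w (π j) ^ 2)
    (he : ∀ j, Even (dg (π j)) → w' j = w (π j)) (n : ℕ) :
    Aw dg' w' n = ∑ x ∈ Finset.HasAntidiagonal.antidiagonal (2 * n),
      (-1) ^ x.2 * (Aw dg w x.1 * Aw dg w x.2) :=
  comb_aux dg dg' π hodd heven h1 hfin w w' ho he n

/-- In odd degree the alternating sum is `0`. -/
theorem comb_odd (A : ℕ → ℤ) (n : ℕ) :
    ∑ p ∈ Finset.HasAntidiagonal.antidiagonal (2 * n + 1), (-1) ^ p.2 * (A p.1 * A p.2) = 0 := by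
  have h1 : ∑ p ∈ Finset.HasAntidiagonal.antidiagonal (2 * n + 1),
        (-1) ^ p.2 * (A p.1 * A p.2) =
      ∑ p ∈ Finset.HasAntidiagonal.antidiagonal (2 * n + 1), (-1) ^ p.1 * (A p.2 * A p.1) := by
    refine Finset.sum_bij' (fun p _ => p.swap) (fun p _ => p.swap) ?_ ?_ ?_ ?_ ?_
    · intro p hp
      have h3 : p.1 + p.2 = 2 * n + 1 := Finset.HasAntidiagonal.mem_antidiagonal.1 hp
      refine Finset.HasAntidiagonal.mem_antidiagonal.2 ?_
      simp only [Prod.fst_swap, Prod.snd_swap]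
      omega
    · intro p hp
      have h3 : p.1 + p.2 = 2 * n + 1 := Finset.HasAntidiagonal.mem_antidiagonal.1 hp
      refine Finset.HasAntidiagonal.mem_antidiagonal.2 ?_
      simp only [Prod.fst_swap, Prod.snd_swap]
      omega
    · intro p _
      exact Prod.swap_swap p
    · intro p _
      exact Prod.swap_swap p
    · intro p _
      simp only [Prod.fst_swap, Prod.snd_swap]
  have h0 : ∑ p ∈ Finset.HasAntidiagonal.antidiagonal (2 * n + 1),
        (-1) ^ p.2 * (A p.1 * A p.2) +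
      ∑ p ∈ Finset.HasAntidiagonal.antidiagonal (2 * n + 1), (-1) ^ p.1 * (A p.2 * A p.1) =
      0 := by
    rw [← Finset.sum_add_distrib]
    refine Finset.sum_eq_zero fun p hp => ?_
    have h3 : p.1 + p.2 = 2 * n + 1 := Finset.HasAntidiagonal.mem_antidiagonal.1 hp
    have h6 : (-1 : ℤ) ^ p.1 + (-1) ^ p.2 = 0 := by
      rcases Nat.even_or_odd p.1 with h | h
      · have h' : Odd p.2 := by
          rw [← Nat.not_even_iff_odd]
          intro h7
          obtain ⟨a, ha⟩ := h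
          obtain ⟨b, hb⟩ := h7
          omega
        rw [h.neg_one_pow, h'.neg_one_pow]
        norm_num
      · have h' : Even p.2 := by
          rw [← Nat.not_odd_iff_even]
          intro h7
          obtain ⟨a, ha⟩ := h
          obtain ⟨b, hb⟩ := h7
          omega
        rw [h.neg_one_pow, h'.neg_one_pow]
        norm_num
    linear_combination (A p.1 * A p.2) * h6
  linarith

end Pool.Agent.FF
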