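import Mathlib

set_option autoImplicit false

/-!
# Finite Euler products of geometric series
-/

namespace Pool.Agent.FY.Comb

open Finset PowerSeries

variable {R : Type*} [CommRing R]

/-- the series `∑ w ^ k X ^ (k d)` -/
noncomputable def geo (w : R) (d : ℕ) : PowerSeries R :=
  PowerSeries.mk fun m => if d ∣ m then w ^ (m / d) else 0

theorem geo_mul (w : R) {d : ℕ} (hd : 0 < d) :
    geo w d * (1 - PowerSeries.C w * PowerSeries.X ^ d) = 1 := by
  ext n
  rw [mul_sub, mul_one, map_sub, mul_comm (PowerSeries.C w), ← mul_assoc,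
    PowerSeries.coeff_mul_C, PowerSeries.coeff_mul_X_pow', geo, PowerSeries.coeff_mk,
    PowerSeries.coeff_one]
  by_cases hn : d ≤ n
  · rw [if_pos hn, PowerSeries.coeff_mk]
    have h1 : n ≠ 0 := by omega
    rw [if_neg h1]
    by_cases hdn : d ∣ n
    · have h2 : d ∣ n - d := Nat.dvd_sub hdn (dvd_refl d)
      rw [if_pos hdn, if_pos h2]
      have h3 : n / d = (n - d) / d + 1 := by
        rw [Nat.div_eq_sub_div hd hn]
      rw [h3, pow_succ]
      ring
    · have h2 : ¬ d ∣ n - d := fun h => hdn (by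
        have := Nat.dvd_add h (dvd_refl d)
        rwa [Nat.sub_add_cancel hn] at this)
      rw [if_neg hdn, if_neg h2]
      ring
  · rw [if_neg hn]
    push Not at hn
    by_cases h0 : n = 0
    · subst h0
      simp
    · have h2 : ¬ d ∣ n := fun h => by
        have := Nat.le_of_dvd (Nat.pos_of_ne_zero h0) h
        omega
      rw [if_neg h2, if_neg h0]
      ring

/-- The coefficients of the finite product. -/
theorem coeff_prod_geo {ι : Type*} [DecidableEq ι] (s : Finset ι) (d : ι → ℕ)
    (hd : ∀ i ∈ s, 0 < d i) (w : ι → R) (n : ℕ) (S : Finset (ι →₀ ℕ))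
    (hS : ∀ D, D ∈ S ↔ D.support ⊆ s ∧ ∑ i ∈ s, D i * d i = n) :
    PowerSeries.coeff n (∏ i ∈ s, geo (w i) (d i)) = ∑ D ∈ S, ∏ i ∈ s, w i ^ D i := by
  classical
  rw [PowerSeries.coeff_prod]
  have h1 : ∀ l : ι →₀ ℕ, ∏ i ∈ s, PowerSeries.coeff (l i) (geo (w i) (d i)) =
      if ∀ i ∈ s, d i ∣ l i then ∏ i ∈ s, w i ^ (l i / d i) else 0 := by
    intro l
    simp only [geo, PowerSeries.coeff_mk]
    split_ifs with h
    · exact Finset.prod_congr rfl fun i hi => if_pos (h i hi)
    · push Not at h
      obtain ⟨i, hi, hni⟩ := h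
      exact Finset.prod_eq_zero hi (if_neg hni)
  simp only [h1]
  rw [← Finset.sum_filter]
  symm
  refine Finset.sum_bij' (fun D _ => Finsupp.onFinset s (fun i => if i ∈ s then D i * d i else 0)
      (fun i hi => by by_contra h; exact hi (if_neg h)))
    (fun l _ => Finsupp.onFinset s (fun i => if i ∈ s then l i / d i else 0)
      (fun i hi => by by_contra h; exact hi (if_neg h))) ?_ ?_ ?_ ?_ ?_
  · intro D hD
    rw [hS] at hD
    rw [Finset.mem_filter, Finset.mem_finsuppAntidiag]
    refine ⟨⟨?_, ?_⟩, ?_⟩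
    · rw [← hD.2]
      refine Finset.sum_congr rfl fun i hi => ?_
      rw [Finsupp.onFinset_apply, if_pos hi]
    · exact Finsupp.support_onFinset_subset
    · intro i hi
      rw [Finsupp.onFinset_apply, if_pos hi]
      exact dvd_mul_left _ _
  · intro l hl
    rw [Finset.mem_filter, Finset.mem_finsuppAntidiag] at hl
    rw [hS]
    refine ⟨Finsupp.support_onFinset_subset, ?_⟩
    rw [← hl.1.1]
    refine Finset.sum_congr rfl fun i hi => ?_
    rw [Finsupp.onFinset_apply, if_pos hi]
    exact Nat.div_mul_cancel (hl.2 i hi)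
  · intro D hD
    rw [hS] at hD
    ext i
    by_cases hi : i ∈ s
    · rw [Finsupp.onFinset_apply, if_pos hi, Finsupp.onFinset_apply, if_pos hi]
      exact Nat.mul_div_cancel _ (hd i hi)
    · rw [Finsupp.onFinset_apply, if_neg hi]
      exact (Finsupp.notMem_support_iff.1 fun h => hi (hD.1 h)).symm
  · intro l hl
    rw [Finset.mem_filter, Finset.mem_finsuppAntidiag] at hl
    ext i
    by_cases hi : i ∈ s
    · rw [Finsupp.onFinset_apply, if_pos hi, Finsupp.onFinset_apply, if_pos hi]
      exact Nat.div_mul_cancel (hl.2 i hi)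
    · rw [Finsupp.onFinset_apply, if_neg hi]
      exact (Finsupp.notMem_support_iff.1 fun h => hi (hl.1.2 h)).symm
  · intro D hD
    refine Finset.prod_congr rfl fun i hi => ?_
    rw [Finsupp.onFinset_apply, if_pos hi, Nat.mul_div_cancel _ (hd i hi)]

theorem geo_unique {w : R} {d : ℕ} (hd : 0 < d) {A : PowerSeries R}
    (h : A * (1 - PowerSeries.C w * PowerSeries.X ^ d) = 1) : A = geo w d := by
  calc A = A * (geo w d * (1 - PowerSeries.C w * PowerSeries.X ^ d)) := by
        rw [geo_mul w hd, mul_one]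
    _ = (A * (1 - PowerSeries.C w * PowerSeries.X ^ d)) * geo w d := by ring
    _ = geo w d := by rw [h, one_mul]

theorem evalNeg_geo_even (w : R) {d : ℕ} (he : Even d) :
    PowerSeries.evalNegHom (geo w d) = geo w d := by
  ext n
  rw [PowerSeries.evalNegHom, PowerSeries.coeff_rescale, geo, PowerSeries.coeff_mk]
  split_ifs with h
  · have h1 : Even n := (even_iff_two_dvd.1 he).trans h |> even_iff_two_dvd.2
    rw [h1.neg_one_pow, one_mul]
  · rw [mul_zero]

theorem geo_mul_evalNeg_odd (w : R) {d : ℕ} (hd : Odd d) :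
    geo w d * PowerSeries.evalNegHom (geo w d) = geo (w ^ 2) (2 * d) := by
  have hd0 : 0 < d := hd.pos
  refine geo_unique (by omega) ?_
  have h1 := geo_mul w hd0
  have h2 := congrArg (PowerSeries.evalNegHom (A := R)) h1
  rw [map_mul, map_one, map_sub, map_one, map_mul, map_pow, PowerSeries.evalNegHom_X] at h2
  have h3 : PowerSeries.evalNegHom (PowerSeries.C w) = PowerSeries.C w := by
    ext n
    rw [PowerSeries.evalNegHom, PowerSeries.coeff_rescale, PowerSeries.coeff_C]
    split_ifs with hn
    · rw [hn, pow_zero, one_mul]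
    · rw [mul_zero]
  rw [h3, hd.neg_pow] at h2
  have h4 : (1 - PowerSeries.C (w ^ 2) * PowerSeries.X ^ (2 * d) : PowerSeries R) =
      (1 - PowerSeries.C w * PowerSeries.X ^ d) *
        (1 - PowerSeries.C w * -PowerSeries.X ^ d) := by
    rw [map_pow]
    ring
  rw [h4]
  linear_combination (geo w d * (1 - PowerSeries.C w * PowerSeries.X ^ d)) * h2 + h1

end Pool.Agent.FY.Comb
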