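import Pool.Agent.FY.CstD
import Pool.Agent.FF.ErDef

/-! # The quadratic extension of the constant field -/

set_option autoImplicit false
set_option linter.unusedSectionVars false

namespace Pool.Agent.FF

open Finset

section const

variable {k : Type} [Field k] [Finite k]

theorem ringChar_ne_two (h2 : (2 : k) ≠ 0) : ringChar k ≠ 2 := by
  intro h
  have h1 := ringChar.Nat.cast_ringChar (R := k)
  rw [h] at h1
  exact h2 (by exact_mod_cast h1)

/-- the cardinality is odd -/
theorem odd_card_of_two (h2 : (2 : k) ≠ 0) : ∃ m : ℕ, Nat.card k = 2 * m + 1 := by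
  have := Fintype.ofFinite k
  have h1 := FiniteField.odd_card_of_char_ne_two (ringChar_ne_two h2)
  rw [← Nat.card_eq_fintype_card] at h1
  exact ⟨Nat.card k / 2, by omega⟩

theorem pow_card_pow' (c : k) (n : ℕ) : c ^ (Nat.card k ^ n) = c := by
  have := Fintype.ofFinite k
  rw [Nat.card_eq_fintype_card]
  exact FiniteField.pow_card_pow n c

/-- the square root of a constant modulo a place of even degree -/
theorem exists_sqrt_const {F : Type} [Field F] [Algebra k F] (h2 : (2 : k) ≠ 0) {v : DV F} {c : k}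
    (hc : c ≠ 0) (hv : v.resCard ≠ 0) (hd : Even (deg k v)) :
    ∃ e : F, e ≠ 0 ∧ v.ord e = 0 ∧ v.G 1 (algebraMap k F c - e ^ 2) := by
  classical
  have h2F : (2 : F) ≠ 0 := by
    rw [← map_ofNat (algebraMap k F) 2]
    exact (_root_.map_ne_zero _).2 h2
  have := v.mx_maximal
  let _ : Field (v.ring ⧸ v.mx) := Ideal.Quotient.field v.mx
  have hfin : Finite (v.ring ⧸ v.mx) := Nat.finite_of_card_ne_zero (by rwa [v.card_quot])
  have := Fintype.ofFinite (v.ring ⧸ v.mx)
  have hcF : algebraMap k F c ≠ 0 := (_root_.map_ne_zero _).2 hc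
  let x : v.ring ⧸ v.mx := Ideal.Quotient.mk v.mx ⟨algebraMap k F c, v.G_const c⟩
  have hx0 : x ≠ 0 := by
    intro h
    have h1 : v.G 1 (algebraMap k F c) := Ideal.Quotient.eq_zero_iff_mem.1 h
    have h3 := h1.le hcF
    rw [v.ord_const] at h3
    omega
  have hchar : ringChar (v.ring ⧸ v.mx) ≠ 2 := by
    intro h
    have h1 := ringChar.Nat.cast_ringChar (R := v.ring ⧸ v.mx)
    rw [h] at h1
    have h3 : Ideal.Quotient.mk v.mx (2 : v.ring) = 0 := by
      rw [map_ofNat]
      exact_mod_cast h1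
    have h4 : v.G 1 (2 : F) := Ideal.Quotient.eq_zero_iff_mem.1 h3
    have h5 := h4.le h2F
    rw [Qd.ord_two k h2F v] at h5
    omega
  obtain ⟨m, hm⟩ := odd_card_of_two h2
  obtain ⟨e, he⟩ := hd
  have hcard : Fintype.card (v.ring ⧸ v.mx) = Nat.card k ^ (e + e) := by
    rw [← Nat.card_eq_fintype_card, v.card_quot, resCard_eq_pow k v hv, he]
  have hodd : Odd (Nat.card k ^ e) := (Odd.pow ⟨m, hm⟩)
  obtain ⟨r, hr⟩ := hodd
  have hhalf : Fintype.card (v.ring ⧸ v.mx) / 2 = (2 * r) * (r + 1) := by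
    rw [hcard, pow_add, hr]
    have : (2 * r + 1) * (2 * r + 1) = 2 * (2 * r * (r + 1)) + 1 := by ring
    rw [this]
    omega
  have hc1 : c ^ (2 * r) = 1 := by
    have h1 := pow_card_pow' c e
    rw [hr, pow_succ] at h1
    exact mul_right_cancel₀ hc (by rw [h1, one_mul])
  have hx1 : x ^ (Fintype.card (v.ring ⧸ v.mx) / 2) = 1 := by
    rw [hhalf, pow_mul]
    have h1 : x ^ (2 * r) = 1 := by
      show (Ideal.Quotient.mk v.mx ⟨algebraMap k F c, v.G_const c⟩) ^ (2 * r) = 1
      rw [← map_pow, ← map_one (Ideal.Quotient.mk v.mx)]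
      congr 1
      apply Subtype.ext
      show (algebraMap k F c) ^ (2 * r) = 1
      rw [← map_pow, hc1, map_one]
    rw [h1, one_pow]
  obtain ⟨y, hy⟩ := (FiniteField.isSquare_iff hchar hx0).2 hx1
  obtain ⟨⟨e', he'⟩, rfl⟩ := Ideal.Quotient.mk_surjective y
  rw [← map_mul] at hy
  have h3 := Ideal.Quotient.eq.1 hy
  have h4 : v.G 1 (algebraMap k F c - e' * e') := h3
  rw [← pow_two] at h4
  have hne : ¬ v.G 1 e' := by
    intro h
    have h5 := (h.pow 2).mono (show (1 : ℤ) ≤ ((2 : ℕ) : ℤ) * 1 by norm_num)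
    have h6 := h4.add h5
    rw [sub_add_cancel] at h6
    have h7 := h6.le hcF
    rw [v.ord_const] at h7
    omega
  have hne0 := DV.ne_zero_of_not_G hne
  refine ⟨e', hne0, ?_, h4⟩
  have h5 := (DV.not_G hne0).1 hne
  have h6 : 0 ≤ v.ord e' := DV.G.le he' hne0
  omega

end const

namespace Qd

variable {k K K' : Type} [Field k] [Finite k] [Field K] [Field K'] [Algebra k K] [Algebra k K']
  [Algebra K K'] [IsScalarTower k K K'] {c : k}

theorem two_k (Q : Qd K K' (algebraMap k K c)) : (2 : k) ≠ 0 := two_ne_of_algebra Q.two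

/-- `y ^ q = - y` -/
theorem y_frob (Q : Qd K K' (algebraMap k K c)) (hc : ¬ IsSquare c) :
    Q.y ^ Nat.card k = -Q.y := by
  have := Fintype.ofFinite k
  have hc0 : c ≠ 0 := by
    rintro rfl
    exact hc ⟨0, by simp⟩
  obtain ⟨m, hm⟩ := odd_card_of_two Q.two_k
  have h1 := FiniteField.pow_dichotomy (ringChar_ne_two Q.two_k) hc0
  have h3 : Fintype.card k / 2 = m := by
    rw [← Nat.card_eq_fintype_card, hm]
    omega
  have h4 : ¬ c ^ (Fintype.card k / 2) = 1 := fun h =>
    hc ((FiniteField.isSquare_iff (ringChar_ne_two Q.two_k) hc0).2 h)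
  have h5 := h1.resolve_left h4
  rw [h3] at h5
  rw [hm, pow_succ, pow_mul, Q.sq, ← map_pow, ← map_pow, h5, map_neg, map_neg, map_one, map_one,
    neg_one_mul]

theorem y_frob2 (Q : Qd K K' (algebraMap k K c)) (hc : ¬ IsSquare c) (e : ℕ) :
    Q.y ^ ((Nat.card k ^ 2) ^ e) = Q.y := by
  have h1 : Q.y ^ (Nat.card k ^ 2) = Q.y := by
    obtain ⟨m, hm⟩ := odd_card_of_two Q.two_k
    have hodd : Odd (Nat.card k) := ⟨m, hm⟩
    rw [pow_two, pow_mul, Q.y_frob hc, hodd.neg_pow, Q.y_frob hc, neg_neg]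
  induction e with
  | zero => simp
  | succ e ih => rw [pow_succ, pow_mul, ih, h1]

/-- the places of `K'` have even degrees over `k` -/
theorem even_deg (Q : Qd K K' (algebraMap k K c)) (hc : ¬ IsSquare c) {w : DV K'}
    (hw : w.resCard ≠ 0) : Even (deg k w) := by
  by_contra hodd
  rw [Nat.not_even_iff_odd] at hodd
  obtain ⟨e, he⟩ := hodd
  have h20 : (2 : K') ≠ 0 := by
    rw [← map_ofNat (algebraMap K K') 2, Ne, map_eq_zero]
    exact Q.two
  have hy : w.ord Q.y = 0 := by
    have := Q.two_ord_y w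
    rw [← IsScalarTower.algebraMap_apply, w.ord_const] at this
    omega
  have h1 := w.pow_resCard hw (DV.G_of_le hy.ge)
  rw [resCard_eq_pow k w hw, he, pow_succ, pow_mul (Nat.card k), pow_mul, Q.y_frob2 hc,
    Q.y_frob hc] at h1
  have h3 : -Q.y - Q.y = -(2 * Q.y) := by ring
  rw [h3] at h1
  have h4 := h1.neg
  rw [neg_neg] at h4
  have h5 := h4.le (mul_ne_zero h20 Q.y_ne)
  rw [w.ord_mul _ _ h20 Q.y_ne, hy, ord_two k h20 w] at h5
  omega

/-- degrees divide -/
theorem deg_dvd {v : DV K} {w : DV K'} (hw : Over w v) (hv : v.resCard ≠ 0) (hw0 : w.resCard ≠ 0) :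
    deg k v ∣ deg k w := by
  refine dvd_of_Er hv fun a ha => ?_
  rw [← hw.G_one_iff, map_sub, map_pow]
  have h1 := w.pow_resCard hw0 ((hw.G_zero_iff a).2 ha)
  rwa [resCard_eq_pow k w hw0] at h1

/-- one place above a place of odd degree -/
theorem inert_over (Q : Qd K K' (algebraMap k K c)) (hc : ¬ IsSquare c) {v : DV K}
    (hv : v.resCard ≠ 0) (hd : Odd (deg k v)) :
    ∃ w : DV K', (∀ w', Over w' v ↔ w' = w) ∧ deg k w = 2 * deg k v := by
  classical
  obtain ⟨B, hB, -, h2⟩ := Q.sum_over (k := k) hv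
  have h0 : v.ord (algebraMap k K c) = 0 := v.ord_const c
  have hsum := h2 (by rw [h0]; decide)
  have hge : ∀ w ∈ B, 2 * deg k v ≤ deg k w := by
    intro w hw
    have hov := (hB w).1 hw
    have hw0 := Q.resCard_ne_zero (k := k) hv hov
    have h3 : 2 ∣ deg k w := (Q.even_deg hc hw0).two_dvd
    have h4 := deg_dvd (k := k) hov hv hw0
    have h5 : Nat.Coprime 2 (deg k v) := Nat.coprime_two_left.2 hd
    exact Nat.le_of_dvd (deg_pos k w hw0) (h5.mul_dvd_of_dvd_of_dvd h3 h4)
  have hpos := deg_pos k v hv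
  obtain ⟨w, hw⟩ := Q.exists_above v
  have hwB := (hB w).2 hw
  have huniq : ∀ w' ∈ B, w' = w := by
    intro w' hw'
    by_contra hne
    have h3 : deg k w' + deg k w ≤ ∑ u ∈ B, deg k u := by
      rw [← sum_pair (f := fun u => deg k u) hne]
      exact sum_le_sum_of_subset (by
        intro u hu
        rw [mem_insert, mem_singleton] at hu
        rcases hu with rfl | rfl
        · exact hw'
        · exact hwB)
    have h4 := hge w hwB
    have h5 := hge w' hw'
    omega
  refine ⟨w, fun w' => ⟨fun h => huniq w' ((hB w').2 h), fun h => h ▸ hw⟩, ?_⟩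
  have hBw : B = {w} := by
    ext u
    rw [mem_singleton]
    exact ⟨huniq u, fun h => h ▸ hwB⟩
  rw [hBw, sum_singleton] at hsum
  exact hsum

/-- two places above a place of even degree -/
theorem split_over (Q : Qd K K' (algebraMap k K c)) {v : DV K}
    (hv : v.resCard ≠ 0) (hd : Even (deg k v)) :
    ∃ w₁ w₂ : DV K', w₁ ≠ w₂ ∧ (∀ w', Over w' v ↔ w' = w₁ ∨ w' = w₂) ∧
      w₁.resCard = v.resCard ∧ w₂.resCard = v.resCard ∧ ∀ x, w₂.ord x = w₁.ord (Q.sig x) := by
  have hc0 : c ≠ 0 := by
    rintro rfl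
    exact Q.f_ne (map_zero _)
  obtain ⟨e, he0, heo, heG⟩ := exists_sqrt_const (F := K) Q.two_k hc0 hv hd
  obtain ⟨w₁, w₂, hne, h1, h2, h12, hG1, hG2, hr1, hr2⟩ := Q.split (k := k) heo he0 heG
  refine ⟨w₁, w₂, hne, fun w' => ⟨h12 w', ?_⟩, hr1, hr2, ?_⟩
  · rintro (rfl | rfl)
    · exact h1
    · exact h2
  · have h3 : Over (w₁.comp Q.sig) v := h1.comp Q.sig Q.conj_K
    rcases h12 _ h3 with h4 | h4
    · exfalso
      have h20 : (2 : K') ≠ 0 := by
        rw [← map_ofNat (algebraMap K K') 2, Ne, map_eq_zero]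
        exact Q.two
      have h5 : (w₁.comp Q.sig).G 1 (Q.y - algebraMap K K' e) := by rw [h4]; exact hG1
      have h6 : w₁.G 1 (Q.sig (Q.y - algebraMap K K' e)) := by
        rcases h5 with h5 | h5
        · left
          rw [h5, map_zero]
        · right
          exact h5
      rw [map_sub, Q.sig_apply, Q.sig_apply, Q.conj_y, Q.conj_K] at h6
      have h7 := (h6.add hG1).neg
      have h8 : -(-Q.y - algebraMap K K' e + (Q.y - algebraMap K K' e)) =
          2 * algebraMap K K' e := by ring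
      rw [h8] at h7
      have h9 := h7.le (mul_ne_zero h20 (map_ne_zero' he0))
      obtain ⟨e', he', hov⟩ := h1
      rw [w₁.ord_mul _ _ h20 (map_ne_zero' he0), ord_two k h20 w₁, hov e he0, heo, mul_zero] at h9
      omega
    · intro x
      rw [← h4]
      rfl

end Qd

section main

variable {k k' K K' : Type} [Field k] [Finite k] [Field k'] [Finite k'] [Field K] [Field K']
  [Algebra k K] [Algebra k K'] [Algebra K K'] [IsScalarTower k K K'] [Algebra k' K']

theorem deg_sq_of (hcard : Nat.card k' = Nat.card k ^ 2) {w : DV K'} {d : ℕ}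
    (h : w.resCard = Nat.card k ^ (2 * d)) : w.deg (Nat.card k') = d := by
  show Nat.log (Nat.card k') w.resCard = d
  rw [h, hcard, pow_mul]
  exact Nat.log_pow (Nat.one_lt_pow (by norm_num) (one_lt_card k)) d

theorem cst_of {g : ℕ} (C : Cv k K g) {c : k} (hc : ¬ IsSquare c)
    (Q : Qd K K' (algebraMap k K c)) (hcard : Nat.card k' = Nat.card k ^ 2) (η : k')
    (hη : algebraMap k' K' η = Q.y)
    (hk : ∀ a b : k, ∃ x : k', algebraMap k' K' x = algebraMap k K' a + algebraMap k K' b * Q.y) :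
    Nonempty (Cst k k' K K') ∧ Cv k' K' g := by
  classical
  have hv : ∀ v : DV K, v.resCard ≠ 0 := fun v => C.ffp.res v
  have hη0 : η ≠ 0 := by
    rintro rfl
    rw [map_zero] at hη
    exact Q.y_ne hη.symm
  have hΘ : ∀ v : DV K, v.ord (Q.km k).Θ = 0 := by
    intro v
    rw [Q.km_Θ]
    exact v.ord_const c
  have hD : ∀ i, (Q.km k).D i = 0 := by
    intro i
    funext v
    unfold Km.D
    rw [hΘ, mul_zero, Int.zero_ediv, neg_zero]
    rfl
  have hov : ∀ w : DV K', Over w ((Q.km k).dn w) := (Q.km k).dn_over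
  have hdn : ∀ (w : DV K') (v : DV K), (Q.km k).dn w = v ↔ Over w v := fun w v =>
    ⟨fun h => h ▸ hov w, fun h => (Q.km k).dn_eq h⟩
  refine ⟨⟨{ two := Q.two
             card := hcard
             σ := Q.sig
             σK := Q.conj_K
             σσ := Q.conj_conj
             fix := ?_
             η := η
             ση := ?_
             η_ne := hη0
             π := (Q.km k).dn
             ord := ?_
             odd := ?_
             even := ?_ }⟩, ?_⟩
  · intro x hx
    obtain ⟨a, ha⟩ := (Q.km k).fix x hx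
    exact ⟨a, ha.symm⟩
  · rw [hη]
    exact Q.conj_y
  · intro w a
    by_cases ha : a = 0
    · rw [ha, map_zero, w.ord_zero, DV.ord_zero]
    · refine Q.even_ord (k := k) ?_ (hov w) a
      rw [DV.ord_const]
      decide
  · intro v hd
    obtain ⟨w, hw, hdw⟩ := Q.inert_over hc (hv v) hd
    refine ⟨w, fun w' => by rw [hdn, hw], ?_⟩
    have hw0 := Q.resCard_ne_zero (k := k) (hv v) ((hw w).2 rfl)
    exact deg_sq_of hcard (by rw [resCard_eq_pow k w hw0, hdw]; rfl)
  · intro v hd
    obtain ⟨w₁, w₂, hne, hw, hr1, hr2, hs⟩ := Q.split_over (hv v) hd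
    obtain ⟨e, he⟩ := hd
    have he' : v.deg (Nat.card k) = 2 * e := by omega
    have hvr : v.resCard = Nat.card k ^ (2 * e) := by
      rw [resCard_eq_pow k v (hv v)]
      exact congrArg _ he'
    refine ⟨w₁, w₂, hne, fun w' => by rw [hdn, hw], ?_, ?_, hs⟩
    · rw [deg_sq_of hcard (hr1.trans hvr), he']
    · rw [deg_sq_of hcard (hr2.trans hvr), he']
  · refine ⟨(Q.km k).polesL C.poles, ?_, ?_, ?_⟩
    · intro x hx
      obtain ⟨a, ha⟩ := (Q.km k).exists_coords x
      have h1 : ∀ i < 2, ∃ c : k, a i = algebraMap k K c := by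
        intro i hi
        refine C.const (a i) fun v => ?_
        have h3 : v.G ((Q.km k).D i v) (a i) := by
          rw [← (Q.km k).G_term ((Q.km k).up_over v), ← (Q.km k).E_coords hi, ← ha]
          exact (Q.km k).G_E (fun w _ => hx w) i ((Q.km k).up v) ((Q.km k).up_over v)
        rwa [hD] at h3
      obtain ⟨c0, hc0⟩ := h1 0 (by norm_num)
      obtain ⟨c1, hc1⟩ := h1 1 (by norm_num)
      obtain ⟨z, hz⟩ := hk c0 c1
      refine ⟨z, ?_⟩
      rw [hz, ha, sum_range_succ, sum_range_one, hc0, hc1, pow_zero, mul_one, pow_one,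
        ← IsScalarTower.algebraMap_apply, ← IsScalarTower.algebraMap_apply]
      rfl
    · intro w
      have hfin := (Q.km k).finite_Res (fun v => by
        rw [(C.res v).2]
        exact pow_ne_zero _ Nat.card_pos.ne') w
      obtain ⟨d, hd⟩ := card_Res_pow k' w Nat.card_pos.ne'
      have h1 : w.deg (Nat.card k') = d := by
        unfold DV.deg
        rw [hd, Nat.log_pow Finite.one_lt_card]
      rw [h1]
      refine ⟨?_, hd⟩
      rcases Nat.eq_zero_or_pos d with h | h
      · rw [h, pow_zero] at hd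
        exact absurd hd w.card_Res_ne_one
      · exact h
    · show Nat.card (HH (0 : DV K' → ℤ)) = _
      rw [RRD.card_HH_zero, (Q.km k).card_eq C.poles]
      have h1 : ∀ i : Fin 2, RRD.hCard ((Q.km k).D i) = Nat.card k ^ g := by
        intro i
        rw [hD]
        exact RRD.hgen C
      rw [Finset.prod_congr rfl fun i _ => h1 i, Finset.prod_const, Finset.card_univ,
        Fintype.card_fin, hcard, ← pow_mul, ← pow_mul, mul_comm]

end main

/-- **The quadratic extension of the constant field.** -/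
theorem exists_cst {k K : Type} [Field k] [Finite k] [Field K] [Algebra k K] {g : ℕ}
    (C : Cv k K g) (h2 : (2 : K) ≠ 0) :
    ∃ (k' K' : Type) (_ : Field k') (_ : Finite k') (_ : Field K') (_ : Algebra k' K')
      (_ : Algebra K K'), Nonempty (Cst k k' K K') ∧ Cv k' K' g := by
  classical
  have h2k : (2 : k) ≠ 0 := two_ne_of_algebra h2
  obtain ⟨c, hc⟩ : ∃ c : k, ¬ IsSquare c := by
    have := Fintype.ofFinite k
    exact FiniteField.exists_nonsquare (ringChar_ne_two h2k)
  have hc0 : c ≠ 0 := by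
    rintro rfl
    exact hc ⟨0, by simp⟩
  have hcK : algebraMap k K c ≠ 0 := (_root_.map_ne_zero _).2 hc0
  have hirr : ∀ a : K, a ^ 2 ≠ algebraMap k K c := by
    intro a ha
    have ha0 : a ≠ 0 := by
      rintro rfl
      rw [zero_pow (by norm_num)] at ha
      exact hcK ha.symm
    obtain ⟨b, hb⟩ := C.const a fun v => by
      have h1 := congrArg v.ord ha
      rw [v.ord_pow ha0, v.ord_const] at h1
      push_cast at h1
      exact DV.G_of_le (by omega)
    rw [hb, ← map_pow] at ha
    exact hc ⟨b, by rw [← pow_two]; exact ((algebraMap k K).injective ha).symm⟩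
  obtain ⟨K', i1, i2, i3, i4, ⟨Q⟩⟩ := exists_qd (k := k) h2 hirr
  have hQ : Q.y ^ 2 = algebraMap k K' c := by
    rw [Q.sq, ← IsScalarTower.algebraMap_apply]
  -- the constants
  have hint : IsIntegral k Q.y := ⟨Polynomial.X ^ 2 - Polynomial.C c,
    Polynomial.monic_X_pow_sub_C c (by norm_num), by simp [hQ]⟩
  have hy : Q.y ∈ IntermediateField.adjoin k {Q.y} :=
    IntermediateField.mem_adjoin_simple_self k Q.y
  have hmin : minpoly k Q.y = Polynomial.X ^ 2 - Polynomial.C c := by
    refine (minpoly.eq_of_irreducible_of_monic ?_ (by simp [hQ])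
      (Polynomial.monic_X_pow_sub_C c (by norm_num))).symm
    refine X_pow_sub_C_irreducible_of_prime Nat.prime_two fun b hb => ?_
    exact hc ⟨b, by rw [← pow_two]; exact hb.symm⟩
  have hfr : Module.finrank k (IntermediateField.adjoin k {Q.y}) = 2 := by
    rw [IntermediateField.adjoin.finrank hint, hmin, Polynomial.natDegree_X_pow_sub_C]
  have hfd : Module.Finite k (IntermediateField.adjoin k {Q.y}) :=
    Module.finite_of_finrank_pos (by rw [hfr]; norm_num)
  have hfin : Finite (IntermediateField.adjoin k {Q.y}) := Module.finite_of_finite k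
  have hcard : Nat.card (IntermediateField.adjoin k {Q.y}) = Nat.card k ^ 2 := by
    rw [Module.natCard_eq_pow_finrank (K := k), hfr]
  refine ⟨IntermediateField.adjoin k {Q.y}, K', inferInstance, hfin, i1, inferInstance, i3, ?_⟩
  refine cst_of C hc Q hcard ⟨Q.y, hy⟩ rfl fun a b => ?_
  refine ⟨⟨algebraMap k K' a + algebraMap k K' b * Q.y, ?_⟩, rfl⟩
  exact add_mem (IntermediateField.algebraMap_mem _ a)
    (mul_mem (IntermediateField.algebraMap_mem _ b) hy)

/-- rational places above rational places -/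
theorem Cst.rat {k k' K K' : Type} [Field k] [Finite k] [Field k'] [Finite k'] [Field K] [Field K']
    [Algebra k K] [Algebra k' K'] [Algebra K K'] (S : Cst k k' K K') {g : ℕ} (C' : Cv k' K' g)
    {R : DV K} (hR : R.Rat k) : ∃ R' : DV K', S.π R' = R ∧ R'.Rat k' := by
  have h1 : R.resCard = Nat.card k := (rational_iff k R).2 hR
  have h2 : R.deg (Nat.card k) = 1 := by
    show Nat.log (Nat.card k) R.resCard = 1
    rw [h1]
    exact Nat.log_eq_one_iff.2 ⟨by nlinarith [one_lt_card k], one_lt_card k, le_rfl⟩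
  obtain ⟨w, hw, hd⟩ := S.odd R (by rw [h2]; decide)
  refine ⟨w, (hw w).2 rfl, (rational_iff k' w).1 ?_⟩
  have h3 := (C'.res w).2
  rw [hd, h2, pow_one] at h3
  exact h3

end Pool.Agent.FF
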