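import Pool.Agent.FO.Quad

/-! # The quadratic extension of the constant field: the interface -/

set_option autoImplicit false

namespace Pool.Agent.FF

/-- `K' = K(sqrt c)`, `k' = k(sqrt c)`, `c` a nonsquare of the constant field `k` -/
structure Cst (k k' K K' : Type) [Field k] [Field k'] [Field K] [Field K'] [Algebra k K]
    [Algebra k' K'] [Algebra K K'] where
  two : (2 : K) ≠ 0
  card : Nat.card k' = Nat.card k ^ 2
  σ : K' ≃+* K'
  σK : ∀ a : K, σ (algebraMap K K' a) = algebraMap K K' a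
  σσ : ∀ x, σ (σ x) = x
  fix : ∀ x, σ x = x → ∃ a : K, x = algebraMap K K' a
  η : k'
  ση : σ (algebraMap k' K' η) = -algebraMap k' K' η
  η_ne : η ≠ 0
  π : DV K' → DV K
  ord : ∀ (w : DV K') (a : K), w.ord (algebraMap K K' a) = (π w).ord a
  odd : ∀ v : DV K, Odd (v.deg (Nat.card k)) → ∃ w, (∀ w', π w' = v ↔ w' = w) ∧
    w.deg (Nat.card k') = v.deg (Nat.card k)
  even : ∀ v : DV K, Even (v.deg (Nat.card k)) → ∃ w₁ w₂, w₁ ≠ w₂ ∧
    (∀ w', π w' = v ↔ w' = w₁ ∨ w' = w₂) ∧ 2 * w₁.deg (Nat.card k') = v.deg (Nat.card k) ∧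
    2 * w₂.deg (Nat.card k') = v.deg (Nat.card k) ∧ ∀ x, w₂.ord x = w₁.ord (σ x)

end Pool.Agent.FF
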