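import Pool.Agent.FY.PicD
import Pool.Agent.FY.CstD
import Pool.Agent.FY.EffD
import Pool.Agent.FO.BasQ

/-!
# Effective divisors, weighted counts, the L-polynomial: definitions
-/

set_option autoImplicit false

namespace Pool.Agent.FF

/-- the degrees of the places -/
noncomputable abbrev dgP (k K : Type) [Field k] [Field K] (v : DV K) : ℕ := v.deg (Nat.card k)

/-- `2 ^ s` divides the number of classes killed by `2` -/
def T2 (k K : Type) [Field k] [Finite k] [Field K] (s : ℕ) : Prop :=
  2 ^ s ∣ Nat.card {x : Pic0 k K // 2 • x = 0}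

/-- `L` is the L-polynomial of `K` (genus `g`) -/
structure IsL (k K : Type) [Field k] [Finite k] [Field K] (g : ℕ) (L : Polynomial ℤ) : Prop where
  deg : L.natDegree ≤ 2 * g
  zero : L.coeff 0 = 1
  one : L.eval 1 = Nat.card (Pic0 k K)
  ser : (L : PowerSeries ℤ) = (1 - PowerSeries.X) *
    (1 - PowerSeries.C (Nat.card k : ℤ) * PowerSeries.X) *
      PowerSeries.mk fun n => Aw (dgP k K) (fun _ => 1) n

end Pool.Agent.FF
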