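import Pool.Agent.FY.NrmB
import Pool.Agent.FY.EffD

/-! # The classes of the even places generate: the character argument, II -/

set_option autoImplicit false
set_option linter.unusedSectionVars false

namespace Pool.Agent.FF

open Finset

section

variable (k : Type) [Field k] [Finite k] {K : Type} [Field K]

theorem degH_toZ (D : DV K →₀ ℕ) :
    degH k K (toZ D) = (D.sum (fun v m => v.deg (Nat.card k) * m) : ℕ) := by
  induction D using Finsupp.induction_linear with
  | zero => rw [map_zero, map_zero, Finsupp.sum_zero_index]; rfl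
  | add D E hD hE =>
    rw [map_add, map_add, hD, hE, Finsupp.sum_add_index' (fun _ => mul_zero _)
      (fun _ _ _ => mul_add _ _ _)]
    push_cast
    rfl
  | single v n =>
    rw [toZ_single, degH_single, Finsupp.sum_single_index (mul_zero _)]
    push_cast
    ring

theorem degH_toZ_of_mem {D : DV K →₀ ℕ} {n : ℕ}
    (hD : D ∈ Eff (fun v : DV K => v.deg (Nat.card k)) n) : degH k K (toZ D) = n := by
  rw [degH_toZ]
  exact congrArg Nat.cast hD

variable (R : DV K) (hR : R.deg (Nat.card k) = 1)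

theorem prod_char {χ : Pic0 k K → ℤ} (h0 : χ 0 = 1) (hm : ∀ x y, χ (x + y) = χ x * χ y)
    (D : DV K →₀ ℕ) :
    D.prod (fun v m => χ (clR k R hR v) ^ m) = χ (clsD k R hR (toZ D)) := by
  induction D using Finsupp.induction_linear with
  | zero => rw [map_zero, map_zero, h0, Finsupp.prod_zero_index]
  | add D E hD hE =>
    rw [map_add, map_add, hm, ← hD, ← hE, Finsupp.prod_add_index' (fun _ => pow_zero _)
      (fun _ _ _ => pow_add _ _ _)]
  | single v n =>
    have e : (Finsupp.single v n).prod (fun v m => χ (clR k R hR v) ^ m) =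
        χ (clR k R hR v) ^ n := Finsupp.prod_single_index (pow_zero _)
    rw [e, toZ_single]
    clear e
    induction n with
    | zero =>
      rw [pow_zero]
      push_cast
      rw [Finsupp.single_zero, map_zero, h0]
    | succ n ih =>
      rw [pow_succ, ih]
      push_cast
      rw [Finsupp.single_add, map_add, hm, clsD_single]

/-- the weighted numbers of effective divisors of large degree are zero -/
theorem Aw_eq_zero [Finite (Pic0 k K)] {χ : Pic0 k K → ℤ} (h0 : χ 0 = 1)
    (hm : ∀ x y, χ (x + y) = χ x * χ y) {x₀ : Pic0 k K} (hx₀ : χ x₀ = -1) {n : ℕ}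
    (hfin : (Eff (fun v : DV K => v.deg (Nat.card k)) n).Finite)
    (hcount : ∃ N : ℕ, ∀ D : DV K →₀ ℤ, degH k K D = n →
      {X | X ∈ Eff (fun v : DV K => v.deg (Nat.card k)) n ∧ toZ X - D ∈ PrD K}.ncard = N) :
    Aw (fun v : DV K => v.deg (Nat.card k)) (fun v => χ (clR k R hR v)) n = 0 := by
  classical
  have := Fintype.ofFinite (Pic0 k K)
  obtain ⟨N, hN⟩ := hcount
  unfold Aw
  rw [finsum_mem_eq_finite_toFinset_sum _ hfin]
  have h1 : ∀ D ∈ hfin.toFinset, (D.prod fun v m => χ (clR k R hR v) ^ m) =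
      χ (clsD k R hR (toZ D)) := fun D _ => prod_char k R hR h0 hm D
  rw [sum_congr rfl h1, ← sum_fiberwise hfin.toFinset (fun D => clsD k R hR (toZ D))]
  have h2 : ∀ x : Pic0 k K, ∑ D ∈ hfin.toFinset with clsD k R hR (toZ D) = x,
      χ (clsD k R hR (toZ D)) = N * χ x := by
    intro x
    have h3 : ∑ D ∈ hfin.toFinset with clsD k R hR (toZ D) = x, χ (clsD k R hR (toZ D)) =
        ∑ D ∈ hfin.toFinset with clsD k R hR (toZ D) = x, χ x := by
      refine sum_congr rfl fun D hD => ?_
      rw [(mem_filter.1 hD).2]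
    rw [h3, sum_const, nsmul_eq_mul]
    congr 1
    obtain ⟨E, hE, hEx⟩ := exists_clsD k R hR x n
    have h4 := hN E hE
    rw [← h4, ← Set.ncard_coe_finset]
    congr 2
    ext X
    rw [mem_coe, mem_filter, Set.Finite.mem_toFinset, Set.mem_ofPred_eq]
    refine and_congr_right fun hX => ?_
    rw [← hEx, clsD_eq_iff k R hR ((degH_toZ_of_mem k hX).trans hE.symm)]
  rw [sum_congr rfl fun x _ => h2 x, ← mul_sum, sum_quad_char hm hx₀, mul_zero]

end

/-- **The classes of even places and the doubles generate.** -/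
theorem Cst.gen {k k' K K' : Type} [Field k] [Field k'] [Field K] [Field K'] [Algebra k K]
    [Algebra k' K'] [Algebra K K'] [Finite k] [Finite k'] (S : Cst k k' K K') (R : DV K)
    (hR : R.deg (Nat.card k) = 1) [Finite (Pic0 k K)] {g : ℕ}
    (hfin : ∀ n, (Eff (fun v : DV K => v.deg (Nat.card k)) n).Finite)
    (hfin' : ∀ n, (Eff (fun w : DV K' => w.deg (Nat.card k')) n).Finite)
    (hcount : ∀ n : ℕ, 2 * g ≤ n + 1 → ∃ N : ℕ, ∀ D : DV K →₀ ℤ, degH k K D = n →
      {X | X ∈ Eff (fun v : DV K => v.deg (Nat.card k)) n ∧ toZ X - D ∈ PrD K}.ncard = N)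
    (hcomb : ∀ (w : DV K → ℤ) (w' : DV K' → ℤ),
      (∀ j, Odd ((S.π j).deg (Nat.card k)) → w' j = w (S.π j) ^ 2) →
      (∀ j, Even ((S.π j).deg (Nat.card k)) → w' j = w (S.π j)) → ∀ n,
      Aw (fun w : DV K' => w.deg (Nat.card k')) w' n = ∑ p ∈ antidiagonal (2 * n),
        (-1) ^ p.2 * (Aw (fun v : DV K => v.deg (Nat.card k)) w p.1 *
          Aw (fun v : DV K => v.deg (Nat.card k)) w p.2))
    (H : AddSubgroup (Pic0 k K)) (h2 : ∀ x, 2 • x ∈ H)
    (hev : ∀ v : DV K, Even (v.deg (Nat.card k)) → clR k R hR v ∈ H) : H = ⊤ := by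
  classical
  by_contra hH
  obtain ⟨χ, h0, hm, hpm, hχH, x₀, hx₀⟩ := exists_quad_char h2 hH
  set w : DV K → ℤ := fun v => χ (clR k R hR v) with hw
  have hz : ∀ n : ℕ, 2 * g ≤ n + 1 → Aw (fun v : DV K => v.deg (Nat.card k)) w n = 0 :=
    fun n hn => Aw_eq_zero k R hR h0 hm hx₀ (hfin n) (hcount n hn)
  have h3 := hcomb w (fun _ => 1) (fun j _ => by
    rcases hpm (clR k R hR (S.π j)) with h | h <;> simp [hw, h]) (fun j hj => by
    exact (hχH _ (hev _ hj)).symm) (2 * g)
  rw [sum_eq_zero] at h3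
  · obtain ⟨R', rfl⟩ := S.π_surj R
    have hodd : Odd ((S.π R').deg (Nat.card k)) := by rw [hR]; exact odd_one
    have hd' : R'.deg (Nat.card k') = 1 := by rw [S.deg_odd hodd, hR]
    unfold Aw at h3
    rw [finsum_mem_eq_finite_toFinset_sum _ (hfin' _)] at h3
    have h4 : ∀ D ∈ (hfin' (2 * g)).toFinset, (D.prod fun _ m => (1 : ℤ) ^ m) = 1 := fun D _ => by
      rw [Finsupp.prod]
      exact prod_eq_one fun _ _ => one_pow _
    rw [sum_congr rfl h4, sum_const, nsmul_eq_mul, mul_one] at h3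
    have h5 : (hfin' (2 * g)).toFinset = ∅ := card_eq_zero.1 (by exact_mod_cast h3)
    have h6 : Finsupp.single R' (2 * g) ∈ (hfin' (2 * g)).toFinset := by
      rw [Set.Finite.mem_toFinset]
      show (Finsupp.single R' (2 * g)).sum (fun i m => i.deg (Nat.card k') * m) = 2 * g
      rw [Finsupp.sum_single_index (mul_zero _), hd', one_mul]
    rw [h5] at h6
    exact absurd h6 (notMem_empty _)
  · intro p hp
    rw [HasAntidiagonal.mem_antidiagonal] at hp
    by_cases h7 : 2 * g ≤ p.1 + 1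
    · rw [hz p.1 h7, zero_mul, mul_zero]
    · rw [hz p.2 (by omega), mul_zero, mul_zero]

end Pool.Agent.FF
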