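import Pool.Agent.FY.Defs
import Pool.Agent.FY.NrmC

/-! # The L-polynomial from the numbers of effective divisors in the classes -/

set_option autoImplicit false

namespace Pool.Agent.FF

open Finset

/-- the coefficients of `(1 - X) F` sum up to a coefficient of `F` -/
theorem sum_coeff_one_sub_X (F : PowerSeries ℤ) (N : ℕ) :
    ∑ m ∈ range (N + 1), PowerSeries.coeff m ((1 - PowerSeries.X) * F) =
      PowerSeries.coeff N F := by
  induction N with
  | zero => simp [sub_mul]
  | succ N ih =>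
    rw [sum_range_succ, ih, sub_mul, one_mul, map_sub, PowerSeries.coeff_succ_X_mul]
    ring

theorem coeff_one_sub_C_X (q : ℤ) (A : ℕ → ℤ) (n : ℕ) :
    PowerSeries.coeff (n + 1) ((1 - PowerSeries.C q * PowerSeries.X) * PowerSeries.mk A) =
      A (n + 1) - q * A n := by
  rw [sub_mul, one_mul, map_sub, mul_assoc, PowerSeries.coeff_C_mul,
    PowerSeries.coeff_succ_X_mul, PowerSeries.coeff_mk, PowerSeries.coeff_mk]

theorem coeff_zero_one_sub_C_X (q : ℤ) (A : ℕ → ℤ) :
    PowerSeries.coeff 0 ((1 - PowerSeries.C q * PowerSeries.X) * PowerSeries.mk A) = A 0 := by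
  simp [sub_mul, mul_assoc]

theorem exists_poly_of (q h : ℤ) (hq : 2 ≤ q) (g : ℕ) (A : ℕ → ℤ) (h0 : A 0 = 1)
    (hA : ∀ n, 2 * g ≤ n + 1 → (q - 1) * A n + h = h * q ^ (n + 1 - g)) :
    ∃ L : Polynomial ℤ, L.natDegree ≤ 2 * g ∧ L.coeff 0 = 1 ∧ L.eval 1 = h ∧
      (L : PowerSeries ℤ) = (1 - PowerSeries.X) * (1 - PowerSeries.C q * PowerSeries.X) *
        PowerSeries.mk A := by
  set F : PowerSeries ℤ := (1 - PowerSeries.C q * PowerSeries.X) * PowerSeries.mk A with hF
  have hq1 : q - 1 ≠ 0 := by omega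
  have hF0 : PowerSeries.coeff 0 F = 1 := by
    rw [hF, coeff_zero_one_sub_C_X, h0]
  -- the coefficients of `F` beyond `2 g` are `h`
  have hFn : ∀ n, 2 * g ≤ n → PowerSeries.coeff n F = h := by
    intro n hn
    apply mul_left_cancel₀ hq1
    rcases n with _ | n
    · rw [hF, coeff_zero_one_sub_C_X]
      have h1 := hA 0 (by omega)
      have hg : g = 0 := by omega
      subst hg
      simp only [Nat.zero_add, Nat.sub_zero, pow_one] at h1
      linear_combination h1
    · rw [hF, coeff_one_sub_C_X]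
      have h1 := hA (n + 1) (by omega)
      have h2 := hA n (by omega)
      have h3 : n + 1 + 1 - g = (n + 1 - g) + 1 := by omega
      rw [h3, pow_succ] at h1
      linear_combination h1 - q * h2
  have hz : ∀ n, 2 * g + 1 ≤ n → PowerSeries.coeff n ((1 - PowerSeries.X) * F) = 0 := by
    intro n hn
    obtain ⟨m, rfl⟩ : ∃ m, n = m + 1 := ⟨n - 1, by omega⟩
    rw [sub_mul, one_mul, map_sub, PowerSeries.coeff_succ_X_mul, hFn _ (by omega),
      hFn _ (by omega), sub_self]
  refine ⟨PowerSeries.trunc (2 * g + 1) ((1 - PowerSeries.X) * F), ?_, ?_, ?_, ?_⟩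
  · exact Nat.lt_succ_iff.1 (PowerSeries.natDegree_trunc_lt _ _)
  · rw [PowerSeries.coeff_trunc, if_pos (Nat.succ_pos _), sub_mul, one_mul, map_sub, hF0]
    simp
  · rw [Polynomial.eval_eq_sum_range' (n := 2 * g + 1) (PowerSeries.natDegree_trunc_lt _ _)]
    simp only [one_pow, mul_one]
    rw [← hFn (2 * g) le_rfl, ← sum_coeff_one_sub_X]
    refine sum_congr rfl fun m hm => ?_
    rw [PowerSeries.coeff_trunc, if_pos (mem_range.1 hm)]
  · rw [mul_assoc, ← hF]
    ext n
    rw [Polynomial.coeff_coe, PowerSeries.coeff_trunc]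
    split_ifs with hn
    · rfl
    · exact (hz n (by omega)).symm

/-- the number of the multisets -/
theorem Aw_one {I : Type*} {dg : I → ℕ} {n : ℕ} (hfin : (Eff dg n).Finite) :
    Aw dg (fun _ => 1) n = (Eff dg n).ncard := by
  unfold Aw
  rw [finsum_mem_eq_finite_toFinset_sum _ hfin]
  have h4 : ∀ D ∈ hfin.toFinset, (D.prod fun _ m => (1 : ℤ) ^ m) = 1 := fun D _ => by
    rw [Finsupp.prod]
    exact prod_eq_one fun _ _ => one_pow _
  rw [sum_congr rfl h4, sum_const, nsmul_eq_mul, mul_one, Set.ncard_eq_toFinset_card _ hfin]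

theorem Eff_zero {I : Type*} {dg : I → ℕ} (h1 : ∀ i, 1 ≤ dg i) : Eff dg 0 = {0} := by
  ext D
  rw [Set.mem_singleton_iff]
  constructor
  · intro hD
    have hD' : D.sum (fun i m => dg i * m) = 0 := hD
    rw [Finsupp.sum, Finset.sum_eq_zero_iff] at hD'
    ext i
    by_contra hi
    have h2 := hD' i (Finsupp.mem_support_iff.2 hi)
    rcases Nat.mul_eq_zero.1 h2 with h | h
    · exact absurd (h1 i) (by omega)
    · exact hi h
  · rintro rfl
    exact Finsupp.sum_zero_index

section

variable {k K : Type} [Field k] [Finite k] [Field K] [Algebra k K] {g : ℕ}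

/-- the number of the effective divisors, if every class has the same number of them -/
theorem ncard_Eff [Finite (Pic0 k K)] (R : DV K) (hR : R.deg (Nat.card k) = 1) {n N : ℕ}
    (hfin : (Eff (dgP k K) n).Finite) (hN : ∀ D : DV K →₀ ℤ, degH k K D = n →
      Nat.card {E : DV K →₀ ℕ // E ∈ Eff (dgP k K) n ∧ toZ E - D ∈ PrD K} = N) :
    (Eff (dgP k K) n).ncard = Nat.card (Pic0 k K) * N := by
  classical
  have := Fintype.ofFinite (Pic0 k K)
  rw [Set.ncard_eq_toFinset_card _ hfin, card_eq_sum_card_fiberwise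
    (f := fun D => clsD k R hR (toZ D)) (t := (univ : Finset (Pic0 k K)))
    (fun _ _ => mem_coe.2 (mem_univ _))]
  rw [sum_congr rfl (g := fun _ => N), sum_const, card_univ, smul_eq_mul, Nat.card_eq_fintype_card]
  intro x _
  obtain ⟨E, hE, hEx⟩ := exists_clsD k R hR x n
  rw [← hN E hE]
  have e : {X : DV K →₀ ℕ | X ∈ Eff (dgP k K) n ∧ toZ X - E ∈ PrD K} =
      (({D ∈ hfin.toFinset | clsD k R hR (toZ D) = x} : Finset (DV K →₀ ℕ)) :
        Set (DV K →₀ ℕ)) := by
    ext X
    rw [mem_coe, mem_filter, Set.Finite.mem_toFinset, Set.mem_ofPred_eq]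
    refine and_congr_right fun hX => ?_
    rw [← hEx, clsD_eq_iff k R hR ((degH_toZ_of_mem k hX).trans hE.symm)]
  have h3 : Nat.card {X : DV K →₀ ℕ // X ∈ Eff (dgP k K) n ∧ toZ X - E ∈ PrD K} =
      Set.ncard {X : DV K →₀ ℕ | X ∈ Eff (dgP k K) n ∧ toZ X - E ∈ PrD K} := rfl
  rw [h3, e, Set.ncard_coe_finset]

/-- **The L-polynomial**, from the number of effective divisors in a class. -/
theorem exists_L_of (C : Cv k K g) {R : DV K} (hR : R.Rat k) (hP : Finite (Pic0 k K))
    (hE : ∀ n, (Eff (dgP k K) n).Finite)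
    (hcount : ∀ (D : DV K →₀ ℤ) (n : ℕ), degH k K D = n → 2 * g ≤ n + 1 →
      (Nat.card k - 1) * Nat.card {E : DV K →₀ ℕ // E ∈ Eff (dgP k K) n ∧ toZ E - D ∈ PrD K} + 1 =
        Nat.card k ^ (n + 1 - g)) :
    ∃ L : Polynomial ℤ, IsL k K g L := by
  have hR1 : R.deg (Nat.card k) = 1 := hR.deg_eq
  have hq : 2 ≤ Nat.card k := Finite.one_lt_card
  have h1 : ∀ v : DV K, 1 ≤ dgP k K v := fun v => (C.res v).1
  obtain ⟨L, hL1, hL2, hL3, hL4⟩ := exists_poly_of (Nat.card k : ℤ) (Nat.card (Pic0 k K) : ℤ)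
    (by exact_mod_cast hq) g (fun n => Aw (dgP k K) (fun _ => 1) n)
    (by
      show Aw (dgP k K) (fun _ => 1) 0 = 1
      rw [Aw_one (hE 0), Eff_zero h1, Set.ncard_singleton]
      rfl)
    (by
      intro n hn
      show ((Nat.card k : ℤ) - 1) * Aw (dgP k K) (fun _ => 1) n + Nat.card (Pic0 k K) = _
      rw [Aw_one (hE n)]
      have hD0 : degH k K (Finsupp.single R (n : ℤ)) = n := by
        rw [degH_single, hR1]
        push_cast
        ring
      have hN := hcount _ n hD0 hn
      set N := Nat.card {E : DV K →₀ ℕ // E ∈ Eff (dgP k K) n ∧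
        toZ E - Finsupp.single R (n : ℤ) ∈ PrD K} with hNd
      rw [ncard_Eff R hR1 (N := N) (hE n)]
      · have h5 : ((Nat.card k : ℤ) - 1) * N + 1 = (Nat.card k : ℤ) ^ (n + 1 - g) := by
          have h6 : ((Nat.card k - 1 : ℕ) : ℤ) = (Nat.card k : ℤ) - 1 := by
            push_cast [Nat.cast_sub (show 1 ≤ Nat.card k by omega)]
            ring
          rw [← h6]
          exact_mod_cast hN
        push_cast
        linear_combination (Nat.card (Pic0 k K) : ℤ) * h5
      · intro D hD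
        have h7 := hcount D n hD hn
        have h8 : (Nat.card k - 1) * Nat.card {E : DV K →₀ ℕ // E ∈ Eff (dgP k K) n ∧
            toZ E - D ∈ PrD K} = (Nat.card k - 1) * N := by omega
        exact Nat.eq_of_mul_eq_mul_left (by omega) h8)
  exact ⟨L, hL1, hL2, hL3, hL4⟩

end

end Pool.Agent.FF
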