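import Pool.Agent.FY.Defs
import Pool.Agent.FY.Comb
import Pool.Agent.FF.ErDef

/-! # B2: finitely many places of each degree, finitely many classes -/

set_option autoImplicit false

namespace Pool.Agent.FF

variable {k K : Type} [Field k] [Finite k] [Field K] [Algebra k K] {g : ℕ}

theorem rat_deg_one (C : Cv k K g) {R : DV K} (hR : R.Rat k) : deg k R = 1 := by
  have h1 : R.resCard = Nat.card k := (rational_iff k R).2 hR
  have h2 := resCard_eq_pow k R (C.ffp.res R)
  rw [h1] at h2
  have h3 : Nat.card k ^ 1 = Nat.card k ^ deg k R := by rw [pow_one]; exact h2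
  exact (Nat.pow_right_injective (one_lt_card k) h3).symm

/-- a function with a pole only at `R` which is not constant -/
theorem exists_nonconst (C : Cv k K g) {R : DV K} (hR : R.Rat k) :
    ∃ w : K, (∀ Q : DV K, Q ≠ R → Q.G 0 w) ∧ ¬ ∀ Q : DV K, Q.G 0 w := by
  have h1 := RRD.le_card_LP C (P := R) (rat_deg_one C hR) (g + 1)
  have h2 := RRD.card_LInt_zero C
  have hq := one_lt_card k
  by_contra hcon
  push Not at hcon
  have hle : (RRD.LP R (g + 1) : Set K) ⊆ (RRD.LInt (0 : DV K → ℤ) : Set K) := by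
    intro w hw
    exact hcon w fun Q hQ => (RRD.mem_LP.1 hw).2 Q hQ
  have h3 : Finite (RRD.LInt (0 : DV K → ℤ)) := by
    apply Nat.finite_of_card_ne_zero
    rw [h2]
    omega
  have h4 : Nat.card (RRD.LP R (g + 1)) ≤ Nat.card (RRD.LInt (0 : DV K → ℤ)) :=
    Nat.card_mono (Set.toFinite (RRD.LInt (0 : DV K → ℤ) : Set K)) hle
  rw [h2] at h4
  have h5 : Nat.card k ^ (g + 2) ≤ Nat.card k ^ (g + 1) := by
    calc Nat.card k ^ (g + 2) ≤ Nat.card k ^ g * Nat.card (RRD.LP R (g + 1)) := h1
      _ ≤ Nat.card k ^ g * Nat.card k := Nat.mul_le_mul_left _ h4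
      _ = Nat.card k ^ (g + 1) := (pow_succ _ _).symm
  have h6 := Nat.pow_lt_pow_right hq (show g + 1 < g + 2 by omega)
  omega

theorem finite_dgP (C : Cv k K g) {R : DV K} (hR : R.Rat k) (n : ℕ) :
    {v : DV K | dgP k K v = n}.Finite := by
  obtain ⟨w, hw1, hw2⟩ := exists_nonconst C hR
  rcases Nat.eq_zero_or_pos n with hn | hn
  · subst hn
    have : {v : DV K | dgP k K v = 0} = ∅ := by
      ext v
      simp only [Set.mem_empty_iff_false, iff_false]
      intro hv
      have h0 : dgP k K v = 0 := hv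
      have h1 : 1 ≤ dgP k K v := (C.res v).1
      omega
    rw [this]
    exact Set.finite_empty
  · have hq := one_lt_card k
    have hw0 : w ≠ 0 := by
      rintro rfl
      exact hw2 fun Q => DV.G_zero 0
    have hne : w ^ (Nat.card k ^ n) - w ≠ 0 := by
      intro h
      apply hw2
      intro Q
      have h1 := congrArg Q.ord (sub_eq_zero.1 h)
      rw [Q.ord_pow hw0] at h1
      have h2 : 1 < Nat.card k ^ n := Nat.one_lt_pow hn.ne' hq
      have h3 : (1 : ℤ) < ((Nat.card k ^ n : ℕ) : ℤ) := by exact_mod_cast h2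
      have h4 : (((Nat.card k ^ n : ℕ) : ℤ) - 1) * Q.ord w = 0 := by linear_combination h1
      rcases mul_eq_zero.1 h4 with h5 | h5
      · omega
      · exact DV.G_of_le h5.ge
    refine ((C.poles (w ^ (Nat.card k ^ n) - w)⁻¹).union (Set.finite_singleton R)).subset ?_
    intro v hv
    by_cases hvR : v = R
    · exact Or.inr hvR
    · left
      have hd : deg k v ∣ n := by
        have : dgP k K v = n := hv
        exact dvd_of_eq this
      have h1 := Er_of_dvd (C.ffp.res v) hd w (hw1 v hvR)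
      intro h2
      have h3 := h1.le hne
      have h4 := h2.le (inv_ne_zero hne)
      rw [v.ord_inv hne] at h4
      omega

theorem finite_Eff (C : Cv k K g) {R : DV K} (hR : R.Rat k) (n : ℕ) :
    (Eff (dgP k K) n).Finite :=
  finite_Eff_of _ (fun v => (C.res v).1) (fun n => finite_dgP C hR n) n

/-- an effective divisor of degree `g` in each class of degree `g` -/
theorem exists_eff (C : Cv k K g) (D : DV K →₀ ℤ) (hD : degH k K D = g) :
    ∃ E : DV K →₀ ℕ, E ∈ Eff (dgP k K) g ∧ toZ E - D ∈ PrD K := by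
  classical
  have h1 := RRD.le_card_LInt C (-D)
  have h2 : RRD.degZ k (-D) = -(g : ℤ) := by
    rw [← degH_eq, map_neg, hD]
  rw [h2] at h1
  have h3 : (1 : ℤ) - (g : ℤ) - -(g : ℤ) = 1 := by ring
  rw [h3, zpow_one] at h1
  have h4 : Nat.card k ≤ Nat.card (RRD.LInt ((-D : DV K →₀ ℤ) : DV K → ℤ)) := by exact_mod_cast h1
  have hq := one_lt_card k
  have h5 : 1 < Nat.card (RRD.LInt ((-D : DV K →₀ ℤ) : DV K → ℤ)) := by omega
  have hfin : Finite (RRD.LInt ((-D : DV K →₀ ℤ) : DV K → ℤ)) :=
    Nat.finite_of_card_ne_zero (by omega)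
  have hnt : Nontrivial (RRD.LInt ((-D : DV K →₀ ℤ) : DV K → ℤ)) := Finite.one_lt_card_iff_nontrivial.1 h5
  obtain ⟨a, ha⟩ := exists_ne (0 : RRD.LInt ((-D : DV K →₀ ℤ) : DV K → ℤ))
  have ha0 : (a : K) ≠ 0 := fun h => ha (Subtype.ext h)
  have hpos : ∀ P : DV K, 0 ≤ P.ord (a : K) + D P := by
    intro P
    have h6 := (RRD.mem_LInt.1 a.2 P).le ha0
    rw [Finsupp.neg_apply] at h6
    omega
  set A := RRD.divF k C (a : K) ha0 with hA
  set E : DV K →₀ ℕ := (A + D).mapRange Int.toNat (by simp) with hE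
  have hEZ : toZ E = A + D := by
    ext P
    rw [toZ_apply, hE, Finsupp.mapRange_apply, Finsupp.add_apply]
    exact Int.toNat_of_nonneg (hpos P)
  refine ⟨E, ?_, ?_⟩
  · have h6 : degH k K (toZ E) = g := by
      rw [hEZ, map_add, hD, degH_eq, RRD.degZ_divF C ha0, zero_add]
    have h7 : degH k K (toZ E) = ((E.sum fun i m => dgP k K i * m : ℕ) : ℤ) := by
      show (toZ E).sum (fun P n => n * (P.deg (Nat.card k) : ℤ)) = _
      unfold toZ
      rw [Finsupp.mapRange.addMonoidHom_apply, Finsupp.sum_mapRange_index (fun _ => zero_mul _),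
        Finsupp.sum, Finsupp.sum, Nat.cast_sum]
      refine Finset.sum_congr rfl fun P _ => ?_
      rw [Nat.cast_mul, mul_comm]
      rfl
    rw [h6] at h7
    exact_mod_cast h7.symm
  · exact ⟨a, ha0, fun v => by rw [hEZ, add_sub_cancel_right]; rfl⟩

theorem finite_Pic0 (C : Cv k K g) {R : DV K} (hR : R.Rat k) : Finite (Pic0 k K) := by
  classical
  have hfin := (finite_Eff C hR g).to_subtype
  have hdR : degH k K (Finsupp.single R (g : ℤ)) = g := by
    rw [degH_single]
    have : R.deg (Nat.card k) = 1 := rat_deg_one C hR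
    rw [this, Nat.cast_one, mul_one]
  have key : ∀ x : Pic0 k K, ∃ E : Eff (dgP k K) g, ∃ h : toZ E.1 - Finsupp.single R (g : ℤ) ∈ Dz k K,
      x = QuotientAddGroup.mk ⟨_, h⟩ := by
    intro x
    obtain ⟨⟨D, hD⟩, rfl⟩ := QuotientAddGroup.mk_surjective x
    have hD0 : degH k K D = 0 := hD
    obtain ⟨E, hE, hP⟩ := exists_eff C (D + Finsupp.single R (g : ℤ)) (by rw [map_add, hD0, hdR, zero_add])
    have hPr : degH k K (toZ E - (D + Finsupp.single R (g : ℤ))) = 0 := by
      obtain ⟨y, hy, h1⟩ := hP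
      have : toZ E - (D + Finsupp.single R (g : ℤ)) = RRD.divF k C y hy := by
        ext v
        exact h1 v
      rw [this, degH_eq, RRD.degZ_divF C hy]
    have hmem : toZ E - Finsupp.single R (g : ℤ) ∈ Dz k K := by
      rw [mem_Dz]
      have h1 : toZ E - Finsupp.single R (g : ℤ) = (toZ E - (D + Finsupp.single R (g : ℤ))) + D := by
        abel
      rw [h1, map_add, hPr, hD0, add_zero]
    refine ⟨⟨E, hE⟩, hmem, ?_⟩
    rw [QuotientAddGroup.eq, AddSubgroup.mem_addSubgroupOf]
    show -D + (toZ E - Finsupp.single R (g : ℤ)) ∈ PrD K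
    have h1 : -D + (toZ E - Finsupp.single R (g : ℤ)) = toZ E - (D + Finsupp.single R (g : ℤ)) := by
      abel
    rw [h1]
    exact hP
  choose f hf1 hf2 using key
  exact Finite.of_injective f fun x y hxy => by
    rw [hf2 x, hf2 y]
    congr 1
    apply Subtype.ext
    show toZ (f x).1 - _ = toZ (f y).1 - _
    rw [hxy]

end Pool.Agent.FF
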