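import Pool.Agent.FY.RRx
import Pool.Agent.FY.LpolFin

/-! # B2: the number of effective divisors in a class -/

set_option autoImplicit false
set_option linter.unusedSectionVars false

namespace Pool.Agent.FF

variable {k K : Type} [Field k] [Finite k] [Field K] [Algebra k K] {g : ℕ}

theorem degH_toZ_eff (E : DV K →₀ ℕ) : degH k K (toZ E) = ((E.sum fun i m => dgP k K i * m : ℕ) : ℤ) := by
  show (toZ E).sum (fun P n => n * (P.deg (Nat.card k) : ℤ)) = _
  unfold toZ
  rw [Finsupp.mapRange.addMonoidHom_apply, Finsupp.sum_mapRange_index (fun _ => zero_mul _),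
    Finsupp.sum, Finsupp.sum, Nat.cast_sum]
  refine Finset.sum_congr rfl fun P _ => ?_
  rw [Nat.cast_mul, mul_comm]
  rfl

theorem degH_divF_eff (C : Cv k K g) {y : K} (hy : y ≠ 0) : degH k K (RRD.divF k C y hy) = 0 := by
  rw [degH_eq, RRD.degZ_divF C hy]

/-- the nonzero functions of `L(D)` and the effective divisors in the class of `D` -/
theorem card_eff_aux (C : Cv k K g) (D : DV K →₀ ℤ) {n : ℕ} (hD : degH k K D = n)
    (hfin : Nat.card (RRD.LInt ((-D : DV K →₀ ℤ) : DV K → ℤ)) ≠ 0) :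
    (Nat.card k - 1) * Nat.card {E : DV K →₀ ℕ // E ∈ Eff (dgP k K) n ∧ toZ E - D ∈ PrD K} + 1 =
      Nat.card (RRD.LInt ((-D : DV K →₀ ℤ) : DV K → ℤ)) := by
  classical
  set L := RRD.LInt ((-D : DV K →₀ ℤ) : DV K → ℤ) with hL
  have hLfin : Finite L := Nat.finite_of_card_ne_zero hfin
  have hch : ∀ E : {E : DV K →₀ ℕ // E ∈ Eff (dgP k K) n ∧ toZ E - D ∈ PrD K},
      ∃ y : K, y ≠ 0 ∧ ∀ v : DV K, (toZ E.1 - D) v = v.ord y := fun E => E.2.2
  choose f hf0 hf using hch
  have hmemL : ∀ (c : kˣ) E, algebraMap k K c * f E ∈ L := by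
    intro c E P
    have hc : algebraMap k K (c : k) ≠ 0 := (_root_.map_ne_zero _).2 c.ne_zero
    refine DV.G_of_le ?_
    rw [P.ord_mul _ _ hc (hf0 E), P.ord_const, zero_add, ← hf E P, Finsupp.sub_apply,
      Finsupp.neg_apply, toZ_apply]
    have : (0 : ℤ) ≤ (E.1 P : ℤ) := Int.natCast_nonneg _
    omega
  have hne : ∀ (c : kˣ) E, algebraMap k K c * f E ≠ 0 := fun c E =>
    mul_ne_zero ((_root_.map_ne_zero _).2 c.ne_zero) (hf0 E)
  let Φ : kˣ × {E : DV K →₀ ℕ // E ∈ Eff (dgP k K) n ∧ toZ E - D ∈ PrD K} →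
      {a : L // a ≠ 0} := fun p => ⟨⟨_, hmemL p.1 p.2⟩, fun h => hne p.1 p.2 (congrArg Subtype.val h)⟩
  have hΦ : Function.Bijective Φ := by
    constructor
    · rintro ⟨c, E⟩ ⟨c', E'⟩ h
      have h1 : algebraMap k K (c : k) * f E = algebraMap k K (c' : k) * f E' :=
        congrArg (fun x : {a : L // a ≠ 0} => ((x : L) : K)) h
      have hE : E = E' := by
        apply Subtype.ext
        ext P
        have h2 := congrArg P.ord h1
        rw [P.ord_mul _ _ ((_root_.map_ne_zero _).2 c.ne_zero) (hf0 E),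
          P.ord_mul _ _ ((_root_.map_ne_zero _).2 c'.ne_zero) (hf0 E'), P.ord_const, P.ord_const,
          zero_add, zero_add, ← hf E P, ← hf E' P, Finsupp.sub_apply, Finsupp.sub_apply,
          toZ_apply, toZ_apply] at h2
        have h3 : ((E.1 P : ℕ) : ℤ) = E'.1 P := by omega
        exact_mod_cast h3
      subst hE
      have h2 := mul_right_cancel₀ (hf0 E) h1
      have h3 := (algebraMap k K).injective h2
      rw [Units.ext h3]
    · rintro ⟨⟨a, ha⟩, ha'⟩
      have ha0 : a ≠ 0 := fun h => ha' (Subtype.ext h)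
      have hpos : ∀ P : DV K, 0 ≤ P.ord a + D P := by
        intro P
        have h6 := (RRD.mem_LInt.1 ha P).le ha0
        rw [Finsupp.neg_apply] at h6
        omega
      set A := RRD.divF k C a ha0 with hA
      have hAP : ∀ P, A P = P.ord a := fun P => rfl
      set E : DV K →₀ ℕ := (A + D).mapRange Int.toNat (by simp) with hE
      have hEZ : toZ E = A + D := by
        ext P
        rw [toZ_apply, hE, Finsupp.mapRange_apply, Finsupp.add_apply]
        exact Int.toNat_of_nonneg (hpos P)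
      have hEeff : E ∈ Eff (dgP k K) n := by
        have h6 : degH k K (toZ E) = n := by
          rw [hEZ, map_add, hD, degH_divF_eff C ha0, zero_add]
        rw [degH_toZ_eff] at h6
        exact_mod_cast h6
      have hEpr : toZ E - D ∈ PrD K := ⟨a, ha0, fun v => by rw [hEZ, add_sub_cancel_right]; rfl⟩
      obtain ⟨c, hc⟩ := C.const (a * (f ⟨E, hEeff, hEpr⟩)⁻¹) fun P => by
        refine DV.G_of_le ?_
        rw [P.ord_mul _ _ ha0 (inv_ne_zero (hf0 _)), P.ord_inv (hf0 _), ← hf ⟨E, hEeff, hEpr⟩ P]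
        show (0 : ℤ) ≤ P.ord a + -((toZ E - D) P)
        rw [hEZ, add_sub_cancel_right, hAP]
        omega
      have hc0 : c ≠ 0 := by
        rintro rfl
        rw [map_zero] at hc
        exact mul_ne_zero ha0 (inv_ne_zero (hf0 _)) hc
      refine ⟨⟨Units.mk0 c hc0, ⟨E, hEeff, hEpr⟩⟩, ?_⟩
      apply Subtype.ext
      apply Subtype.ext
      show algebraMap k K c * f ⟨E, hEeff, hEpr⟩ = a
      rw [← hc, inv_mul_cancel_right₀ (hf0 _)]
  have h1 := Nat.card_congr (Equiv.ofBijective Φ hΦ)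
  rw [Nat.card_prod, Nat.card_units] at h1
  rw [h1]
  have h2 : Nat.card {a : L // a ≠ 0} + 1 = Nat.card L := by
    have := Fintype.ofFinite L
    rw [Nat.card_eq_fintype_card, Nat.card_eq_fintype_card, Fintype.card_subtype_compl,
      Fintype.card_subtype_eq]
    have : 0 < Fintype.card L := Fintype.card_pos
    omega
  exact h2

/-- every class contains the same number of effective divisors of degree `n ≥ 2 g - 1` -/
theorem card_eff (C : Cv k K g) {R : DV K} (hR : R.Rat k) (D : DV K →₀ ℤ) {n : ℕ}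
    (hD : degH k K D = n) (hn : 2 * g ≤ n + 1) :
    (Nat.card k - 1) * Nat.card {E : DV K →₀ ℕ // E ∈ Eff (dgP k K) n ∧ toZ E - D ∈ PrD K} + 1 =
      Nat.card k ^ (n + 1 - g) := by
  have h0 : RRD.degZ k (-D) = -(n : ℤ) := by
    rw [← degH_eq, map_neg, hD]
  have h1 := RRD.cnt C (-D)
  rw [card_eff_aux C D hD h1.fin]
  have h3 : RRD.hCard ((-D : DV K →₀ ℤ) : DV K → ℤ) = 1 :=
    hCard_eq_one C hR (-D) (by rw [h0]; omega)
  have h4 := h1.eq
  rw [h3, h0, Nat.cast_one, mul_one] at h4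
  have h5 : (1 : ℤ) - g - -(n : ℤ) = ((n + 1 - g : ℕ) : ℤ) := by omega
  rw [h5, zpow_natCast] at h4
  exact_mod_cast h4

end Pool.Agent.FF
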