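import Pool.Agent.FY.RRx
import Pool.Agent.FY.LpolA
import Pool.Agent.FY.LpolFin
import Pool.Agent.FY.LpolCard

/-! # B2: effective divisors and the L-polynomial

`finite_dgP`, `finite_Eff`, `finite_Pic0` are in `FY/LpolFin`, `card_eff` in `FY/LpolCard`. -/

set_option autoImplicit false

namespace Pool.Agent.FF

variable {k K : Type} [Field k] [Finite k] [Field K] [Algebra k K] {g : ℕ}

theorem exists_L (C : Cv k K g) {R : DV K} (hR : R.Rat k) : ∃ L : Polynomial ℤ, IsL k K g L :=
  exists_L_of C hR (finite_Pic0 C hR) (finite_Eff C hR) fun D _ h hn => card_eff C hR D h hn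

end Pool.Agent.FF
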