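import Mathlib

/-! # The L-polynomial from the numbers of effective divisors: algebra -/

set_option autoImplicit false

namespace Pool.Agent.FF.LpolAlg

open Finset

theorem coeff_one_sub_X_mul (T : PowerSeries ℤ) (n : ℕ) :
    PowerSeries.coeff (n + 1) ((1 - PowerSeries.X) * T) =
      PowerSeries.coeff (n + 1) T - PowerSeries.coeff n T := by
  rw [sub_mul, one_mul, map_sub, PowerSeries.coeff_succ_X_mul]

theorem coeff_zero_one_sub_X_mul (T : PowerSeries ℤ) :
    PowerSeries.coeff 0 ((1 - PowerSeries.X) * T) = PowerSeries.coeff 0 T := by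
  rw [sub_mul, one_mul, map_sub, PowerSeries.coeff_zero_X_mul, sub_zero]

theorem coeff_one_sub_qX_mul (q : ℤ) (T : PowerSeries ℤ) (n : ℕ) :
    PowerSeries.coeff (n + 1) ((1 - PowerSeries.C q * PowerSeries.X) * T) =
      PowerSeries.coeff (n + 1) T - q * PowerSeries.coeff n T := by
  rw [sub_mul, one_mul, map_sub, mul_assoc, PowerSeries.coeff_C_mul, PowerSeries.coeff_succ_X_mul]

theorem coeff_zero_one_sub_qX_mul (q : ℤ) (T : PowerSeries ℤ) :
    PowerSeries.coeff 0 ((1 - PowerSeries.C q * PowerSeries.X) * T) = PowerSeries.coeff 0 T := by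
  rw [sub_mul, one_mul, map_sub, mul_assoc, PowerSeries.coeff_C_mul, PowerSeries.coeff_zero_X_mul,
    mul_zero, sub_zero]

theorem sum_coeff (T : PowerSeries ℤ) (N : ℕ) :
    ∑ n ∈ range (N + 1), PowerSeries.coeff n ((1 - PowerSeries.X) * T) =
      PowerSeries.coeff N T := by
  induction N with
  | zero => rw [zero_add, Finset.sum_range_one, coeff_zero_one_sub_X_mul]
  | succ N ih => rw [Finset.sum_range_succ, ih, coeff_one_sub_X_mul]; ring

theorem exists_poly (a : ℕ → ℤ) (q h : ℤ) (hq : q ≠ 1) (g : ℕ) (ha : a 0 = 1)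
    (H : ∀ n, 2 * g ≤ n + 1 → (q - 1) * a n = h * (q ^ (n + 1 - g) - 1)) :
    ∃ L : Polynomial ℤ, L.natDegree ≤ 2 * g ∧ L.coeff 0 = 1 ∧ L.eval 1 = h ∧
      (L : PowerSeries ℤ) = (1 - PowerSeries.X) * (1 - PowerSeries.C q * PowerSeries.X) *
        PowerSeries.mk a := by
  have hq1 : q - 1 ≠ 0 := sub_ne_zero.2 hq
  set T : PowerSeries ℤ := (1 - PowerSeries.C q * PowerSeries.X) * PowerSeries.mk a with hT
  have hT0 : PowerSeries.coeff 0 T = 1 := by
    rw [hT, coeff_zero_one_sub_qX_mul, PowerSeries.coeff_mk, ha]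
  have hTs : ∀ n, PowerSeries.coeff (n + 1) T = a (n + 1) - q * a n := by
    intro n
    rw [hT, coeff_one_sub_qX_mul, PowerSeries.coeff_mk, PowerSeries.coeff_mk]
  -- the values of `T` from `2 g` on
  have hTh : ∀ n, 2 * g ≤ n → PowerSeries.coeff n T = h := by
    intro n hn
    rcases n with _ | n
    · have h0 := H 0 (by omega)
      have hg : g = 0 := by omega
      subst hg
      rw [ha, mul_one, zero_add, Nat.sub_zero, pow_one] at h0
      rw [hT0]
      have h1 : (q - 1) * (1 - h) = 0 := by linear_combination h0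
      have := (mul_eq_zero.1 h1).resolve_left hq1
      linarith
    · rw [hTs]
      have h1 := H n hn
      have h2 := H (n + 1) (by omega)
      refine mul_left_cancel₀ hq1 ?_
      have e : q ^ (n + 1 + 1 - g) = q * q ^ (n + 1 - g) := by
        rw [← pow_succ']; congr 1; omega
      rw [e] at h2
      linear_combination h2 - q * h1
  set P : PowerSeries ℤ := (1 - PowerSeries.X) * T with hP
  have hP0 : ∀ n, 2 * g < n → PowerSeries.coeff n P = 0 := by
    intro n hn
    obtain ⟨m, rfl⟩ : ∃ m, n = m + 1 := ⟨n - 1, by omega⟩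
    rw [hP, coeff_one_sub_X_mul, hTh _ (by omega), hTh _ (by omega), sub_self]
  refine ⟨PowerSeries.trunc (2 * g + 1) P, ?_, ?_, ?_, ?_⟩
  · have := PowerSeries.natDegree_trunc_lt P (2 * g)
    omega
  · rw [PowerSeries.coeff_trunc, if_pos (by omega), hP, coeff_zero_one_sub_X_mul, hT0]
  · rw [Polynomial.eval_eq_sum_range' (PowerSeries.natDegree_trunc_lt P (2 * g))]
    have e : ∀ n ∈ range (2 * g + 1),
        (PowerSeries.trunc (2 * g + 1) P).coeff n * 1 ^ n = PowerSeries.coeff n P := by
      intro n hn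
      rw [mem_range] at hn
      rw [PowerSeries.coeff_trunc, if_pos hn, one_pow, mul_one]
    rw [Finset.sum_congr rfl e, hP, sum_coeff, hTh _ le_rfl]
  · rw [mul_assoc, ← hT, ← hP]
    ext n
    rw [Polynomial.coeff_coe, PowerSeries.coeff_trunc]
    split_ifs with hn
    · rfl
    · rw [hP0 n (by omega)]

end Pool.Agent.FF.LpolAlg
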