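import Pool.Agent.FY.Lpol
import Pool.Agent.FY.Comb
import Pool.Agent.FY.Cst
import Pool.Agent.FY.NrmC

/-! # B5: norm and conorm -/

set_option autoImplicit false

namespace Pool.Agent.FF

theorem Cst.nrm {k k' K K' : Type} [Field k] [Finite k] [Field k'] [Finite k'] [Field K] [Field K']
    [Algebra k K] [Algebra k' K'] [Algebra K K'] (S : Cst k k' K K') {g : ℕ} (C : Cv k K g)
    (C' : Cv k' K' g) {R : DV K} (hR : R.Rat k) :
    ∃ m : ℕ, Nat.card (Pic0 k' K') = Nat.card (Pic0 k K) * m ∧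
      Nat.card {x : Pic0 k K // 2 • x = 0} ∣ m := by
  have hR1 : R.deg (Nat.card k) = 1 := by
    have h1 : R.resCard ≠ 0 := by
      have := (C.res R).2
      rw [DV.card_Res] at this
      rw [this]
      exact pow_ne_zero _ (Nat.card_pos (α := k)).ne'
    exact (deg_eq_one_iff k R h1).2 hR
  obtain ⟨R', -, hR'⟩ := S.rat C' hR
  have : Finite (Pic0 k K) := finite_Pic0 C hR
  refine S.nrm_of C' R hR1 fun H h2 hev => ?_
  refine S.gen (g := g) R hR1 (finite_Eff C hR) (finite_Eff C' hR') (fun n hn => ?_) ?_ H h2 hev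
  · have hq : 1 < Nat.card k := Finite.one_lt_card
    refine ⟨(Nat.card k ^ (n + 1 - g) - 1) / (Nat.card k - 1), fun D hD => ?_⟩
    have h3 := card_eff C hR D hD hn
    have h4 : Nat.card {E : DV K →₀ ℕ // E ∈ Eff (dgP k K) n ∧ toZ E - D ∈ PrD K} =
        {X | X ∈ Eff (fun v : DV K => v.deg (Nat.card k)) n ∧ toZ X - D ∈ PrD K}.ncard := rfl
    rw [← h4, ← h3, Nat.add_sub_cancel, Nat.mul_div_cancel_left _ (by omega)]
  · intro w w' ho he n
    exact comb (dgP k K) (dgP k' K') S.π (fun v => (C.res v).1) (finite_dgP C hR) S.odd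
      (fun i hi => by
        obtain ⟨w₁, w₂, h1, h2, h3, h4, -⟩ := S.even i hi
        exact ⟨w₁, w₂, h1, h2, h3, h4⟩) w w' ho he n

end Pool.Agent.FF
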