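import Pool.Agent.FY.CstD
import Pool.Agent.FY.PicD

/-! # The conorm of a constant quadratic extension on classes of degree zero -/

set_option autoImplicit false
set_option linter.unusedSectionVars false

namespace Pool.Agent.FF

open Finset

namespace Cst

variable {k k' K K' : Type} [Field k] [Field k'] [Field K] [Field K'] [Algebra k K]
    [Algebra k' K'] [Algebra K K'] (S : Cst k k' K K')

/-- the action on places -/
def e : DV K' ≃ DV K' where
  toFun w := w.comp S.σ
  invFun w := w.comp S.σ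
  left_inv w := by
    ext x
    rw [DV.comp_ord, DV.comp_ord, S.σσ]
  right_inv w := by
    ext x
    rw [DV.comp_ord, DV.comp_ord, S.σσ]

theorem e_ord (w : DV K') (x : K') : (S.e w).ord x = w.ord (S.σ x) := rfl

theorem e_e (w : DV K') : S.e (S.e w) = w := S.e.left_inv w

theorem e_symm (w : DV K') : S.e.symm w = S.e w := rfl

theorem π_e (w : DV K') : S.π (S.e w) = S.π w := by
  ext a
  rw [← S.ord, ← S.ord, S.e_ord, S.σK]

theorem fib_finite (v : DV K) : {w : DV K' | S.π w = v}.Finite := by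
  rcases Nat.even_or_odd (v.deg (Nat.card k)) with h | h
  · obtain ⟨w₁, w₂, -, h1, -⟩ := S.even v h
    refine (Set.finite_singleton w₂).insert w₁ |>.subset fun w hw => ?_
    rcases (h1 w).1 hw with h2 | h2
    · exact Or.inl h2
    · exact Or.inr h2
  · obtain ⟨w₁, h1, -⟩ := S.odd v h
    exact (Set.finite_singleton w₁).subset fun w hw => (h1 w).1 hw

theorem π_surj : Function.Surjective S.π := by
  intro v
  rcases Nat.even_or_odd (v.deg (Nat.card k)) with h | h
  · obtain ⟨w₁, w₂, -, h1, -⟩ := S.even v h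
    exact ⟨w₁, (h1 w₁).2 (Or.inl rfl)⟩
  · obtain ⟨w₁, h1, -⟩ := S.odd v h
    exact ⟨w₁, (h1 w₁).2 rfl⟩

/-- the conorm -/
noncomputable def con : (DV K →₀ ℤ) →+ (DV K' →₀ ℤ) where
  toFun D := Finsupp.ofSupportFinite (fun w => D (S.π w)) (by
    refine (D.support.finite_toSet.biUnion fun v _ => S.fib_finite v).subset fun w hw => ?_
    have h : D (S.π w) ≠ 0 := hw
    exact Set.mem_biUnion (Finset.mem_coe.2 (Finsupp.mem_support_iff.2 h)) rfl)
  map_zero' := by ext w; rfl
  map_add' D E := by ext w; rfl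

theorem con_apply (D : DV K →₀ ℤ) (w : DV K') : S.con D w = D (S.π w) := rfl

/-- the action on divisors -/
noncomputable def sg : (DV K' →₀ ℤ) →+ (DV K' →₀ ℤ) :=
  (Finsupp.domCongr S.e).toAddMonoidHom

theorem sg_apply (D : DV K' →₀ ℤ) (w : DV K') : S.sg D w = D (S.e w) := by
  show (Finsupp.equivMapDomain S.e D) w = _
  rw [Finsupp.equivMapDomain_apply]
  rfl

theorem sg_single (w : DV K') (n : ℤ) : S.sg (Finsupp.single w n) = Finsupp.single (S.e w) n := by
  show Finsupp.equivMapDomain S.e (Finsupp.single w n) = _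
  rw [Finsupp.equivMapDomain_single]

theorem sg_con (D : DV K →₀ ℤ) : S.sg (S.con D) = S.con D := by
  ext w
  rw [S.sg_apply, S.con_apply, S.con_apply, S.π_e]

theorem e_odd {w : DV K'} (h : Odd ((S.π w).deg (Nat.card k))) : S.e w = w := by
  obtain ⟨w₁, h1, -⟩ := S.odd _ h
  rw [(h1 (S.e w)).1 (S.π_e w), ← (h1 w).1 rfl]

theorem π_eq_iff_odd {w : DV K'} (h : Odd ((S.π w).deg (Nat.card k))) (w' : DV K') :
    S.π w' = S.π w ↔ w' = w := by
  obtain ⟨w₁, h1, -⟩ := S.odd _ h
  rw [h1, ← (h1 w).1 rfl]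

theorem deg_odd {w : DV K'} (h : Odd ((S.π w).deg (Nat.card k))) :
    w.deg (Nat.card k') = (S.π w).deg (Nat.card k) := by
  obtain ⟨w₁, h1, h2⟩ := S.odd _ h
  rw [← h2, ← (h1 w).1 rfl]

theorem even' {w : DV K'} (h : Even ((S.π w).deg (Nat.card k))) : S.e w ≠ w ∧
    (∀ w', S.π w' = S.π w ↔ w' = w ∨ w' = S.e w) ∧
    2 * w.deg (Nat.card k') = (S.π w).deg (Nat.card k) := by
  obtain ⟨w₁, w₂, h0, h1, h2, h3, h4⟩ := S.even _ h
  have h5 : S.e w₁ = w₂ := by
    ext x
    rw [S.e_ord, h4]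
  have h6 : S.e w₂ = w₁ := by rw [← h5, S.e_e]
  rcases (h1 w).1 rfl with h7 | h7
  · rw [h7, h5]
    rw [h7] at h1
    exact ⟨h0.symm, h1, h7 ▸ h2⟩
  · rw [h7, h6]
    rw [h7] at h1
    exact ⟨h0, fun w' => (h1 w').trans or_comm, h7 ▸ h3⟩

theorem deg_e (w : DV K') : (S.e w).deg (Nat.card k') = w.deg (Nat.card k') := by
  rcases Nat.even_or_odd ((S.π w).deg (Nat.card k)) with h | h
  · have h1 := (S.even' h).2.2
    have h2 : 2 * (S.e w).deg (Nat.card k') = (S.π w).deg (Nat.card k) := by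
      have := (S.even' (w := S.e w) (by rw [S.π_e]; exact h)).2.2
      rwa [S.π_e] at this
    omega
  · rw [S.e_odd h]

theorem con_single_odd {w : DV K'} (h : Odd ((S.π w).deg (Nat.card k))) (n : ℤ) :
    S.con (Finsupp.single (S.π w) n) = Finsupp.single w n := by
  classical
  ext w'
  rw [S.con_apply, Finsupp.single_apply, Finsupp.single_apply]
  by_cases h1 : w = w'
  · rw [if_pos h1, if_pos (by rw [h1])]
  · rw [if_neg h1, if_neg fun h2 => h1 ((S.π_eq_iff_odd h w').1 h2.symm).symm]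

theorem con_single_even {w : DV K'} (h : Even ((S.π w).deg (Nat.card k))) (n : ℤ) :
    S.con (Finsupp.single (S.π w) n) = Finsupp.single w n + Finsupp.single (S.e w) n := by
  classical
  obtain ⟨h0, h1, -⟩ := S.even' h
  ext w'
  rw [S.con_apply, Finsupp.add_apply, Finsupp.single_apply, Finsupp.single_apply,
    Finsupp.single_apply]
  by_cases h2 : S.π w = S.π w'
  · rw [if_pos h2]
    rcases (h1 w').1 h2.symm with h3 | h3
    · rw [h3, if_pos rfl, if_neg h0, add_zero]
    · rw [h3, if_pos rfl, if_neg h0.symm, zero_add]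
  · rw [if_neg h2, if_neg, if_neg, add_zero]
    · intro h3
      exact h2 (by rw [← h3, S.π_e])
    · intro h3
      exact h2 (by rw [h3])

variable [Finite k] [Finite k']

theorem degH_con (D : DV K →₀ ℤ) : degH k' K' (S.con D) = degH k K D := by
  suffices h : (degH k' K').comp S.con = degH k K from DFunLike.congr_fun h D
  apply Finsupp.addHom_ext
  intro v n
  rw [AddMonoidHom.comp_apply]
  obtain ⟨w, rfl⟩ := S.π_surj v
  rcases Nat.even_or_odd ((S.π w).deg (Nat.card k)) with h | h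
  · rw [S.con_single_even h, map_add, degH_single, degH_single, degH_single, S.deg_e,
      ← (S.even' h).2.2]
    push_cast
    ring
  · rw [S.con_single_odd h, degH_single, degH_single, S.deg_odd h]

theorem degH_sg (D : DV K' →₀ ℤ) : degH k' K' (S.sg D) = degH k' K' D := by
  suffices h : (degH k' K').comp S.sg = degH k' K' from DFunLike.congr_fun h D
  apply Finsupp.addHom_ext
  intro w n
  rw [AddMonoidHom.comp_apply, S.sg_single, degH_single, degH_single, S.deg_e]

/-- `D + σ D` comes from below -/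
theorem add_sg (D : DV K' →₀ ℤ) : ∃ E : DV K →₀ ℤ, D + S.sg D = S.con E := by
  induction D using Finsupp.induction with
  | zero => exact ⟨0, by rw [map_zero, map_zero, add_zero]⟩
  | single_add w n D _ _ ih =>
    obtain ⟨E, hE⟩ := ih
    rw [map_add, S.sg_single]
    have h2 : Finsupp.single w n + D + (Finsupp.single (S.e w) n + S.sg D) =
        Finsupp.single w n + Finsupp.single (S.e w) n + (D + S.sg D) := by abel
    rw [h2, hE]
    rcases Nat.even_or_odd ((S.π w).deg (Nat.card k)) with h | h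
    · exact ⟨Finsupp.single (S.π w) n + E, by rw [map_add, S.con_single_even h]⟩
    · refine ⟨Finsupp.single (S.π w) n + Finsupp.single (S.π w) n + E, ?_⟩
      rw [map_add, map_add, S.con_single_odd h, S.e_odd h]

theorem con_PrD {D : DV K →₀ ℤ} (h : D ∈ PrD K) : S.con D ∈ PrD K' := by
  obtain ⟨y, hy, h1⟩ := h
  exact ⟨algebraMap K K' y, (map_ne_zero _).2 hy, fun w => by rw [S.con_apply, h1, S.ord]⟩

theorem sg_PrD {D : DV K' →₀ ℤ} (h : D ∈ PrD K') : S.sg D ∈ PrD K' := by
  obtain ⟨y, hy, h1⟩ := h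
  exact ⟨S.σ y, (map_ne_zero _).2 hy, fun w => by rw [S.sg_apply, h1, S.e_ord]⟩

/-- the conorm is injective on classes -/
theorem of_con_PrD {g : ℕ} (C' : Cv k' K' g) {D : DV K →₀ ℤ} (h : S.con D ∈ PrD K') :
    D ∈ PrD K := by
  obtain ⟨F, hF, h1⟩ := h
  have hσF : S.σ F ≠ 0 := (map_ne_zero _).2 hF
  have h2 : ∀ w : DV K', w.ord (S.σ F) = w.ord F := by
    intro w
    have h3 := h1 (S.e w)
    rw [S.con_apply, S.π_e, ← S.con_apply, h1 w, S.e_ord] at h3
    exact h3.symm
  obtain ⟨c, hc⟩ := C'.const (F / S.σ F) fun w => DV.G_of_le (by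
    rw [w.ord_div hF hσF, h2, sub_self])
  set c' : K' := algebraMap k' K' c with hc'
  have hFc : F = c' * S.σ F := by
    rw [← hc]
    field_simp
  have hc0 : c' ≠ 0 := by
    intro h0
    rw [h0, zero_mul] at hFc
    exact hF hFc
  have hn : c' * S.σ c' = 1 := by
    have h3 : S.σ F = S.σ c' * F := by
      conv_lhs => rw [hFc, map_mul, S.σσ]
    have h4 : F = c' * S.σ c' * F := by
      rw [mul_assoc, ← h3]
      exact hFc
    have h5 : (c' * S.σ c' - 1) * F = 0 := by linear_combination -h4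
    rcases mul_eq_zero.1 h5 with h6 | h6
    · exact sub_eq_zero.1 h6
    · exact absurd h6 hF
  -- a constant `d` with `c' σ(d) = d`
  obtain ⟨d, hd0, hd⟩ : ∃ d : k', d ≠ 0 ∧ c' * S.σ (algebraMap k' K' d) = algebraMap k' K' d := by
    by_cases h0 : c = -1
    · refine ⟨S.η, S.η_ne, ?_⟩
      rw [S.ση, hc', h0, map_neg, map_one]
      ring
    · refine ⟨1 + c, fun h3 => h0 (by linear_combination h3), ?_⟩
      rw [map_add, map_one, ← hc', map_add, map_one, mul_add, hn, mul_one]
      ring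
  have hd0' : algebraMap k' K' d ≠ 0 := (map_ne_zero _).2 hd0
  have hσd : S.σ (algebraMap k' K' d) ≠ 0 := (map_ne_zero _).2 hd0'
  have hfix : S.σ (F / algebraMap k' K' d) = F / algebraMap k' K' d := by
    rw [map_div₀, div_eq_div_iff hσd hd0']
    have h3 : algebraMap k' K' d * S.σ F = S.σ (algebraMap k' K' d) * F := by
      conv_lhs => rw [← hd]
      conv_rhs => rw [hFc]
      ring
    linear_combination h3
  obtain ⟨a, ha⟩ := S.fix _ hfix
  have ha0 : a ≠ 0 := by
    rintro rfl
    rw [map_zero, div_eq_zero_iff] at ha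
    exact ha.elim hF hd0'
  refine ⟨a, ha0, fun v => ?_⟩
  obtain ⟨w, rfl⟩ := S.π_surj v
  rw [← S.ord, ← ha, w.ord_div hF hd0', RRD.ord_algebraMap w hd0, sub_zero, ← h1, S.con_apply]

/-! ### On classes -/

/-- the conorm on divisors of degree zero -/
noncomputable def conZ : Dz k K →+ Dz k' K' :=
  (S.con.comp (Dz k K).subtype).codRestrict (Dz k' K') fun D => by
    rw [mem_Dz, AddMonoidHom.comp_apply, S.degH_con]
    exact D.2

theorem conZ_coe (D : Dz k K) : (S.conZ D : DV K' →₀ ℤ) = S.con D := rfl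

/-- the action on divisors of degree zero -/
noncomputable def sgZ : Dz k' K' →+ Dz k' K' :=
  (S.sg.comp (Dz k' K').subtype).codRestrict (Dz k' K') fun D => by
    rw [mem_Dz, AddMonoidHom.comp_apply, S.degH_sg]
    exact D.2

theorem sgZ_coe (D : Dz k' K') : (S.sgZ D : DV K' →₀ ℤ) = S.sg D := rfl

/-- the conorm on classes -/
noncomputable def conP : Pic0 k K →+ Pic0 k' K' :=
  QuotientAddGroup.map _ _ S.conZ fun D hD => by
    rw [AddSubgroup.mem_comap, AddSubgroup.mem_addSubgroupOf, conZ_coe]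
    exact S.con_PrD (AddSubgroup.mem_addSubgroupOf.1 hD)

theorem conP_mk (D : Dz k K) : S.conP (QuotientAddGroup.mk D) = QuotientAddGroup.mk (S.conZ D) := rfl

/-- the action on classes -/
noncomputable def sgP : Pic0 k' K' →+ Pic0 k' K' :=
  QuotientAddGroup.map _ _ S.sgZ fun D hD => by
    rw [AddSubgroup.mem_comap, AddSubgroup.mem_addSubgroupOf, sgZ_coe]
    exact S.sg_PrD (AddSubgroup.mem_addSubgroupOf.1 hD)

theorem sgP_mk (D : Dz k' K') : S.sgP (QuotientAddGroup.mk D) = QuotientAddGroup.mk (S.sgZ D) := rfl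

theorem conP_inj {g : ℕ} (C' : Cv k' K' g) : Function.Injective S.conP := by
  rw [injective_iff_map_eq_zero]
  intro x
  induction x using QuotientAddGroup.induction_on with
  | H D =>
    intro h
    rw [conP_mk, QuotientAddGroup.eq_zero_iff, AddSubgroup.mem_addSubgroupOf, conZ_coe] at h
    rw [QuotientAddGroup.eq_zero_iff, AddSubgroup.mem_addSubgroupOf]
    exact S.of_con_PrD C' h

/-- `1 + σ` -/
noncomputable def T : Pic0 k' K' →+ Pic0 k' K' := AddMonoidHom.id _ + S.sgP

theorem T_apply (x : Pic0 k' K') : S.T x = x + S.sgP x := rfl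

theorem T_mk (D : Dz k' K') :
    S.T (QuotientAddGroup.mk D) = QuotientAddGroup.mk (D + S.sgZ D) := rfl

theorem sgP_conP (x : Pic0 k K) : S.sgP (S.conP x) = S.conP x := by
  induction x using QuotientAddGroup.induction_on with
  | H D =>
    rw [conP_mk, sgP_mk]
    congr 1
    exact Subtype.ext (S.sg_con _)

theorem T_conP (x : Pic0 k K) : S.T (S.conP x) = S.conP (2 • x) := by
  rw [T_apply, sgP_conP, map_nsmul, two_nsmul]

theorem range_T_le : S.T.range ≤ S.conP.range := by
  rintro _ ⟨x, rfl⟩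
  induction x using QuotientAddGroup.induction_on with
  | H D =>
    obtain ⟨E, hE⟩ := S.add_sg (D : DV K' →₀ ℤ)
    have hE0 : E ∈ Dz k K := by
      rw [mem_Dz, ← S.degH_con, ← hE, map_add, S.degH_sg]
      have : degH k' K' (D : DV K' →₀ ℤ) = 0 := D.2
      rw [this, add_zero]
    refine ⟨QuotientAddGroup.mk ⟨E, hE0⟩, ?_⟩
    rw [conP_mk, T_mk]
    congr 1
    exact Subtype.ext hE.symm

/-- the class of `v - deg v R` -/
noncomputable def _root_.Pool.Agent.FF.clR (k : Type) [Field k] [Finite k] {K : Type} [Field K]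
    (R : DV K) (hR : R.deg (Nat.card k) = 1) (v : DV K) : Pic0 k K :=
  QuotientAddGroup.mk ⟨Finsupp.single v 1 - Finsupp.single R (v.deg (Nat.card k) : ℤ), by
    rw [mem_Dz, map_sub, degH_single, degH_single, hR]
    push_cast
    ring⟩

theorem clR_mem (R : DV K) (hR : R.deg (Nat.card k) = 1) {v : DV K}
    (hv : Even (v.deg (Nat.card k))) : S.conP (clR k R hR v) ∈ S.T.range := by
  obtain ⟨R', rfl⟩ := S.π_surj R
  obtain ⟨w, rfl⟩ := S.π_surj v
  have hodd : Odd ((S.π R').deg (Nat.card k)) := by rw [hR]; exact odd_one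
  obtain ⟨-, -, h2⟩ := S.even' hv
  have hd' : R'.deg (Nat.card k') = 1 := by rw [S.deg_odd hodd, hR]
  refine ⟨clR k' R' hd' w, ?_⟩
  unfold clR
  rw [T_mk, conP_mk]
  congr 1
  apply Subtype.ext
  rw [AddSubgroup.coe_add, conZ_coe, sgZ_coe]
  show _ + S.sg (Finsupp.single w 1 - Finsupp.single R' _) = S.con (_ - _)
  rw [map_sub, map_sub, S.sg_single, S.sg_single, S.e_odd hodd, S.con_single_even hv,
    S.con_single_odd hodd, ← h2]
  show (Finsupp.single w 1 - Finsupp.single R' _) + _ = _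
  push_cast
  rw [two_mul, Finsupp.single_add]
  abel

include S in
/-- **The norm**, given that the classes of even places generate. -/
theorem nrm_of {g : ℕ} (C' : Cv k' K' g) (R : DV K) (hR : R.deg (Nat.card k) = 1)
    (hgen : ∀ H : AddSubgroup (Pic0 k K), (∀ x, 2 • x ∈ H) →
      (∀ v : DV K, Even (v.deg (Nat.card k)) → clR k R hR v ∈ H) → H = ⊤) :
    ∃ m : ℕ, Nat.card (Pic0 k' K') = Nat.card (Pic0 k K) * m ∧
      Nat.card {x : Pic0 k K // 2 • x = 0} ∣ m := by
  have hrange : S.conP.range = S.T.range := by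
    apply le_antisymm _ S.range_T_le
    have h1 := hgen (S.T.range.comap S.conP) (fun x => ⟨S.conP x, S.T_conP x⟩)
      fun v hv => S.clR_mem R hR hv
    rintro _ ⟨x, rfl⟩
    have : x ∈ S.T.range.comap S.conP := by
      rw [h1]
      exact AddSubgroup.mem_top x
    exact this
  have hcard : Nat.card S.T.range = Nat.card (Pic0 k K) := by
    rw [← hrange]
    exact (Nat.card_congr (AddMonoidHom.ofInjective (S.conP_inj C')).toEquiv).symm
  refine ⟨Nat.card S.T.ker, ?_, ?_⟩
  · rw [← hcard, ← AddSubgroup.index_ker, mul_comm]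
    exact (AddSubgroup.card_mul_index _).symm
  · have h1 : Nat.card {x : Pic0 k K // 2 • x = 0} =
        Nat.card ((nsmulAddMonoidHom (α := Pic0 k K) 2).ker) := rfl
    have h2 : Nat.card ((nsmulAddMonoidHom (α := Pic0 k K) 2).ker) =
        Nat.card (((nsmulAddMonoidHom (α := Pic0 k K) 2).ker).map S.conP) :=
      Nat.card_congr (AddSubgroup.equivMapOfInjective _ S.conP (S.conP_inj C')).toEquiv
    rw [h1, h2]
    apply AddSubgroup.card_dvd_of_le
    rintro _ ⟨x, hx, rfl⟩
    have hx' : 2 • x = 0 := hx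
    rw [AddMonoidHom.mem_ker, T_conP, hx', map_zero]

include S in
/-- two-torsion grows -/
theorem card_tors_dvd {g : ℕ} (C' : Cv k' K' g) : Nat.card {x : Pic0 k K // 2 • x = 0} ∣
    Nat.card {x : Pic0 k' K' // 2 • x = 0} := by
  have h1 : Nat.card {x : Pic0 k K // 2 • x = 0} =
      Nat.card ((nsmulAddMonoidHom (α := Pic0 k K) 2).ker) := rfl
  have h3 : Nat.card {x : Pic0 k' K' // 2 • x = 0} =
      Nat.card ((nsmulAddMonoidHom (α := Pic0 k' K') 2).ker) := rfl
  have h2 : Nat.card ((nsmulAddMonoidHom (α := Pic0 k K) 2).ker) =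
      Nat.card (((nsmulAddMonoidHom (α := Pic0 k K) 2).ker).map S.conP) :=
    Nat.card_congr (AddSubgroup.equivMapOfInjective _ S.conP (S.conP_inj C')).toEquiv
  rw [h1, h3, h2]
  apply AddSubgroup.card_dvd_of_le
  rintro _ ⟨x, hx, rfl⟩
  have hx' : 2 • x = 0 := hx
  show 2 • S.conP x = 0
  rw [← map_nsmul, hx', map_zero]

end Cst

end Pool.Agent.FF
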