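import Pool.Agent.FY.NrmA

/-! # The classes of the even places generate: the character argument -/

set_option autoImplicit false
set_option linter.unusedSectionVars false

namespace Pool.Agent.FF

open Finset

/-! ### A quadratic character of a finite group of exponent two -/

/-- a nontrivial quadratic character, trivial on a proper subgroup which contains all doubles -/
theorem exists_quad_char {A : Type*} [AddCommGroup A] {H : AddSubgroup A}
    (h2 : ∀ x : A, 2 • x ∈ H) (hH : H ≠ ⊤) :
    ∃ χ : A → ℤ, χ 0 = 1 ∧ (∀ x y, χ (x + y) = χ x * χ y) ∧ (∀ x, χ x = 1 ∨ χ x = -1) ∧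
      (∀ x ∈ H, χ x = 1) ∧ ∃ x, χ x = -1 := by
  classical
  obtain ⟨x₀, hx₀⟩ : ∃ x₀, x₀ ∉ H := by
    by_contra h
    push Not at h
    exact hH (eq_top_iff.2 fun x _ => h x)
  have hQ : ∀ q : A ⧸ H, 2 • q = 0 := by
    intro q
    induction q using QuotientAddGroup.induction_on with
    | H x => exact (QuotientAddGroup.eq_zero_iff _).2 (h2 x)
  let _ : Module (ZMod 2) (A ⧸ H) := AddCommGroup.zmodModule (n := 2) hQ
  have hne : (QuotientAddGroup.mk x₀ : A ⧸ H) ≠ 0 := fun h => hx₀ ((QuotientAddGroup.eq_zero_iff _).1 h)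
  obtain ⟨f, hf⟩ : ∃ f : Module.Dual (ZMod 2) (A ⧸ H), f (QuotientAddGroup.mk x₀) ≠ 0 := by
    by_contra h
    push Not at h
    exact hne ((Module.forall_dual_apply_eq_zero_iff (ZMod 2) _).1 h)
  let s : ZMod 2 → ℤ := fun z => if z = 0 then 1 else -1
  have hs : ∀ a b : ZMod 2, s (a + b) = s a * s b := by decide
  refine ⟨fun x => s (f (QuotientAddGroup.mk x)), ?_, ?_, ?_, ?_, x₀, ?_⟩
  · show s (f (QuotientAddGroup.mk (0 : A))) = 1
    rw [QuotientAddGroup.mk_zero, map_zero]
    rfl
  · intro x y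
    show s (f (QuotientAddGroup.mk (x + y))) = _
    rw [QuotientAddGroup.mk_add, map_add, hs]
  · intro x
    show s _ = 1 ∨ s _ = -1
    by_cases h : f (QuotientAddGroup.mk x) = 0
    · left; exact if_pos h
    · right; exact if_neg h
  · intro x hx
    show s (f (QuotientAddGroup.mk x)) = 1
    rw [(QuotientAddGroup.eq_zero_iff x).2 hx, map_zero]
    rfl
  · exact if_neg hf

theorem sum_quad_char {A : Type*} [AddCommGroup A] [Fintype A] {χ : A → ℤ}
    (hm : ∀ x y, χ (x + y) = χ x * χ y) {x₀ : A} (hx₀ : χ x₀ = -1) : ∑ x, χ x = 0 := by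
  have h1 : ∑ x, χ (x + x₀) = ∑ x, χ x :=
    Fintype.sum_equiv (Equiv.addRight x₀) _ _ fun x => rfl
  have h2 : ∑ x, χ (x + x₀) = -∑ x, χ x := by
    rw [← sum_neg_distrib]
    exact sum_congr rfl fun x _ => by rw [hm, hx₀, mul_neg_one]
  linarith

/-! ### The class of a divisor, shifted to degree zero -/

section cls

variable (k : Type) [Field k] [Finite k] {K : Type} [Field K] (R : DV K)
  (hR : R.deg (Nat.card k) = 1)

/-- `D - deg D R` -/
noncomputable def shZ : (DV K →₀ ℤ) →+ Dz k K :=
  (AddMonoidHom.id (DV K →₀ ℤ) - (Finsupp.singleAddHom R).comp (degH k K)).codRestrict (Dz k K)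
    fun D => by
      rw [mem_Dz, AddMonoidHom.sub_apply, map_sub, AddMonoidHom.comp_apply,
        Finsupp.singleAddHom_apply, degH_single, hR, AddMonoidHom.id_apply]
      push_cast
      ring

theorem shZ_coe (D : DV K →₀ ℤ) :
    (shZ k R hR D : DV K →₀ ℤ) = D - Finsupp.single R (degH k K D) := rfl

/-- the class of `D - deg D R` -/
noncomputable def clsD : (DV K →₀ ℤ) →+ Pic0 k K :=
  (QuotientAddGroup.mk' _).comp (shZ k R hR)

theorem clsD_apply (D : DV K →₀ ℤ) : clsD k R hR D = QuotientAddGroup.mk (shZ k R hR D) := rfl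

theorem clsD_single (v : DV K) : clsD k R hR (Finsupp.single v 1) = clR k R hR v := by
  rw [clsD_apply]
  unfold clR
  congr 1
  apply Subtype.ext
  rw [shZ_coe, degH_single, one_mul]

theorem clsD_eq_iff {D E : DV K →₀ ℤ} (h : degH k K D = degH k K E) :
    clsD k R hR D = clsD k R hR E ↔ D - E ∈ PrD K := by
  rw [← sub_eq_zero, ← map_sub, clsD_apply, QuotientAddGroup.eq_zero_iff,
    AddSubgroup.mem_addSubgroupOf, shZ_coe, map_sub, h, sub_self, Finsupp.single_zero, sub_zero]

/-- every class is the class of a divisor of any given degree -/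
theorem exists_clsD (x : Pic0 k K) (n : ℤ) :
    ∃ D : DV K →₀ ℤ, degH k K D = n ∧ clsD k R hR D = x := by
  induction x using QuotientAddGroup.induction_on with
  | H D =>
    have hD : degH k K (D : DV K →₀ ℤ) = 0 := D.2
    refine ⟨(D : DV K →₀ ℤ) + Finsupp.single R n, ?_, ?_⟩
    · rw [map_add, hD, degH_single, hR]
      push_cast
      ring
    · rw [clsD_apply]
      congr 1
      apply Subtype.ext
      rw [shZ_coe, map_add, hD, degH_single, hR]
      push_cast
      rw [zero_add, mul_one, add_sub_cancel_right]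

end cls

end Pool.Agent.FF
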